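import Pool.Agent.Lib.MP_630b78_co.EH.Tower

/-!
# Comparison of the left and the right words
-/

namespace EllHall

open MvPolynomial

variable {K : Type} [Field K] {q t u : K} {T : ℕ → ℕ → Module.End K (MvPolynomial ℕ K)}

/-- the data of the two towers -/
structure Two (q t u : K) (T : ℕ → ℕ → Module.End K (MvPolynomial ℕ K)) (A : Fin 7 → K)
    (v : Fin 7 → MvPolynomial ℕ K) (w : Fin 7 → Module.Dual K (MvPolynomial ℕ K)) (e : Fin 7 → K) : Prop where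
  v0 : (1 : MvPolynomial ℕ K) = v 0
  ev : ∀ i, w 0 (v i) = 1
  w1 : ∀ i, w i (v 0) = 1
  l0 : ∀ n, 1 ≤ n → T n 1 (v 0) = A 0 • v 1
  l1 : ∀ n, 1 ≤ n → T n 1 (v 1) = (A 1 * q ^ n) • v 2 + (A 2 * t ^ n) • v 3
  l2 : ∀ n, 1 ≤ n → T n 1 (v 2) = (A 3 * (q ^ 2) ^ n) • v 4 + (A 4 * t ^ n) • v 5
  l3 : ∀ n, 1 ≤ n → T n 1 (v 3) = (A 5 * q ^ n) • v 5 + (A 6 * (t ^ 2) ^ n) • v 6
  r0 : ∀ n, 1 ≤ n → ∀ g, w 0 (T 1 n g) = (-u) ^ n * (-u)⁻¹ * (A 0 * w 1 g)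
  r1 : ∀ n, 1 ≤ n → ∀ g, w 1 (T 1 n g) = (-u) ^ n * (-u)⁻¹ * (A 1 * q ^ n * w 2 g + A 2 * t ^ n * w 3 g)
  r2 : ∀ n, 1 ≤ n → ∀ g, w 2 (T 1 n g) = (-u) ^ n * (-u)⁻¹ * (A 3 * (q ^ 2) ^ n * w 4 g + A 4 * t ^ n * w 5 g)
  r3 : ∀ n, 1 ≤ n → ∀ g, w 3 (T 1 n g) = (-u) ^ n * (-u)⁻¹ * (A 5 * q ^ n * w 5 g + A 6 * (t ^ 2) ^ n * w 6 g)
  e0 : ∀ i g, w i (T 0 1 g) = e i * w i g
  ee0 : e 0 = 1 - u
  ee2 : e 2 = 1 - u + u * ((1 - q) * (1 - t)) * (1 + q)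
  ee3 : e 3 = 1 - u + u * ((1 - q) * (1 - t)) * (1 + t)
  ee4 : e 4 = 1 - u + u * ((1 - q) * (1 - t)) * (1 + q + q ^ 2)
  ee5 : e 5 = 1 - u + u * ((1 - q) * (1 - t)) * (1 + q + t)
  ee6 : e 6 = 1 - u + u * ((1 - q) * (1 - t)) * (1 + t + t ^ 2)
  rel : A 1 * A 4 * ((1 + t) * (q ^ 2 - t)) + A 2 * A 5 * ((1 + q) * (t ^ 2 - q)) = 0

variable {A : Fin 7 → K} {v : Fin 7 → MvPolynomial ℕ K} {w : Fin 7 → Module.Dual K (MvPolynomial ℕ K)} {e : Fin 7 → K}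

theorem cmp_E1 (h : Two q t u T A v w e) (hu : u ≠ 0) {b : ℕ} (hb : 1 ≤ b) :
    (-u) ^ 1 * w 0 (T 1 b 1) = (-u) ^ b * w 0 (T b 1 1) := by
  have hu' : -u ≠ 0 := neg_ne_zero.2 hu
  rw [h.v0, h.r0 b hb, h.l0 b hb, map_smul, h.ev, h.w1, smul_eq_mul]
  field_simp

theorem cmp_E11 (h : Two q t u T A v w e) (hu : u ≠ 0) {b : ℕ} (hb : 1 ≤ b) :
    (-u) ^ 2 * w 0 (T 1 b (T 1 b 1)) = (-u) ^ (b * 2) * w 0 (T b 1 (T b 1 1)) := by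
  have hu' : -u ≠ 0 := neg_ne_zero.2 hu
  rw [h.v0, h.r0 b hb, h.r1 b hb, h.l0 b hb, map_smul, h.l1 b hb, map_smul, map_add, map_smul, map_smul, h.ev, h.ev, h.w1, h.w1]
  simp only [smul_eq_mul]
  generalize hU : -u = U at hu' ⊢
  field_simp
  ring

theorem cmp_E111 (h : Two q t u T A v w e) (hu : u ≠ 0) {b : ℕ} (hb : 1 ≤ b) :
    (-u) ^ 3 * w 0 (T 1 b (T 1 b (T 1 b 1))) = (-u) ^ (b * 3) * w 0 (T b 1 (T b 1 (T b 1 1))) := by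
  have hu' : -u ≠ 0 := neg_ne_zero.2 hu
  rw [h.v0, h.r0 b hb, h.r1 b hb, h.r2 b hb, h.r3 b hb, h.l0 b hb, map_smul, h.l1 b hb]
  simp only [map_add, map_smul, h.l2 b hb, h.l3 b hb, h.ev, h.w1, smul_eq_mul]
  generalize hU : -u = U at hu' ⊢
  field_simp
  ring

theorem cmp_F2 (hM : (1 - q) * (1 - t) ≠ 0) (hT : IsT q t T) (h : Two q t u T A v w e) (hu : u ≠ 0) {m : ℕ} (hm : 1 ≤ m) :
    (-u) ^ 2 * w 0 (T 2 (2 * m + 1) 1) = (-u) ^ (2 * m + 1) * w 0 (T (2 * m + 1) 2 1) := by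
  have hu' : -u ≠ 0 := neg_ne_zero.2 hu
  have hq1 : 1 - q ≠ 0 := left_ne_zero_of_mul hM
  have ht1 : 1 - t ≠ 0 := right_ne_zero_of_mul hM
  have hm1 : 1 ≤ m + 1 := by omega
  rw [op_2odd hM hT, op_odd2 hM hT, h.v0]
  simp only [LinearMap.smul_apply, LinearMap.sub_apply, Module.End.mul_apply, map_sub, map_add, map_smul,
    h.r0 m hm, h.r1 m hm, h.r0 (m+1) hm1, h.r1 (m+1) hm1, h.l0 m hm, h.l1 m hm, h.l0 (m+1) hm1, h.l1 (m+1) hm1, h.ev, h.w1,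
    smul_eq_mul]
  generalize hU : -u = U at hu' ⊢
  field_simp
  ring

theorem cmp_E2 (hM : (1 - q) * (1 - t) ≠ 0) (hT : IsT q t T) (h : Two q t u T A v w e) (hu : u ≠ 0) {m : ℕ} (hm : 1 ≤ m) :
    (-u) ^ 2 * w 0 (T 2 (2 * m + 2) 1) = (-u) ^ (2 * m + 2) * w 0 (T (2 * m + 2) 2 1) := by
  have hu' : -u ≠ 0 := neg_ne_zero.2 hu
  have hq1 : 1 - q ≠ 0 := left_ne_zero_of_mul hM
  have ht1 : 1 - t ≠ 0 := right_ne_zero_of_mul hM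
  have hm1 : 1 ≤ m + 1 := by omega
  have hm2 : 1 ≤ m + 2 := by omega
  rw [op_2even hM hT, op_2odd hM hT, op_even2 hM hT, h.v0]
  simp only [LinearMap.smul_apply, LinearMap.sub_apply, Module.End.mul_apply, map_sub, map_add, map_smul,
    h.r0 m hm, h.r1 m hm, h.r0 (m+1) hm1, h.r1 (m+1) hm1, h.l0 m hm, h.l1 m hm, h.l0 (m+2) hm2, h.l1 (m+2) hm2, h.ev, h.w1,
    smul_eq_mul, h.e0, h.ee0, h.ee2, h.ee3]
  obtain ⟨U, hU⟩ : ∃ U, U = -u := ⟨_, rfl⟩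
  have hu2 : u = -U := by rw [hU, neg_neg]
  rw [← hU] at hu' ⊢
  rw [hu2]
  field_simp
  ring

theorem cmp_F3a (hM : (1 - q) * (1 - t) ≠ 0) (hT : IsT q t T) (h : Two q t u T A v w e) (hu : u ≠ 0) {m : ℕ} (hm : 1 ≤ m) :
    (-u) ^ 3 * w 0 (T 3 (3 * m + 1) 1) = (-u) ^ (3 * m + 1) * w 0 (T (3 * m + 1) 3 1) := by
  have hu' : -u ≠ 0 := neg_ne_zero.2 hu
  have hq1 : 1 - q ≠ 0 := left_ne_zero_of_mul hM
  have ht1 : 1 - t ≠ 0 := right_ne_zero_of_mul hM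
  have hm1 : 1 ≤ m + 1 := by omega
  rw [op_a3 hM hT, op_3a hM hT, op_2odd hM hT, op_odd2 hM hT, h.v0]
  simp only [LinearMap.smul_apply, LinearMap.sub_apply, Module.End.mul_apply, map_sub, map_add, map_smul,
    h.r0 m hm, h.r1 m hm, h.r2 m hm, h.r3 m hm, h.r0 (m+1) hm1, h.r1 (m+1) hm1, h.r2 (m+1) hm1, h.r3 (m+1) hm1,
    h.l0 m hm, h.l1 m hm, h.l2 m hm, h.l3 m hm, h.l0 (m+1) hm1, h.l1 (m+1) hm1, h.l2 (m+1) hm1, h.l3 (m+1) hm1, h.ev, h.w1,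
    smul_eq_mul]
  generalize hU : -u = U at hu' ⊢
  field_simp
  ring

theorem cmp_F3b (hM : (1 - q) * (1 - t) ≠ 0) (hT : IsT q t T) (h : Two q t u T A v w e) (hu : u ≠ 0) {m : ℕ} (hm : 1 ≤ m) :
    (-u) ^ 3 * w 0 (T 3 (3 * m + 2) 1) = (-u) ^ (3 * m + 2) * w 0 (T (3 * m + 2) 3 1) := by
  have hu' : -u ≠ 0 := neg_ne_zero.2 hu
  have hq1 : 1 - q ≠ 0 := left_ne_zero_of_mul hM
  have ht1 : 1 - t ≠ 0 := right_ne_zero_of_mul hM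
  have hm1 : 1 ≤ m + 1 := by omega
  rw [op_b3 hM hT, op_3b hM hT, op_2odd hM hT, op_odd2 hM hT, h.v0]
  simp only [LinearMap.smul_apply, LinearMap.sub_apply, Module.End.mul_apply, map_sub, map_add, map_smul,
    h.r0 m hm, h.r1 m hm, h.r2 m hm, h.r3 m hm, h.r0 (m+1) hm1, h.r1 (m+1) hm1, h.r2 (m+1) hm1, h.r3 (m+1) hm1,
    h.l0 m hm, h.l1 m hm, h.l2 m hm, h.l3 m hm, h.l0 (m+1) hm1, h.l1 (m+1) hm1, h.l2 (m+1) hm1, h.l3 (m+1) hm1, h.ev, h.w1,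
    smul_eq_mul]
  generalize hU : -u = U at hu' ⊢
  field_simp
  ring

theorem cmp_E3 (hM : (1 - q) * (1 - t) ≠ 0) (hT : IsT q t T) (h : Two q t u T A v w e) (hu : u ≠ 0) {m : ℕ} (hm : 1 ≤ m) :
    (-u) ^ 3 * w 0 (T 3 (3 * m + 3) 1) = (-u) ^ (3 * m + 3) * w 0 (T (3 * m + 3) 3 1) := by
  have hu' : -u ≠ 0 := neg_ne_zero.2 hu
  have hq1 : 1 - q ≠ 0 := left_ne_zero_of_mul hM
  have ht1 : 1 - t ≠ 0 := right_ne_zero_of_mul hM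
  have hm1 : 1 ≤ m + 1 := by omega
  have hm2 : 1 ≤ m + 1 + 1 := by omega
  rw [op_c3 hM hT, op_b3 hM hT, op_3c hM hT, op_2odd hM hT, op_odd2 hM hT, h.v0]
  simp only [LinearMap.smul_apply, LinearMap.sub_apply, Module.End.mul_apply, map_sub, map_add, map_smul,
    h.r0 m hm, h.r1 m hm, h.r2 m hm, h.r3 m hm, h.r0 (m+1) hm1, h.r1 (m+1) hm1, h.r2 (m+1) hm1, h.r3 (m+1) hm1,
    h.l0 m hm, h.l1 m hm, h.l2 m hm, h.l3 m hm, h.l0 (m+1) hm1, h.l1 (m+1) hm1, h.l2 (m+1) hm1, h.l3 (m+1) hm1,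
    h.l0 (m+1+1) hm2, h.l1 (m+1+1) hm2, h.l2 (m+1+1) hm2, h.l3 (m+1+1) hm2, h.ev, h.w1,
    smul_eq_mul, h.e0, h.ee0, h.ee4, h.ee5, h.ee6]
  obtain ⟨U, hU⟩ : ∃ U, U = -u := ⟨_, rfl⟩
  have hu2 : u = -U := by rw [hU, neg_neg]
  rw [← hU] at hu' ⊢
  rw [hu2]
  field_simp
  linear_combination (2 * (1 - q) * (1 - t) * A 0 * U ^ (3 * m + 3) * q ^ m * t ^ m) * h.rel

theorem cmp_E21 (hM : (1 - q) * (1 - t) ≠ 0) (hT : IsT q t T) (h : Two q t u T A v w e) (hu : u ≠ 0) {m : ℕ} (hm : 1 ≤ m) :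
    (-u) ^ 3 * w 0 (T 2 (2 * m + 2) (T 1 (m + 1) 1)) = (-u) ^ (3 * m + 3) * w 0 (T (2 * m + 2) 2 (T (m + 1) 1 1)) := by
  have hu' : -u ≠ 0 := neg_ne_zero.2 hu
  have hq1 : 1 - q ≠ 0 := left_ne_zero_of_mul hM
  have ht1 : 1 - t ≠ 0 := right_ne_zero_of_mul hM
  have hm1 : 1 ≤ m + 1 := by omega
  have hm2 : 1 ≤ m + 2 := by omega
  rw [op_2even hM hT, op_2odd hM hT, op_even2 hM hT, h.v0]
  simp only [LinearMap.smul_apply, LinearMap.sub_apply, Module.End.mul_apply, map_sub, map_add, map_smul,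
    h.r0 m hm, h.r1 m hm, h.r2 m hm, h.r3 m hm, h.r0 (m+1) hm1, h.r1 (m+1) hm1, h.r2 (m+1) hm1, h.r3 (m+1) hm1,
    h.l0 m hm, h.l1 m hm, h.l2 m hm, h.l3 m hm, h.l0 (m+1) hm1, h.l1 (m+1) hm1, h.l2 (m+1) hm1, h.l3 (m+1) hm1,
    h.l0 (m+2) hm2, h.l1 (m+2) hm2, h.l2 (m+2) hm2, h.l3 (m+2) hm2, h.ev, h.w1,
    smul_eq_mul, h.e0, h.ee0, h.ee2, h.ee3]
  obtain ⟨U, hU⟩ : ∃ U, U = -u := ⟨_, rfl⟩
  have hu2 : u = -U := by rw [hU, neg_neg]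
  rw [← hU] at hu' ⊢
  rw [hu2]
  field_simp
  linear_combination (-(1 - q) * (1 - t) * A 0 * U ^ (3 * m + 3) * q ^ m * t ^ m) * h.rel

end EllHall
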