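import Mathlib

/-!
# Elliptic Hall operators: definitions

`MvPolynomial ℕ K` is the ring of symmetric functions over the field `K` (of characteristic zero); the variable `X k` is the
power sum `p_(k+1)`.
-/

namespace EllHall

open MvPolynomial

section basic

variable (K : Type) [Field K]

/-- The elementary symmetric functions: `e_0 = 1`, `(n+1) e_(n+1) = ∑_(i ≤ n) (-1)^i p_(i+1) e_(n-i)` (Newton). -/
noncomputable def ee : ℕ → MvPolynomial ℕ K
  | 0 => 1
  | n + 1 => C (((n + 1 : ℕ) : K)⁻¹) * ∑ i : Fin (n + 1), (-1) ^ (i : ℕ) * X (i : ℕ) * ee (n - i)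

/-- The complete symmetric functions: `h_0 = 1`, `(n+1) h_(n+1) = ∑_(i ≤ n) p_(i+1) h_(n-i)` (Newton). -/
noncomputable def hh : ℕ → MvPolynomial ℕ K
  | 0 => 1
  | n + 1 => C (((n + 1 : ℕ) : K)⁻¹) * ∑ i : Fin (n + 1), X (i : ℕ) * hh (n - i)

/-- `h_z` for an integer `z`, zero for negative `z`. -/
noncomputable def hz (z : ℤ) : MvPolynomial ℕ K := if 0 ≤ z then hh K z.toNat else 0

/-- The Schur function of the partition with the rows `l_0 ≥ l_1 ≥ ...` (Jacobi-Trudi determinant of the `h_(l_i - i + j)`). -/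
noncomputable def schur (l : List ℕ) : MvPolynomial ℕ K :=
  Matrix.det (Matrix.of fun i j : Fin l.length => hz K ((l.get i : ℤ) - (i : ℤ) + (j : ℤ)))

end basic

section pairing

variable {K : Type} [Field K]

/-- `z_m = ∏ k^(m_k) m_k!`; here `m k` is the multiplicity of the part `k + 1`. -/
def zz (m : ℕ →₀ ℕ) : ℕ := m.prod fun k a => (k + 1) ^ a * a.factorial

/-- The Hall scalar product: the products of power sums are orthogonal, `⟨p_m, p_m⟩ = z_m`. -/
noncomputable def hall (g f : MvPolynomial ℕ K) : K := ∑ m ∈ g.support, g.coeff m * f.coeff m * (zz m : K)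

/-- The coefficient of the Schur function `s_μ` in `g`, computed as `⟨g, s_μ⟩`; the partition `μ` is given by its parts. -/
noncomputable def sc (g : MvPolynomial ℕ K) (μ : Multiset ℕ) : K := hall g (schur K (μ.sort (· ≥ ·)))

/-- The partition without its first column. -/
def bar (μ : Multiset ℕ) : Multiset ℕ := (μ.map fun i => i - 1).filter fun i => 0 < i

/-- The coefficient of `s_ρ` in the image of `g` (of degree `n`) under the linear map `s_μ ↦ s_(bar μ)`. -/
noncomputable def barCoeff (g : MvPolynomial ℕ K) (n : ℕ) (ρ : Multiset ℕ) : K :=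
  ∑ μ : Nat.Partition n, if bar μ.parts = ρ then sc g μ.parts else 0

end pairing

section operators

variable {K : Type} [Field K]

/-- `g[x + M w]`, a polynomial in `w`, where `M = (1 - q)(1 - t)`: the substitution `p_k ↦ p_k + (1 - q^k)(1 - t^k) w^k`. -/
noncomputable def shift (q t : K) : MvPolynomial ℕ K →ₐ[K] Polynomial (MvPolynomial ℕ K) :=
  aeval fun k => Polynomial.C (X k) + Polynomial.C (C ((1 - q ^ (k + 1)) * (1 - t ^ (k + 1)))) * Polynomial.X ^ (k + 1)

/-- The operator `D_0`: the coefficient of `z^0` in `g[x + M/z] ∑_n e_n (-z)^n`. -/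
noncomputable def D0 (q t : K) : Module.End K (MvPolynomial ℕ K) where
  toFun g := (shift q t g).sum fun n c => c * ((-1) ^ n * ee K n)
  map_add' g f := by
    rw [map_add]
    exact Polynomial.sum_add_index _ _ _ (fun _ => by simp) (fun _ _ _ => by ring)
  map_smul' a g := by
    rw [map_smul, RingHom.id_apply]
    rw [Polynomial.sum_smul_index' _ _ _ (fun _ => by simp), Polynomial.sum, Polynomial.sum, Finset.smul_sum]
    exact Finset.sum_congr rfl fun n _ => by rw [smul_mul_assoc]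

/-- The operators `Q_(m,n)`: `Q_(1,0) = -D_0`, `Q_(0,1)` is the multiplication by `p_1 = e_1`, and `M Q_(m,n) = [Q_(u,v), Q_(k,l)]`,
`(u, v) = (m, n) - (k, l)`, where `(m, n) = (a d, b d)` with coprime `a, b`, and `(k, l)` is the point with `0 ≤ k ≤ a`, `0 ≤ l ≤ b`,
`a l - b k = 1`. -/
structure IsHall (q t : K) (Q : ℕ → ℕ → Module.End K (MvPolynomial ℕ K)) : Prop where
  q10 : Q 1 0 = - D0 q t
  q01 : Q 0 1 = LinearMap.mulLeft K (X 0)
  step : ∀ a b k l d : ℕ, 1 ≤ a → 1 ≤ b → 1 ≤ d → k ≤ a → l ≤ b → a * l = b * k + 1 →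
    ((1 - q) * (1 - t)) • Q (a * d) (b * d) =
      Q (a * d - k) (b * d - l) * Q k l - Q k l * Q (a * d - k) (b * d - l)

/-- The product `∏ σ(b μ_i) Q_(a μ_i, b μ_i)` over the parts of `μ` in decreasing order (the factors commute); `σ` is a sign. -/
noncomputable def opProd (Q : ℕ → ℕ → Module.End K (MvPolynomial ℕ K)) (σ : ℕ → K) (a b : ℕ) (μ : Multiset ℕ) :
    Module.End K (MvPolynomial ℕ K) :=
  ((μ.sort (· ≥ ·)).map fun m => σ (b * m) • Q (a * m) (b * m)).prod

/-- `f^(a,b) = ∑_μ c_μ (∏_i σ(b μ_i) Q_(a μ_i, b μ_i))(1)` for the seed `f = ∑ c_μ q_μ`. -/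
noncomputable def ff (Q : ℕ → ℕ → Module.End K (MvPolynomial ℕ K)) (σ : ℕ → K) {d : ℕ} (c : Nat.Partition d → K)
    (a b : ℕ) : MvPolynomial ℕ K :=
  ∑ μ : Nat.Partition d, c μ • opProd Q σ a b μ.parts 1

/-- `x` is a polynomial in `q, t` with coefficients in `ℕ`. -/
def IsNN (q t : K) (x : K) : Prop := ∃ P : MvPolynomial (Fin 2) ℕ, x = P.eval₂ (Nat.castRingHom K) ![q, t]

/-- The seed `∑ c_μ q_μ` of degree `d` gives rise to Schur-positive operators. -/
def PosSeed (q t : K) (Q : ℕ → ℕ → Module.End K (MvPolynomial ℕ K)) (σ : ℕ → K) {d : ℕ} (c : Nat.Partition d → K) : Prop :=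
  ∀ a b : ℕ, 1 ≤ a → 1 ≤ b → Nat.Coprime a b → ∀ μ : Nat.Partition (b * d), IsNN q t (sc (ff Q σ c a b) μ.parts)

/-- `T_(m,n) = (-1)^(n+1) Q_(m,n)`, the operators with the corrected signs (auxiliary): `M T_(m,n) = [T_(k,l), T_(u,v)]`. -/
structure IsT (q t : K) (T : ℕ → ℕ → Module.End K (MvPolynomial ℕ K)) : Prop where
  t10 : T 1 0 = D0 q t
  t01 : T 0 1 = LinearMap.mulLeft K (X 0)
  step : ∀ a b k l d : ℕ, 1 ≤ a → 1 ≤ b → 1 ≤ d → k ≤ a → l ≤ b → a * l = b * k + 1 →
    ((1 - q) * (1 - t)) • T (a * d) (b * d) =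
      T k l * T (a * d - k) (b * d - l) - T (a * d - k) (b * d - l) * T k l

/-- `p_k ↦ 1 - u^k`, the evaluation `g ↦ g[1 - u]` -/
noncomputable def eps (u : K) : MvPolynomial ℕ K →ₐ[K] K := aeval fun k => 1 - u ^ (k + 1)

/-- the hook Schur function with first row `j + 1` and `k` further rows of length one -/
noncomputable def hook (K : Type) [Field K] (j k : ℕ) : MvPolynomial ℕ K :=
  ∑ i ∈ Finset.range (k + 1), (-1) ^ i * hh K (j + 1 + i) * ee K (k - i)

end operators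

section towers

variable {K : Type} [Field K]

/-- the weights of the edges of Young's lattice up to three boxes: `∅-1, 1-2, 1-11, 2-3, 2-21, 11-21, 11-111` -/
noncomputable def al (q t u : K) : Fin 7 → K :=
  ![1 - u, (1 - t) * (1 - u * q) / (q - t), (1 - q) * (1 - u * t) / (t - q), (1 - t) * (1 - u * q ^ 2) / (q ^ 2 - t),
    (1 - q ^ 2) * (1 - u * t) / (t - q ^ 2), (1 - t ^ 2) * (1 - u * q) / (q - t ^ 2), (1 - q) * (1 - u * t ^ 2) / (t ^ 2 - q)]

/-- `∑ q^a t^b` over the boxes of `∅, 1, 2, 11, 3, 21, 111` -/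
def bb (q t : K) : Fin 7 → K := ![0, 1, 1 + q, 1 + t, 1 + q + q ^ 2, 1 + q + t, 1 + t + t ^ 2]

/-- The operators `R_k`, `k ≥ 1`, add one box of content `c` with weight `al * c^k`. -/
structure Tower (q t u : K) {E : Type} [AddCommGroup E] [Module K E] (v : Fin 7 → E) (R : ℕ → Module.End K E) : Prop where
  r0 : ∀ k, 1 ≤ k → R k (v 0) = al q t u 0 • v 1
  r1 : ∀ k, 1 ≤ k → R k (v 1) = (al q t u 1 * q ^ k) • v 2 + (al q t u 2 * t ^ k) • v 3
  r2 : ∀ k, 1 ≤ k → R k (v 2) = (al q t u 3 * (q ^ 2) ^ k) • v 4 + (al q t u 4 * t ^ k) • v 5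
  r3 : ∀ k, 1 ≤ k → R k (v 3) = (al q t u 5 * q ^ k) • v 5 + (al q t u 6 * (t ^ 2) ^ k) • v 6

/-- the modified Macdonald polynomials `H_μ` with at most three boxes, order `∅, 1, 2, 11, 3, 21, 111` -/
noncomputable def HH (q t : K) : Fin 7 → MvPolynomial ℕ K :=
  let s2 : MvPolynomial ℕ K := C (2⁻¹ : K) * (X 0 ^ 2 + X 1)
  let s11 : MvPolynomial ℕ K := C (2⁻¹ : K) * (X 0 ^ 2 - X 1)
  let s3 : MvPolynomial ℕ K := C (6⁻¹ : K) * (X 0 ^ 3 + 3 * X 0 * X 1 + 2 * X 2)
  let s21 : MvPolynomial ℕ K := C (3⁻¹ : K) * (X 0 ^ 3 - X 2)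
  let s111 : MvPolynomial ℕ K := C (6⁻¹ : K) * (X 0 ^ 3 - 3 * X 0 * X 1 + 2 * X 2)
  ![1, X 0, s2 + C q * s11, s2 + C t * s11, s3 + C (q + q ^ 2) * s21 + C (q ^ 3) * s111,
    s3 + C (q + t) * s21 + C (q * t) * s111, s3 + C (t + t ^ 2) * s21 + C (t ^ 3) * s111]

end towers

end EllHall
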