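import Pool.Agent.Lib.MP_630b78_co.EH.Homog

/-!
# The family of operators exists

Define the family by recursion: `F : ℕ → ℕ → ℕ → End` with fuel, or well-founded recursion on `m + n`: `F 1 0 = -D0`, `F 0 1 = mulLeft (X 0)`, and for `m, n ≥ 1`,
`d = gcd m n`, `a = m / d`, `b = n / d`, take the pair `(k, l)` of `split a b` (chosen) and put
`F m n = M⁻¹ • (F (m-k) (n-l) * F k l - F k l * F (m-k) (n-l))`.  The pair `(k, l)` with `k ≤ a`, `l ≤ b`, `a l = b k + 1` is unique (for coprime `a, b ≥ 1`;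
`a l = b k + 1` implies coprime), so `step` holds for every `(k, l)`; `gcd (a d) (b d) = d`.
-/

namespace EllHall

open MvPolynomial

variable {K : Type} [Field K] [CharZero K]

open Classical in
/-- the chosen pair -/
private noncomputable def exPick (a b : ℕ) : ℕ × ℕ :=
  if h : ∃ p : ℕ × ℕ, p.1 ≤ a ∧ p.2 ≤ b ∧ a * p.2 = b * p.1 + 1 then h.choose else (0, 0)

private theorem exPick_le {a b k k' l l' : ℕ} (hb : 1 ≤ b) (hk' : k' ≤ a) (hl' : l' ≤ b)
    (h : a * l = b * k + 1) (h' : a * l' = b * k' + 1) (hlt : k < k') : False := by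
  have hcop : Nat.Coprime a b := by
    have h1 : Nat.gcd a b ∣ b * k + 1 := h ▸ (Nat.gcd_dvd_left a b).mul_right l
    have h2 : Nat.gcd a b ∣ b * k := (Nat.gcd_dvd_right a b).mul_right k
    exact Nat.dvd_one.1 ((Nat.dvd_add_right h2).1 h1)
  have hll : l < l' := by
    have h1 : b * k < b * k' := Nat.mul_lt_mul_of_pos_left hlt hb
    have h2 : a * l < a * l' := by omega
    exact lt_of_mul_lt_mul_left h2 (Nat.zero_le a)
  obtain ⟨x, rfl⟩ : ∃ x, k' = k + x := ⟨k' - k, by omega⟩
  obtain ⟨y, rfl⟩ : ∃ y, l' = l + y := ⟨l' - l, by omega⟩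
  have hxy : a * y = b * x := by
    have h1 : a * (l + y) = a * l + a * y := by ring
    have h2 : b * (k + x) = b * k + b * x := by ring
    omega
  have hbx : b ∣ y := by
    have h1 : b ∣ a * y := ⟨x, hxy⟩
    exact hcop.symm.dvd_of_dvd_mul_left h1
  have hby : b ≤ y := Nat.le_of_dvd (by omega) hbx
  have hl0 : l = 0 := by omega
  rw [hl0] at h
  omega

private theorem exPick_eq {a b k l : ℕ} (hb : 1 ≤ b) (hk : k ≤ a) (hl : l ≤ b)
    (h : a * l = b * k + 1) : exPick a b = (k, l) := by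
  have hex : ∃ p : ℕ × ℕ, p.1 ≤ a ∧ p.2 ≤ b ∧ a * p.2 = b * p.1 + 1 := ⟨(k, l), hk, hl, h⟩
  unfold exPick
  rw [dif_pos hex]
  obtain ⟨h1, h2, h3⟩ := hex.choose_spec
  generalize hex.choose = p at h1 h2 h3
  obtain ⟨k', l'⟩ := p
  simp only at h1 h2 h3
  have hkk : k' = k := by
    rcases lt_trichotomy k k' with h4 | h4 | h4
    · exact (exPick_le hb h1 h2 h h3 h4).elim
    · exact h4.symm
    · exact (exPick_le hb hk hl h3 h h4).elim
  have ha : 1 ≤ a := by
    rcases Nat.eq_zero_or_pos a with h0 | h0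
    · rw [h0] at h
      omega
    · exact h0
  have hll : l' = l := by
    have h4 : a * l' = a * l := by rw [h3, h, hkk]
    exact Nat.eq_of_mul_eq_mul_left ha h4
  rw [hkk, hll]

open Classical in
/-- the family -/
private noncomputable def exF (q t : K) (m n : ℕ) : Module.End K (MvPolynomial ℕ K) :=
  if 1 ≤ m ∧ 1 ≤ n then
    if _hp : (exPick (m / Nat.gcd m n) (n / Nat.gcd m n)).1 + (exPick (m / Nat.gcd m n) (n / Nat.gcd m n)).2 < m + n ∧
        0 < (exPick (m / Nat.gcd m n) (n / Nat.gcd m n)).1 + (exPick (m / Nat.gcd m n) (n / Nat.gcd m n)).2 ∧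
        (exPick (m / Nat.gcd m n) (n / Nat.gcd m n)).1 ≤ m ∧ (exPick (m / Nat.gcd m n) (n / Nat.gcd m n)).2 ≤ n then
      ((1 - q) * (1 - t))⁻¹ •
        (exF q t (m - (exPick (m / Nat.gcd m n) (n / Nat.gcd m n)).1) (n - (exPick (m / Nat.gcd m n) (n / Nat.gcd m n)).2) *
            exF q t (exPick (m / Nat.gcd m n) (n / Nat.gcd m n)).1 (exPick (m / Nat.gcd m n) (n / Nat.gcd m n)).2 -
          exF q t (exPick (m / Nat.gcd m n) (n / Nat.gcd m n)).1 (exPick (m / Nat.gcd m n) (n / Nat.gcd m n)).2 *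
            exF q t (m - (exPick (m / Nat.gcd m n) (n / Nat.gcd m n)).1)
              (n - (exPick (m / Nat.gcd m n) (n / Nat.gcd m n)).2))
    else 0
  else if m = 1 ∧ n = 0 then - D0 q t
  else if m = 0 ∧ n = 1 then LinearMap.mulLeft K (X 0)
  else 0
termination_by m + n
decreasing_by all_goals omega

theorem exists_hall {q t : K} (hM : (1 - q) * (1 - t) ≠ 0) :
    ∃ Q : ℕ → ℕ → Module.End K (MvPolynomial ℕ K), IsHall q t Q := by
  refine ⟨exF q t, ?_, ?_, ?_⟩
  · rw [exF, if_neg (by omega), if_pos (by omega)]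
  · rw [exF, if_neg (by omega), if_neg (by omega), if_pos (by omega)]
  · intro a b k l d ha hb hd hk hl h
    have hcop : Nat.Coprime a b := by
      have h1 : Nat.gcd a b ∣ b * k + 1 := h ▸ (Nat.gcd_dvd_left a b).mul_right l
      have h2 : Nat.gcd a b ∣ b * k := (Nat.gcd_dvd_right a b).mul_right k
      exact Nat.dvd_one.1 ((Nat.dvd_add_right h2).1 h1)
    have hg : Nat.gcd (a * d) (b * d) = d := by
      rw [Nat.gcd_mul_right, hcop.gcd_eq_one, one_mul]
    have hda : a * d / d = a := Nat.mul_div_cancel a hd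
    have hdb : b * d / d = b := Nat.mul_div_cancel b hd
    have had : a ≤ a * d := Nat.le_mul_of_pos_right a hd
    have hbd : b ≤ b * d := Nat.le_mul_of_pos_right b hd
    have hl0 : 0 < l := by
      rcases Nat.eq_zero_or_pos l with h0 | h0
      · rw [h0] at h
        omega
      · exact h0
    have hne : ¬ (k = a ∧ l = b) := by
      rintro ⟨rfl, rfl⟩
      have := mul_comm k l
      omega
    rw [exF]
    simp only [hg, hda, hdb, exPick_eq hb hk hl h]
    rw [if_pos (by omega), dif_pos (by omega), smul_smul, mul_inv_cancel₀ hM, one_smul]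

end EllHall
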