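import Pool.Agent.Lib.MP_630b78_co.EH.Defs

/-!
# The field of rational functions in q, t

`K = FractionRing (MvPolynomial (Fin 2) ℚ)`, `q`, `t` the two variables.  `q^a t^b` are linearly independent over `ℚ`; the inequalities follow by injectivity of
`algebraMap (MvPolynomial (Fin 2) ℚ) K` and comparison of coefficients (or evaluation at rational points).
`nn_antisymm`: if `x` and `-x` are polynomials with natural coefficients then `x = 0`: `P, P' : MvPolynomial (Fin 2) ℕ` with
`algebraMap (map P) = - algebraMap (map P')`, so `map P + map P' = 0`, so all coefficients are `0`.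
(`P.eval₂ (Nat.castRingHom K) ![q, t] = algebraMap _ K (map (Nat.castRingHom ℚ) P)`.)
-/

namespace EllHall

open MvPolynomial

/-- the field `ℚ(q, t)` -/
abbrev QT : Type := FractionRing (MvPolynomial (Fin 2) ℚ)

/-- the variable `q` -/
noncomputable def qq : QT := algebraMap (MvPolynomial (Fin 2) ℚ) QT (X 0)

/-- the variable `t` -/
noncomputable def tt : QT := algebraMap (MvPolynomial (Fin 2) ℚ) QT (X 1)

private theorem alg_ne_zero (P : MvPolynomial (Fin 2) ℚ) (v : Fin 2 → ℚ) (h : eval v P ≠ 0) :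
    algebraMap (MvPolynomial (Fin 2) ℚ) QT P ≠ 0 := by
  intro h0
  rw [← map_zero (algebraMap (MvPolynomial (Fin 2) ℚ) QT)] at h0
  have h1 := IsFractionRing.injective (MvPolynomial (Fin 2) ℚ) QT h0
  rw [h1, map_zero] at h
  exact h rfl

theorem hM_QT : (1 - qq) * (1 - tt) ≠ 0 := by
  have e : (1 - qq) * (1 - tt) = algebraMap (MvPolynomial (Fin 2) ℚ) QT ((1 - X 0) * (1 - X 1)) := by
    rw [map_mul, map_sub, map_sub, map_one]
    rfl
  rw [e]
  exact alg_ne_zero _ (fun _ => 0) (by simp)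

theorem q_ne_zero : qq ≠ 0 := by
  exact alg_ne_zero _ (fun _ => 1) (by simp)

theorem t_ne_zero : tt ≠ 0 := by
  exact alg_ne_zero _ (fun _ => 1) (by simp)

theorem q_ne_t : qq ≠ tt := by
  rw [← sub_ne_zero]
  have e : qq - tt = algebraMap (MvPolynomial (Fin 2) ℚ) QT (X 0 - X 1) := by
    rw [map_sub]
    rfl
  rw [e]
  exact alg_ne_zero _ ![1, 0] (by simp)

theorem q2_ne_t : qq ^ 2 ≠ tt := by
  rw [← sub_ne_zero]
  have e : qq ^ 2 - tt = algebraMap (MvPolynomial (Fin 2) ℚ) QT (X 0 ^ 2 - X 1) := by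
    rw [map_sub, map_pow]
    rfl
  rw [e]
  exact alg_ne_zero _ ![1, 0] (by simp)

theorem q_ne_t2 : qq ≠ tt ^ 2 := by
  rw [← sub_ne_zero]
  have e : qq - tt ^ 2 = algebraMap (MvPolynomial (Fin 2) ℚ) QT (X 0 - X 1 ^ 2) := by
    rw [map_sub, map_pow]
    rfl
  rw [e]
  exact alg_ne_zero _ ![1, 0] (by simp)

theorem nn_eval₂_map (P : MvPolynomial (Fin 2) ℕ) : P.eval₂ (Nat.castRingHom QT) ![qq, tt] =
    algebraMap (MvPolynomial (Fin 2) ℚ) QT (map (Nat.castRingHom ℚ) P) := by
  have h : eval₂Hom (Nat.castRingHom QT) ![qq, tt] =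
      (algebraMap (MvPolynomial (Fin 2) ℚ) QT).comp (map (Nat.castRingHom ℚ)) := by
    apply MvPolynomial.ringHom_ext
    · intro n
      simp
    · intro i
      fin_cases i
      · simp [qq]
      · simp [tt]
  exact congrArg (fun f : MvPolynomial (Fin 2) ℕ →+* QT => f P) h

theorem nn_antisymm {x : QT} (h : IsNN qq tt x) (h' : IsNN qq tt (-x)) : x = 0 := by
  obtain ⟨P, hP⟩ := h
  obtain ⟨P', hP'⟩ := h'
  rw [nn_eval₂_map] at hP hP'
  have h0 : algebraMap (MvPolynomial (Fin 2) ℚ) QT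
      (map (Nat.castRingHom ℚ) P + map (Nat.castRingHom ℚ) P') = 0 := by
    rw [map_add, ← hP, ← hP']
    ring
  rw [← map_zero (algebraMap (MvPolynomial (Fin 2) ℚ) QT)] at h0
  have h1 := IsFractionRing.injective (MvPolynomial (Fin 2) ℚ) QT h0
  have h2 : P = 0 := by
    ext m
    have h3 := congrArg (coeff m) h1
    rw [coeff_add, coeff_map, coeff_map, coeff_zero, eq_natCast, eq_natCast] at h3
    have h4 : coeff m P + coeff m P' = 0 := by exact_mod_cast h3
    rw [coeff_zero]
    omega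
  rw [hP, h2, map_zero, map_zero]

end EllHall
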