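import Pool.Agent.Lib.MP_630b78_co.EH.Newton

/-!
# Degrees

Weights: `p_(k+1)` has weight `k + 1`.  `ee_homog`: induction.  `D0_homog`: say that a polynomial `F` in `w` over the symmetric functions has the property `P n`
if its coefficient of `w^j` is homogeneous of weight `n - j` for `j ≤ n` and zero for `j > n`; `P` is additive, `P n * P m ⊆ P (n+m)`, and
`shift (X k)` has `P (k+1)`; so `shift g` has `P n` for `g` homogeneous of weight `n` (monomials, then sums); multiply by `e_j`.
`split`: Bezout.  `Q_homog`: strong induction on `m + n`; write `(m, n) = (a d, b d)` with `d = gcd m n`; the two points `(k, l)` and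
`(m - k, n - l)` are `(1,0)`, `(0,1)` or have both coordinates `≥ 1` (use `a l = b k + 1`); divide by `M ≠ 0`.
-/

namespace EllHall

open MvPolynomial

variable {K : Type} [Field K] [CharZero K]

omit [CharZero K] in
theorem homog_smul {n : ℕ} {g : MvPolynomial ℕ K} (hg : IsWeightedHomogeneous (fun k : ℕ => k + 1) g n) (a : K) :
    IsWeightedHomogeneous (fun k : ℕ => k + 1) (a • g) n :=
  (weightedHomogeneousSubmodule K (fun k : ℕ => k + 1) n).smul_mem a hg

omit [CharZero K] in
theorem homog_neg_one_pow (i : ℕ) : IsWeightedHomogeneous (fun k : ℕ => k + 1) ((-1) ^ i : MvPolynomial ℕ K) 0 := by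
  have h1 : ((-1) ^ i : MvPolynomial ℕ K) = C ((-1) ^ i) := by simp
  rw [h1]
  exact isWeightedHomogeneous_C _ _

theorem ee_homog (n : ℕ) : IsWeightedHomogeneous (fun k : ℕ => k + 1) (ee K n) n := by
  induction n using Nat.strong_induction_on with
  | _ n ih =>
    rcases n with _ | n
    · rw [ee]
      exact isWeightedHomogeneous_one K _
    · rw [ee]
      refine IsWeightedHomogeneous.C_mul (IsWeightedHomogeneous.sum _ _ _ fun i _ => ?_) _
      have h1 : IsWeightedHomogeneous (fun k : ℕ => k + 1) (X (i : ℕ) : MvPolynomial ℕ K) ((i : ℕ) + 1) :=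
        isWeightedHomogeneous_X K (fun k : ℕ => k + 1) (i : ℕ)
      have h2 := ((homog_neg_one_pow (K := K) (i : ℕ)).mul h1).mul (ih (n - i) (by omega))
      have h3 : 0 + ((i : ℕ) + 1) + (n - i) = n + 1 := by
        have := i.2
        omega
      rwa [h3] at h2

/-- the coefficient of `w^j` is homogeneous of weight `n - j` -/
def PH (n : ℕ) (F : Polynomial (MvPolynomial ℕ K)) : Prop :=
  ∀ (j : ℕ) (d : ℕ →₀ ℕ), coeff d (F.coeff j) ≠ 0 → Finsupp.weight (fun k : ℕ => k + 1) d + j = n

omit [CharZero K] in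
theorem PH.add {n : ℕ} {F G : Polynomial (MvPolynomial ℕ K)} (hF : PH n F) (hG : PH n G) : PH n (F + G) := by
  intro j d h
  rw [Polynomial.coeff_add, coeff_add] at h
  by_cases h1 : coeff d (F.coeff j) = 0
  · rw [h1, zero_add] at h
    exact hG j d h
  · exact hF j d h1

omit [CharZero K] in
theorem PH.mul {n m : ℕ} {F G : Polynomial (MvPolynomial ℕ K)} (hF : PH n F) (hG : PH m G) : PH (n + m) (F * G) := by
  classical
  intro j d h
  rw [Polynomial.coeff_mul, coeff_sum] at h
  obtain ⟨x, hx, h1⟩ := Finset.exists_ne_zero_of_sum_ne_zero h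
  rw [coeff_mul] at h1
  obtain ⟨y, hy, h2⟩ := Finset.exists_ne_zero_of_sum_ne_zero h1
  have h3 := hF x.1 y.1 (left_ne_zero_of_mul h2)
  have h4 := hG x.2 y.2 (right_ne_zero_of_mul h2)
  rw [Finset.HasAntidiagonal.mem_antidiagonal] at hx hy
  rw [← hx, ← hy, map_add, ← h3, ← h4]
  ring

omit [CharZero K] in
theorem PH.C_hom {n : ℕ} {g : MvPolynomial ℕ K} (hg : IsWeightedHomogeneous (fun k : ℕ => k + 1) g n) :
    PH n (Polynomial.C g) := by
  intro j d h
  rw [Polynomial.coeff_C] at h
  split_ifs at h with h1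
  · rw [h1, add_zero]
    exact hg h
  · simp at h

omit [CharZero K] in
theorem PH.X_pow (m : ℕ) : PH m (Polynomial.X ^ m : Polynomial (MvPolynomial ℕ K)) := by
  classical
  intro j d h
  rw [Polynomial.coeff_X_pow] at h
  split_ifs at h with h1
  · rw [← h1]
    have h2 : d = 0 := by
      by_contra h3
      rw [coeff_one, if_neg (fun h4 => h3 h4.symm)] at h
      exact h rfl
    rw [h2, map_zero, zero_add]
  · simp at h

omit [CharZero K] in
theorem PH.shift_X (q t : K) (k : ℕ) : PH (k + 1) (shift q t (X k)) := by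
  unfold shift
  rw [aeval_X]
  refine PH.add (PH.C_hom (isWeightedHomogeneous_X K (fun k : ℕ => k + 1) k)) ?_
  have h := PH.mul (PH.C_hom (isWeightedHomogeneous_C (fun k : ℕ => k + 1) ((1 - q ^ (k + 1)) * (1 - t ^ (k + 1)))))
    (PH.X_pow (K := K) (k + 1))
  rwa [zero_add] at h

omit [CharZero K] in
theorem PH.pow {n : ℕ} {F : Polynomial (MvPolynomial ℕ K)} (hF : PH n F) (e : ℕ) : PH (e * n) (F ^ e) := by
  induction e with
  | zero =>
    rw [pow_zero, zero_mul]
    have h := PH.C_hom (isWeightedHomogeneous_one K (fun k : ℕ => k + 1))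
    rwa [map_one] at h
  | succ e ih =>
    rw [pow_succ, add_mul, one_mul]
    exact ih.mul hF

omit [CharZero K] in
theorem PH.prod (s : Finset ℕ) (f : ℕ → Polynomial (MvPolynomial ℕ K)) (n : ℕ → ℕ) (h : ∀ i ∈ s, PH (n i) (f i)) :
    PH (∑ i ∈ s, n i) (∏ i ∈ s, f i) := by
  classical
  induction s using Finset.induction_on with
  | empty =>
    rw [Finset.sum_empty, Finset.prod_empty]
    have h := PH.C_hom (isWeightedHomogeneous_one K (fun k : ℕ => k + 1))
    rwa [map_one] at h
  | insert i s hi ih =>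
    rw [Finset.sum_insert hi, Finset.prod_insert hi]
    exact (h i (Finset.mem_insert_self _ _)).mul (ih fun j hj => h j (Finset.mem_insert_of_mem hj))

omit [CharZero K] in
theorem PH.shift (q t : K) {n : ℕ} {g : MvPolynomial ℕ K} (hg : IsWeightedHomogeneous (fun k : ℕ => k + 1) g n) :
    PH n (shift q t g) := by
  induction hg using IsWeightedHomogeneous.induction_on with
  | zero =>
    rw [map_zero]
    intro j d h
    simp at h
  | add f g _ _ hf hg =>
    rw [map_add]
    exact hf.add hg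
  | monomial s r hr =>
    have h1 : EllHall.shift q t (monomial s r) = Polynomial.C (C r) * ∏ i ∈ s.support, (EllHall.shift q t (X i)) ^ (s i) := by
      rw [monomial_eq, map_mul, Finsupp.prod, map_prod]
      congr 1
      · unfold EllHall.shift
        rw [algHom_C]
        rfl
      · exact Finset.prod_congr rfl fun i _ => by rw [map_pow]
    rw [h1]
    have h2 := (PH.C_hom (isWeightedHomogeneous_C (fun k : ℕ => k + 1) r)).mul
      (PH.prod s.support (fun i => (EllHall.shift q t (X i)) ^ (s i)) (fun i => s i * (i + 1))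
        fun i _ => (PH.shift_X q t i).pow (s i))
    rw [zero_add] at h2
    have h3 : ∑ i ∈ s.support, s i * (i + 1) = n := by
      rw [← hr, Finsupp.weight_apply, Finsupp.sum]
      rfl
    rwa [h3] at h2

theorem D0_homog (q t : K) (n : ℕ) (g : MvPolynomial ℕ K) (hg : IsWeightedHomogeneous (fun k : ℕ => k + 1) g n) :
    IsWeightedHomogeneous (fun k : ℕ => k + 1) (D0 q t g) n := by
  have h1 : D0 q t g = (shift q t g).sum fun n c => c * ((-1) ^ n * ee K n) := rfl
  rw [h1, Polynomial.sum]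
  refine IsWeightedHomogeneous.sum _ _ _ fun j hj => ?_
  have h2 : IsWeightedHomogeneous (fun k : ℕ => k + 1) ((-1) ^ j * ee K j) j := by
    have h := (homog_neg_one_pow (K := K) j).mul (ee_homog (K := K) j)
    rwa [zero_add] at h
  have h3 := PH.shift q t hg
  intro d hd
  classical
  rw [coeff_mul] at hd
  obtain ⟨y, hy, h4⟩ := Finset.exists_ne_zero_of_sum_ne_zero hd
  have h5 := h3 j y.1 (left_ne_zero_of_mul h4)
  have h6 := h2 (right_ne_zero_of_mul h4)
  rw [Finset.HasAntidiagonal.mem_antidiagonal] at hy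
  rw [← hy, map_add, h6, h5]

theorem split (a b : ℕ) (ha : 1 ≤ a) (hb : 1 ≤ b) (h : Nat.Coprime a b) :
    ∃ k l : ℕ, k < a ∧ 1 ≤ l ∧ l ≤ b ∧ a * l = b * k + 1 := by
  rcases Nat.lt_or_ge 1 b with hb1 | hb1
  · have hlt := Nat.chineseRemainder_lt_mul h 0 1 (by omega) (by omega)
    have hp := (Nat.chineseRemainder h 0 1).2
    generalize ((Nat.chineseRemainder h 0 1 : {k // k ≡ 0 [MOD a] ∧ k ≡ 1 [MOD b]}) : ℕ) = x at hlt hp
    obtain ⟨hx1, hx2⟩ := hp
    have h1 : a ∣ x := (Nat.modEq_zero_iff_dvd).1 hx1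
    obtain ⟨l, hl⟩ := h1
    have h2 : x % b = 1 := by
      have h3 : x % b = 1 % b := hx2
      rw [h3, Nat.mod_eq_of_lt hb1]
    have h4 : b * (x / b) + 1 = x := by
      have h5 := Nat.div_add_mod x b
      rw [h2] at h5
      exact h5
    refine ⟨x / b, l, ?_, ?_, ?_, ?_⟩
    · rw [Nat.div_lt_iff_lt_mul (by omega)]
      exact hlt
    · rcases Nat.eq_zero_or_pos l with h6 | h6
      · rw [h6, mul_zero] at hl
        omega
      · exact h6
    · have h7 : a * l < a * b := by rw [← hl]; exact hlt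
      exact (Nat.lt_of_mul_lt_mul_left h7).le
    · rw [← hl, h4]
  · have hb2 : b = 1 := le_antisymm hb1 hb
    subst hb2
    exact ⟨a - 1, 1, by omega, le_rfl, le_rfl, by omega⟩

/-- the operator raises the degree by `n` -/
def HomBy (n : ℕ) (T : Module.End K (MvPolynomial ℕ K)) : Prop :=
  ∀ (r : ℕ) (g : MvPolynomial ℕ K), IsWeightedHomogeneous (fun k : ℕ => k + 1) g r →
    IsWeightedHomogeneous (fun k : ℕ => k + 1) (T g) (r + n)

omit [CharZero K] in
theorem HomBy.mul {n m : ℕ} {S T : Module.End K (MvPolynomial ℕ K)} (hS : HomBy n S) (hT : HomBy m T) :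
    HomBy (n + m) (S * T) := by
  intro r g hg
  have h := hS _ _ (hT r g hg)
  rw [Module.End.mul_apply]
  have h1 : r + m + n = r + (n + m) := by ring
  rwa [h1] at h

omit [CharZero K] in
theorem HomBy.smul {n : ℕ} {S : Module.End K (MvPolynomial ℕ K)} (hS : HomBy n S) (a : K) : HomBy n (a • S) := by
  intro r g hg
  rw [LinearMap.smul_apply]
  exact homog_smul (hS r g hg) a

omit [CharZero K] in
theorem HomBy.sub {n : ℕ} {S T : Module.End K (MvPolynomial ℕ K)} (hS : HomBy n S) (hT : HomBy n T) :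
    HomBy n (S - T) := by
  intro r g hg
  rw [LinearMap.sub_apply]
  exact (hS r g hg).sub (hT r g hg)

omit [CharZero K] in
theorem HomBy.one : HomBy 0 (1 : Module.End K (MvPolynomial ℕ K)) := by
  intro r g hg
  rw [Module.End.one_apply, add_zero]
  exact hg

theorem HomBy.q10 {q t : K} {Q : ℕ → ℕ → Module.End K (MvPolynomial ℕ K)} (hQ : IsHall q t Q) : HomBy 0 (Q 1 0) := by
  intro r g hg
  rw [hQ.q10, LinearMap.neg_apply, add_zero]
  exact (D0_homog q t r g hg).neg

omit [CharZero K] in
theorem HomBy.q01 {q t : K} {Q : ℕ → ℕ → Module.End K (MvPolynomial ℕ K)} (hQ : IsHall q t Q) : HomBy 1 (Q 0 1) := by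
  intro r g hg
  rw [hQ.q01, LinearMap.mulLeft_apply, add_comm]
  exact (isWeightedHomogeneous_X K (fun k : ℕ => k + 1) 0).mul hg

theorem HomBy.Q {q t : K} (hM : (1 - q) * (1 - t) ≠ 0) {Q : ℕ → ℕ → Module.End K (MvPolynomial ℕ K)} (hQ : IsHall q t Q)
    (s : ℕ) : ∀ m n : ℕ, m + n = s → 1 ≤ m → 1 ≤ n → HomBy n (Q m n) := by
  induction s using Nat.strong_induction_on with
  | _ s ih =>
    intro m n hs hm hn
    obtain ⟨d, hd⟩ : ∃ d, d = Nat.gcd m n := ⟨_, rfl⟩
    have hd1 : 1 ≤ d := by
      rw [hd]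
      exact Nat.gcd_pos_of_pos_left _ hm
    obtain ⟨a, ha⟩ : ∃ a, m = a * d := by
      obtain ⟨a, ha⟩ := Nat.gcd_dvd_left m n
      rw [← hd] at ha
      exact ⟨a, by rw [ha, mul_comm]⟩
    obtain ⟨b, hb⟩ : ∃ b, n = b * d := by
      obtain ⟨b, hb⟩ := Nat.gcd_dvd_right m n
      rw [← hd] at hb
      exact ⟨b, by rw [hb, mul_comm]⟩
    have hab : Nat.Coprime a b := by
      have h1 : d = Nat.gcd a b * d := by
        rw [← Nat.gcd_mul_right, ← ha, ← hb, ← hd]
      have h2 : 1 * d = Nat.gcd a b * d := by rw [one_mul]; exact h1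
      exact (Nat.eq_of_mul_eq_mul_right hd1 h2).symm
    have ha1 : 1 ≤ a := by
      rcases Nat.eq_zero_or_pos a with h | h
      · rw [h, zero_mul] at ha
        omega
      · exact h
    have hb1 : 1 ≤ b := by
      rcases Nat.eq_zero_or_pos b with h | h
      · rw [h, zero_mul] at hb
        omega
      · exact h
    obtain ⟨k, l, hk, hl1, hl2, hkl⟩ := split a b ha1 hb1 hab
    have hstep := hQ.step a b k l d ha1 hb1 hd1 hk.le hl2 hkl
    have had : a ≤ a * d := Nat.le_mul_of_pos_right a hd1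
    have hbd : b ≤ b * d := Nat.le_mul_of_pos_right b hd1
    have h1 : HomBy l (Q k l) := by
      rcases Nat.eq_zero_or_pos k with h | h
      · subst h
        have h2 : l = 1 := by
          rw [mul_zero, zero_add] at hkl
          exact Nat.eq_one_of_mul_eq_one_left hkl
        rw [h2]
        exact HomBy.q01 hQ
      · exact ih (k + l) (by omega) k l rfl h hl1
    have h2 : HomBy (b * d - l) (Q (a * d - k) (b * d - l)) := by
      rcases Nat.eq_zero_or_pos (b * d - l) with h | h
      · have h3 : b * d = b := by omega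
        have h4 : l = b := by omega
        have h5 : d = 1 := by
          have h6 : b * d = b * 1 := by rw [mul_one]; exact h3
          exact Nat.eq_of_mul_eq_mul_left hb1 h6
        rw [h5, mul_one, mul_one, h4, Nat.sub_self]
        have h7 : b * (a - k) = 1 := by
          rw [Nat.mul_sub, ← h4]
          rw [← h4] at hkl
          rw [mul_comm l a]
          omega
        have h8 : a - k = 1 := Nat.eq_one_of_mul_eq_one_left h7
        rw [h8]
        exact HomBy.q10 hQ
      · exact ih (a * d - k + (b * d - l)) (by omega) (a * d - k) (b * d - l) rfl (by omega) h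
    have h3 : HomBy (b * d) (Q (a * d - k) (b * d - l) * Q k l - Q k l * Q (a * d - k) (b * d - l)) := by
      have h4 := h2.mul h1
      have h5 := h1.mul h2
      have h6 : b * d - l + l = b * d := by omega
      have h7 : l + (b * d - l) = b * d := by omega
      rw [h6] at h4
      rw [h7] at h5
      exact h4.sub h5
    rw [← hstep] at h3
    have h4 := h3.smul ((1 - q) * (1 - t))⁻¹
    rw [inv_smul_smul₀ hM] at h4
    rw [ha, hb]
    exact h4

theorem Q_homog {q t : K} (hM : (1 - q) * (1 - t) ≠ 0) {Q : ℕ → ℕ → Module.End K (MvPolynomial ℕ K)} (hQ : IsHall q t Q)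
    (m n : ℕ) (hm : 1 ≤ m) (hn : 1 ≤ n) (r : ℕ) (g : MvPolynomial ℕ K)
    (hg : IsWeightedHomogeneous (fun k : ℕ => k + 1) g r) :
    IsWeightedHomogeneous (fun k : ℕ => k + 1) (Q m n g) (r + n) :=
  HomBy.Q hM hQ (m + n) m n rfl hm hn r g hg

theorem HomBy.list {q t : K} (hM : (1 - q) * (1 - t) ≠ 0) {Q : ℕ → ℕ → Module.End K (MvPolynomial ℕ K)} (hQ : IsHall q t Q)
    (σ : ℕ → K) (a b : ℕ) (ha : 1 ≤ a) (hb : 1 ≤ b) (L : List ℕ) (hL : ∀ m ∈ L, 1 ≤ m) :
    HomBy (b * L.sum) ((L.map fun m => σ (b * m) • Q (a * m) (b * m)).prod) := by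
  induction L with
  | nil =>
    rw [List.map_nil, List.prod_nil, List.sum_nil, mul_zero]
    exact HomBy.one
  | cons m L ih =>
    rw [List.map_cons, List.prod_cons, List.sum_cons, mul_add]
    have hm : 1 ≤ m := hL m (List.mem_cons_self ..)
    refine HomBy.mul (HomBy.smul ?_ _) (ih fun m hm => hL m (List.mem_cons_of_mem _ hm))
    exact HomBy.Q hM hQ (a * m + b * m) (a * m) (b * m) rfl (Nat.mul_pos ha hm) (Nat.mul_pos hb hm)

theorem ff_homog {q t : K} (hM : (1 - q) * (1 - t) ≠ 0) {Q : ℕ → ℕ → Module.End K (MvPolynomial ℕ K)} (hQ : IsHall q t Q)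
    (σ : ℕ → K) {d : ℕ} (c : Nat.Partition d → K) (a b : ℕ) (ha : 1 ≤ a) (hb : 1 ≤ b) :
    IsWeightedHomogeneous (fun k : ℕ => k + 1) (ff Q σ c a b) (b * d) := by
  unfold ff
  refine IsWeightedHomogeneous.sum _ _ _ fun μ _ => homog_smul ?_ _
  have h1 := HomBy.list hM hQ σ a b ha hb (μ.parts.sort (· ≥ ·)) (fun m hm => μ.parts_pos ((Multiset.mem_sort _).1 hm))
  have h2 : (μ.parts.sort (· ≥ ·)).sum = d := by
    rw [← Multiset.sum_coe, Multiset.sort_eq, μ.parts_sum]
  rw [h2] at h1
  have h3 := h1 0 1 (isWeightedHomogeneous_one K _)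
  rw [zero_add] at h3
  exact h3

end EllHall
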