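import Pool.Agent.Lib.MP_630b78_co.EH.Defs

/-!
# The Hall scalar product

Bilinearity; `hall_X_mul`: multiplication by `p_(k+1)` is adjoint to `(k+1) ∂_k`.  By linearity in `g` (`MvPolynomial.induction_on'` or
`hall_add_left`) take `g = monomial m a`: `X k * g = monomial (m + single k 1) a`; `zz (m + single k 1) = zz m * (k+1) * (m k + 1)` and
`coeff m (pderiv k f) = (m k + 1) * coeff (m + single k 1) f`.
-/

namespace EllHall

open MvPolynomial

variable {K : Type} [Field K] [CharZero K]

private theorem Pair_subset (g f : MvPolynomial ℕ K) (s : Finset (ℕ →₀ ℕ)) (hs : g.support ⊆ s) :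
    hall g f = ∑ m ∈ s, g.coeff m * f.coeff m * (zz m : K) := by
  unfold hall
  refine Finset.sum_subset hs fun m _ hm => ?_
  rw [notMem_support_iff.1 hm, zero_mul, zero_mul]

theorem hall_add_left (g g' f : MvPolynomial ℕ K) : hall (g + g') f = hall g f + hall g' f := by
  classical
  rw [Pair_subset (g + g') f (g.support ∪ g'.support) support_add,
    Pair_subset g f (g.support ∪ g'.support) Finset.subset_union_left,
    Pair_subset g' f (g.support ∪ g'.support) Finset.subset_union_right, ← Finset.sum_add_distrib]
  refine Finset.sum_congr rfl fun m _ => ?_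
  rw [coeff_add]
  ring

theorem hall_smul_left (a : K) (g f : MvPolynomial ℕ K) : hall (a • g) f = a * hall g f := by
  rw [Pair_subset (a • g) f g.support support_smul, Pair_subset g f g.support (subset_refl _),
    Finset.mul_sum]
  refine Finset.sum_congr rfl fun m _ => ?_
  rw [coeff_smul, smul_eq_mul]
  ring

theorem hall_add_right (g f f' : MvPolynomial ℕ K) : hall g (f + f') = hall g f + hall g f' := by
  unfold hall
  rw [← Finset.sum_add_distrib]
  refine Finset.sum_congr rfl fun m _ => ?_
  rw [coeff_add]
  ring

theorem hall_smul_right (a : K) (g f : MvPolynomial ℕ K) : hall g (a • f) = a * hall g f := by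
  unfold hall
  rw [Finset.mul_sum]
  refine Finset.sum_congr rfl fun m _ => ?_
  rw [coeff_smul, smul_eq_mul]
  ring

private theorem Pair_zero_left (f : MvPolynomial ℕ K) : hall 0 f = 0 := by
  rw [Pair_subset 0 f ∅ (by simp), Finset.sum_empty]

private theorem Pair_zero_right (g : MvPolynomial ℕ K) : hall g 0 = 0 := by
  unfold hall
  exact Finset.sum_eq_zero fun m _ => by rw [coeff_zero, mul_zero, zero_mul]

theorem hall_sum_left {ι : Type} (s : Finset ι) (G : ι → MvPolynomial ℕ K) (f : MvPolynomial ℕ K) :
    hall (∑ i ∈ s, G i) f = ∑ i ∈ s, hall (G i) f := by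
  classical
  induction s using Finset.induction_on with
  | empty => rw [Finset.sum_empty, Finset.sum_empty, Pair_zero_left]
  | insert a s ha ih => rw [Finset.sum_insert ha, Finset.sum_insert ha, hall_add_left, ih]

theorem hall_sum_right {ι : Type} (s : Finset ι) (g : MvPolynomial ℕ K) (F : ι → MvPolynomial ℕ K) :
    hall g (∑ i ∈ s, F i) = ∑ i ∈ s, hall g (F i) := by
  classical
  induction s using Finset.induction_on with
  | empty => rw [Finset.sum_empty, Finset.sum_empty, Pair_zero_right]
  | insert a s ha ih => rw [Finset.sum_insert ha, Finset.sum_insert ha, hall_add_right, ih]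

private theorem Pair_monomial (m : ℕ →₀ ℕ) (a : K) (f : MvPolynomial ℕ K) :
    hall (monomial m a) f = a * f.coeff m * (zz m : K) := by
  rw [Pair_subset (monomial m a) f {m} support_monomial_subset, Finset.sum_singleton,
    coeff_monomial, if_pos rfl]

theorem hall_one (f : MvPolynomial ℕ K) : hall 1 f = constantCoeff f := by
  have h1 : (1 : MvPolynomial ℕ K) = monomial 0 1 := rfl
  rw [h1, Pair_monomial, one_mul]
  have h2 : zz 0 = 1 := by
    unfold zz
    exact Finsupp.prod_zero_index
  rw [h2, Nat.cast_one, mul_one]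
  rfl

private theorem Pair_zz (m : ℕ →₀ ℕ) (k : ℕ) :
    zz (Finsupp.single k 1 + m) = zz m * ((k + 1) * (m k + 1)) := by
  classical
  unfold zz
  set φ : ℕ → ℕ → ℕ := fun k a => (k + 1) ^ a * a.factorial with hφ
  have hφ0 : ∀ i, φ i 0 = 1 := fun i => by simp [hφ]
  have e1 : (Finsupp.single k 1 + m).prod φ =
      ∏ i ∈ insert k m.support, φ i ((Finsupp.single k 1 + m : ℕ →₀ ℕ) i) := by
    refine Finsupp.prod_of_support_subset _ ?_ _ fun i _ => hφ0 i
    intro i hi
    rw [Finset.mem_insert]
    by_cases hik : i = k
    · exact Or.inl hik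
    · right
      rw [Finsupp.mem_support_iff] at hi ⊢
      rwa [Finsupp.add_apply, Finsupp.single_eq_of_ne hik, zero_add] at hi
  have e2 : m.prod φ = ∏ i ∈ insert k m.support, φ i (m i) :=
    Finsupp.prod_of_support_subset _ (Finset.subset_insert _ _) _ fun i _ => hφ0 i
  rw [e1, e2, ← Finset.mul_prod_erase _ _ (Finset.mem_insert_self k m.support),
    ← Finset.mul_prod_erase _ (fun i => φ i (m i)) (Finset.mem_insert_self k m.support)]
  have e3 : ∏ i ∈ (insert k m.support).erase k, φ i ((Finsupp.single k 1 + m : ℕ →₀ ℕ) i) =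
      ∏ i ∈ (insert k m.support).erase k, φ i (m i) := by
    refine Finset.prod_congr rfl fun i hi => ?_
    have hik : i ≠ k := (Finset.mem_erase.1 hi).1
    rw [Finsupp.add_apply, Finsupp.single_eq_of_ne hik, zero_add]
  rw [e3, Finsupp.add_apply, Finsupp.single_eq_same, add_comm 1 (m k)]
  simp only [hφ, pow_succ, Nat.factorial_succ]
  ring

theorem hall_X_mul (k : ℕ) (g f : MvPolynomial ℕ K) :
    hall (X k * g) f = hall g (((k + 1 : ℕ) : K) • pderiv k f) := by
  induction g using MvPolynomial.induction_on' with
  | monomial m a =>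
    have h1 : (X k * monomial m a : MvPolynomial ℕ K) = monomial (Finsupp.single k 1 + m) a := by
      rw [X, monomial_mul, one_mul]
    rw [h1, Pair_monomial, hall_smul_right, Pair_monomial, coeff_pderiv, Pair_zz,
      add_comm (Finsupp.single k 1) m]
    push_cast
    ring
  | add p q hp hq => rw [mul_add, hall_add_left, hall_add_left, hp, hq]

end EllHall
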