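import Pool.Agent.Lib.MP_630b78_co.EH.Newton
import Pool.Agent.Lib.MP_630b78_co.EH.Pair

/-!
# The evaluation g[1 - u] gives the hook coefficients

Let `Hn u n = ∑_(i ≤ n) (-u)^i e_i h_(n-i)`.
(1) `(k+1) ∂_k (Hn u n) = (1 - u^(k+1)) Hn u (n-k-1)` if `k+1 ≤ n`, else `0` (from `pderiv_ee`, `pderiv_hh`), `constantCoeff (Hn u n) = [n = 0]`.
(2) hence `hall g (Hn u n) = eps u g` for `g` homogeneous of weight `n`: for a monomial `g` by induction on the number of factors
(`hall_X_mul`, `hall_one`), a monomial of weight `≠ n` gives `0`; in general by `hall_sum_left` (`g = ∑ monomials`).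
(3) for `n ≥ 1`: `Hn u n = (1 - u) ∑_(k < n) (-u)^k hook (n-1-k) k`: collect the coefficient of `e_m h_(n-m)`:
`(-1)^m (1-u) ∑_(k=m..n-1) u^k = (-1)^m (u^m - u^n)`, and `alt_sum`.
-/

namespace EllHall

open MvPolynomial

variable {K : Type} [Field K] [CharZero K]

/-- `∑_(i ≤ n) (-u)^i e_i h_(n-i)` -/
private noncomputable def Hn (u : K) (n : ℕ) : MvPolynomial ℕ K :=
  ∑ i ∈ Finset.range (n + 1), (-u) ^ i • (ee K i * hh K (n - i))

private theorem Hn_zero (u : K) : Hn u 0 = 1 := by
  simp [Hn, ee, hh]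

private theorem Hn_deriv (u : K) (k m : ℕ) :
    ((k + 1 : ℕ) : K) • pderiv k (Hn u (k + 1 + m)) = (1 - u ^ (k + 1)) • Hn u m := by
  have hterm : ∀ i ∈ Finset.range (k + 1 + m + 1),
      ((k + 1 : ℕ) : K) • pderiv k ((-u) ^ i • (ee K i * hh K (k + 1 + m - i))) =
        (if k + 1 ≤ i then (-u) ^ i • ((-1) ^ k * ee K (i - (k + 1)) * hh K (k + 1 + m - i)) else 0) +
        (if i ≤ m then (-u) ^ i • (ee K i * hh K (m - i)) else 0) := by
    intro i hi
    have hi' : i ≤ k + 1 + m := by
      have := Finset.mem_range.mp hi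
      omega
    rw [Derivation.map_smul, smul_comm, Derivation.leibniz, smul_add, smul_add]
    have h1 : ((k + 1 : ℕ) : K) • (ee K i • pderiv k (hh K (k + 1 + m - i))) =
        ee K i * (((k + 1 : ℕ) : K) • pderiv k (hh K (k + 1 + m - i))) := by
      rw [smul_eq_mul, mul_smul_comm]
    have h2 : ((k + 1 : ℕ) : K) • (hh K (k + 1 + m - i) • pderiv k (ee K i)) =
        hh K (k + 1 + m - i) * (((k + 1 : ℕ) : K) • pderiv k (ee K i)) := by
      rw [smul_eq_mul, mul_smul_comm]
    rw [h1, h2, pderiv_hh, pderiv_ee, add_comm]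
    congr 1
    · split_ifs
      · congr 1
        ring
      · rw [mul_zero, smul_zero]
    · by_cases him : i ≤ m
      · rw [if_pos (by omega), if_pos him]
        have e1 : k + 1 + m - i - (k + 1) = m - i := by omega
        rw [e1]
      · rw [if_neg (by omega), if_neg him, mul_zero, smul_zero]
  rw [Hn, map_sum, Finset.smul_sum, Finset.sum_congr rfl hterm, Finset.sum_add_distrib]
  have s1 : ∑ i ∈ Finset.range (k + 1 + m + 1),
      (if k + 1 ≤ i then (-u) ^ i • ((-1) ^ k * ee K (i - (k + 1)) * hh K (k + 1 + m - i)) else 0) =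
        -(u ^ (k + 1) • Hn u m) := by
    rw [show k + 1 + m + 1 = (k + 1) + (m + 1) by ring, Finset.sum_range_add]
    rw [Finset.sum_eq_zero (fun i hi => by
      have := Finset.mem_range.mp hi
      rw [if_neg (by omega)]), zero_add, Hn, Finset.smul_sum, ← Finset.sum_neg_distrib]
    refine Finset.sum_congr rfl fun i _ => ?_
    rw [if_pos (by omega)]
    have e1 : k + 1 + i - (k + 1) = i := by omega
    have e2 : k + 1 + m - (k + 1 + i) = m - i := by omega
    rw [e1, e2]
    have e3 : ((-1 : MvPolynomial ℕ K) ^ k) = C ((-1 : K) ^ k) := by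
      rw [map_pow, map_neg, map_one]
    rw [e3, mul_assoc, ← smul_eq_C_mul, smul_smul, smul_smul, ← neg_smul]
    congr 1
    have e4 : ((-1 : K) ^ k) * (-1) ^ k = 1 := by
      rw [← mul_pow]
      norm_num
    have e5 : (-u) ^ (k + 1 + i) = -((-1) ^ k * (u ^ (k + 1) * (-u) ^ i)) := by
      rw [pow_add, neg_pow u (k + 1), pow_succ (-1 : K) k]
      ring
    rw [e5]
    linear_combination (-(u ^ (k + 1) * (-u) ^ i)) * e4
  have s2 : ∑ i ∈ Finset.range (k + 1 + m + 1),
      (if i ≤ m then (-u) ^ i • (ee K i * hh K (m - i)) else 0) = Hn u m := by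
    rw [Hn, ← Finset.sum_subset (Finset.range_subset_range.mpr (show m + 1 ≤ k + 1 + m + 1 by omega))]
    · refine Finset.sum_congr rfl fun i hi => ?_
      have := Finset.mem_range.mp hi
      rw [if_pos (by omega)]
    · intro i _ hi2
      have h2 : ¬ i < m + 1 := fun h => hi2 (Finset.mem_range.mpr h)
      rw [if_neg (by omega)]
  rw [s1, s2, sub_smul, one_smul]
  abel

private theorem hall_mono (u : K) : ∀ (n : ℕ) (m : ℕ →₀ ℕ) (a : K),
    Finsupp.weight (fun k : ℕ => k + 1) m = n →
      hall (monomial m a) (Hn u n) = eps u (monomial m a) := by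
  intro n
  induction n using Nat.strong_induction_on with
  | _ n ih =>
    intro m a hm
    by_cases h0 : m = 0
    · subst h0
      rw [map_zero] at hm
      subst hm
      have e1 : (monomial (0 : ℕ →₀ ℕ) a : MvPolynomial ℕ K) = a • 1 := by
        rw [smul_eq_C_mul, mul_one]
        rfl
      rw [e1, hall_smul_left, hall_one, Hn_zero, map_one, map_smul, map_one, smul_eq_mul]
    · obtain ⟨k, hk⟩ : ∃ k, m k ≠ 0 := by
        by_contra hcon
        push Not at hcon
        exact h0 (Finsupp.ext hcon)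
      have hs : m - Finsupp.single k 1 + Finsupp.single k 1 = m := Finsupp.sub_add_single_one_cancel hk
      set m' := m - Finsupp.single k 1 with hm'
      have hw : Finsupp.weight (fun k : ℕ => k + 1) m' + (k + 1) = n := by
        rw [← hm, ← hs, map_add]
        congr 1
        rw [Finsupp.weight_apply, Finsupp.sum_single_index (by simp)]
        simp
      have e1 : (monomial m a : MvPolynomial ℕ K) = X k * monomial m' a := by
        rw [← hs, add_comm, X, monomial_mul, one_mul]
      obtain ⟨j, rfl⟩ : ∃ j, n = k + 1 + j :=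
        ⟨Finsupp.weight (fun k : ℕ => k + 1) m', by rw [← hw]; ring⟩
      have hw' : Finsupp.weight (fun k : ℕ => k + 1) m' = j := by omega
      rw [e1, hall_X_mul, Hn_deriv, hall_smul_right, ih j (by omega) m' a hw', map_mul]
      congr 1
      rw [eps, aeval_X]

private theorem hall_Hn (u : K) (n : ℕ) (g : MvPolynomial ℕ K)
    (hg : IsWeightedHomogeneous (fun k : ℕ => k + 1) g n) : hall g (Hn u n) = eps u g := by
  rw [g.as_sum, hall_sum_left, map_sum]
  refine Finset.sum_congr rfl fun m hm => ?_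
  exact hall_mono u n m _ (hg (mem_support_iff.mp hm))

private theorem abel_aux (x : MvPolynomial ℕ K) (a : ℕ → MvPolynomial ℕ K) (N : ℕ) :
    (1 - x) * ∑ k ∈ Finset.range N, x ^ k * ∑ m ∈ Finset.range (k + 1), a m =
      ∑ k ∈ Finset.range N, x ^ k * a k - x ^ N * ∑ k ∈ Finset.range N, a k := by
  induction N with
  | zero => simp
  | succ N ih =>
    rw [Finset.sum_range_succ, mul_add, ih, Finset.sum_range_succ (fun k => x ^ k * a k),
      Finset.sum_range_succ a]
    ring

private theorem hook_eq (n k : ℕ) (hk : k < n) : hook K (n - 1 - k) k =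
    (-1) ^ k * ∑ m ∈ Finset.range (k + 1), (-1) ^ m * (ee K m * hh K (n - m)) := by
  rw [hook, ← Finset.sum_range_reflect, Finset.mul_sum]
  refine Finset.sum_congr rfl fun m hm => ?_
  have hm' : m ≤ k := by
    have := Finset.mem_range.mp hm
    omega
  obtain ⟨j, rfl⟩ := Nat.exists_eq_add_of_le hm'
  have e1 : m + j + 1 - 1 - m = j := by omega
  have e2 : n - 1 - (m + j) + 1 + j = n - m := by omega
  have e3 : m + j - j = m := by omega
  have e4 : ((-1 : MvPolynomial ℕ K) ^ m) * (-1) ^ m = 1 := by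
    rw [← mul_pow]
    norm_num
  rw [e1, e2, e3, pow_add]
  linear_combination (-((-1) ^ j * hh K (n - m) * ee K m)) * e4

private theorem Hn_hook (u : K) (n : ℕ) (hn : 1 ≤ n) :
    Hn u n = (1 - u) • ∑ k ∈ Finset.range n, (-u) ^ k • hook K (n - 1 - k) k := by
  have h1 := abel_aux (K := K) (C u) (fun m => (-1) ^ m * (ee K m * hh K (n - m))) n
  have h2 : ∑ k ∈ Finset.range n, (-u) ^ k • hook K (n - 1 - k) k =
      ∑ k ∈ Finset.range n, (C u) ^ k * ∑ m ∈ Finset.range (k + 1), (-1) ^ m * (ee K m * hh K (n - m)) := by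
    refine Finset.sum_congr rfl fun k hk => ?_
    rw [hook_eq n k (Finset.mem_range.mp hk), smul_eq_C_mul, ← mul_assoc]
    congr 1
    rw [map_pow, map_neg, ← mul_pow]
    congr 1
    ring
  have h3 := alt_sum (K := K) n hn
  rw [Finset.sum_range_succ] at h3
  have h4 : ∑ k ∈ Finset.range n, (-1 : MvPolynomial ℕ K) ^ k * (ee K k * hh K (n - k)) =
      -((-1) ^ n * (ee K n * hh K (n - n))) := eq_neg_of_add_eq_zero_left h3
  rw [h2, smul_eq_C_mul, map_sub, C_1, h1, h4, Hn, Finset.sum_range_succ]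
  have h5 : ∀ k, (-u) ^ k • (ee K k * hh K (n - k)) =
      (C u) ^ k * ((-1) ^ k * (ee K k * hh K (n - k))) := by
    intro k
    rw [smul_eq_C_mul, map_pow, map_neg, neg_pow]
    ring
  rw [Finset.sum_congr rfl fun k _ => h5 k, h5 n]
  ring

theorem eps_eq (u : K) (n : ℕ) (hn : 1 ≤ n) (g : MvPolynomial ℕ K)
    (hg : IsWeightedHomogeneous (fun k : ℕ => k + 1) g n) :
    eps u g = (1 - u) * ∑ k ∈ Finset.range n, (-u) ^ k * hall g (hook K (n - 1 - k) k) := by
  rw [← hall_Hn u n g hg, Hn_hook u n hn, hall_smul_right, hall_sum_right]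
  congr 1
  exact Finset.sum_congr rfl fun k _ => hall_smul_right _ _ _

end EllHall
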