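import Pool.Agent.Lib.MP_630b78_co.EH.Newton

/-!
# The Jacobi-Trudi determinant of a hook

Put `D j k = schur K ((j+1) :: replicate k 1)`, a determinant of size `k + 1`.  Expand along the first column (`Matrix.det_succ_column_zero`): the
entries are `h_(j+1), h_0 = 1, 0, ..., 0`; the minors are `schur (replicate k 1) = D 0 (k-1)` and `D (j+1) (k-1)`:
`D j k = h_(j+1) D 0 (k-1) - D (j+1) (k-1)` for `k ≥ 1`, `D j 0 = h_(j+1)`.  So by induction on `k` (for all `j`, together with
`D 0 (k-1) = e_k`, which follows from `alt_sum`): `D j k = ∑_(i ≤ k) (-1)^i h_(j+1+i) e_(k-i)`.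
(It may be easier to write the determinant with explicit functions of the row and the column: row `0`: `h_(j+1+c)`, row `r ≥ 1`: `hz (1 - r + c)`.)
-/

namespace EllHall

open MvPolynomial

variable {K : Type} [Field K] [CharZero K]

omit [CharZero K] in
theorem JT_hz_nat (n : ℕ) : hz K (n : ℤ) = hh K n := by
  simp [hz]

omit [CharZero K] in
theorem JT_hz_neg (z : ℤ) (h : z < 0) : hz K z = 0 := by
  simp [hz, not_le.mpr h]

/-- the matrix of the hook with explicit entries -/
noncomputable def JTmat (K : Type) [Field K] (j k : ℕ) : Matrix (Fin (k + 1)) (Fin (k + 1)) (MvPolynomial ℕ K) :=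
  Matrix.of fun r c => if r = 0 then hz K ((j : ℤ) + 1 + (c : ℤ)) else hz K (1 - (r : ℤ) + (c : ℤ))

omit [CharZero K] in
theorem JT_schur_eq (j k : ℕ) : schur K ((j + 1) :: List.replicate k 1) = (JTmat K j k).det := by
  have h : ((j + 1) :: List.replicate k 1).length = k + 1 := by simp
  unfold schur
  rw [← Matrix.det_submatrix_equiv_self (finCongr h.symm)]
  congr 1
  ext1 r c
  simp only [Matrix.submatrix_apply, Matrix.of_apply, JTmat, finCongr_apply, Fin.val_cast]
  by_cases hr : r = 0
  · subst hr
    simp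
  · obtain ⟨r', rfl⟩ := Fin.exists_succ_eq.mpr hr
    rw [if_neg hr]
    congr 1
    simp

omit [CharZero K] in
theorem JT_det_zero (j : ℕ) : (JTmat K j 0).det = hh K (j + 1) := by
  rw [Matrix.det_fin_one]
  have := JT_hz_nat (K := K) (j + 1)
  push_cast at this
  simp [JTmat, this]

omit [CharZero K] in
theorem JT_det_succ (j k : ℕ) :
    (JTmat K j (k + 1)).det = hh K (j + 1) * (JTmat K 0 k).det - (JTmat K (j + 1) k).det := by
  rw [Matrix.det_succ_column_zero, Fin.sum_univ_succ, Fin.sum_univ_succ]
  have h1 : (JTmat K j (k + 1)).submatrix (Fin.succAbove 0) Fin.succ = JTmat K 0 k := by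
    ext1 r c
    by_cases hr : r = 0
    · subst hr
      simp only [JTmat, Matrix.submatrix_apply, Matrix.of_apply, Fin.zero_succAbove, Fin.succ_ne_zero, if_false, if_true]
      congr 1
      push_cast [Fin.val_succ]
      simp
      ring
    · simp only [JTmat, Matrix.submatrix_apply, Matrix.of_apply, Fin.zero_succAbove, Fin.succ_ne_zero, if_false, hr]
      congr 1
      push_cast [Fin.val_succ]
      ring
  have h2 : (JTmat K j (k + 1)).submatrix (Fin.succAbove (Fin.succ 0)) Fin.succ = JTmat K (j + 1) k := by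
    ext1 r c
    by_cases hr : r = 0
    · subst hr
      have : (Fin.succ (0 : Fin (k + 1))).succAbove (0 : Fin (k + 1)) = 0 := by
        simp
      simp only [JTmat, Matrix.submatrix_apply, Matrix.of_apply, this, if_true]
      congr 1
      push_cast [Fin.val_succ]
      ring
    · obtain ⟨r', rfl⟩ := Fin.exists_succ_eq.mpr hr
      have hv : (Fin.succ (0 : Fin (k + 1))).succAbove (Fin.succ r') = Fin.succ (Fin.succ r') := by
        rw [Fin.succ_succAbove_succ, Fin.zero_succAbove]
      simp only [JTmat, Matrix.submatrix_apply, Matrix.of_apply, hv, Fin.succ_ne_zero, if_false]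
      congr 1
      push_cast [Fin.val_succ]
      ring
  rw [h1, h2]
  have h3 : ∀ i : Fin k, JTmat K j (k + 1) (Fin.succ (Fin.succ i)) 0 = 0 := by
    intro i
    simp only [JTmat, Matrix.of_apply, Fin.succ_ne_zero, if_false]
    apply JT_hz_neg
    push_cast [Fin.val_succ]
    simp
    omega
  have h4 : JTmat K j (k + 1) 0 0 = hh K (j + 1) := by
    have := JT_hz_nat (K := K) (j + 1)
    push_cast at this
    simp [JTmat, this]
  have h5 : JTmat K j (k + 1) (Fin.succ 0) 0 = 1 := by
    have := JT_hz_nat (K := K) 0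
    push_cast at this
    simp [JTmat, this, hh]
  rw [Finset.sum_eq_zero (fun i _ => by rw [h3]; simp), h4, h5]
  simp
  ring

theorem JT_hook_zero_eq (k : ℕ) : hook K 0 k = ee K (k + 1) := by
  have h := alt_sum (K := K) (k + 1) (by omega)
  rw [Finset.sum_range_succ, ← Finset.sum_range_reflect] at h
  have h2 : ∑ i ∈ Finset.range (k + 1), ((-1 : MvPolynomial ℕ K) ^ (k + 1 - 1 - i) *
      (ee K (k + 1 - 1 - i) * hh K (k + 1 - (k + 1 - 1 - i)))) = (-1) ^ k * hook K 0 k := by
    unfold hook
    rw [Finset.mul_sum]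
    refine Finset.sum_congr rfl fun i hi => ?_
    have hi' : i ≤ k := by
      have := Finset.mem_range.mp hi
      omega
    obtain ⟨m, rfl⟩ := Nat.exists_eq_add_of_le hi'
    have e1 : i + m + 1 - 1 - i = m := by omega
    have e2 : i + m + 1 - m = 0 + 1 + i := by omega
    have e3 : i + m - i = m := by omega
    have e4 : (-1 : MvPolynomial ℕ K) ^ (i + m) * (-1) ^ i = (-1) ^ m := by
      rw [pow_add, mul_right_comm, ← mul_pow]
      simp
    rw [e1, e2, e3, ← e4]
    ring
  rw [h2] at h
  have e5 : k + 1 - (k + 1) = 0 := by omega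
  have e6 : hh K 0 = 1 := by simp [hh]
  rw [e5, e6, mul_one, pow_succ, mul_assoc, ← mul_add] at h
  have hne : ((-1 : MvPolynomial ℕ K) ^ k) ≠ 0 := pow_ne_zero _ (by simp)
  rcases mul_eq_zero.mp h with h3 | h3
  · exact absurd h3 hne
  · linear_combination h3

omit [CharZero K] in
theorem JT_hook_succ (j k : ℕ) : hook K j (k + 1) = hh K (j + 1) * ee K (k + 1) - hook K (j + 1) k := by
  unfold hook
  rw [Finset.sum_range_succ', sub_eq_add_neg, ← Finset.sum_neg_distrib, add_comm]
  congr 1
  · simp
  · refine Finset.sum_congr rfl fun i _ => ?_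
    have e1 : j + 1 + (i + 1) = j + 1 + 1 + i := by ring
    have e2 : k + 1 - (i + 1) = k - i := by omega
    rw [e1, e2, pow_succ]
    ring

theorem JT_det_eq (k : ℕ) : ∀ j : ℕ, (JTmat K j k).det = hook K j k := by
  induction k with
  | zero =>
    intro j
    rw [JT_det_zero]
    simp [hook, ee]
  | succ k ih =>
    intro j
    rw [JT_det_succ, ih, ih, JT_hook_zero_eq, JT_hook_succ]

theorem schur_hook (j k : ℕ) : schur K ((j + 1) :: List.replicate k 1) = hook K j k := by
  rw [JT_schur_eq, JT_det_eq]

theorem schur_ones (k : ℕ) : schur K (List.replicate (k + 1) 1) = hook K 0 k := by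
  have h : List.replicate (k + 1) 1 = (0 + 1) :: List.replicate k 1 := by
    rw [List.replicate_succ]
  rw [h, schur_hook]

end EllHall
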