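import Pool.Agent.Lib.MP_630b78_co.EH.Defs

/-!
# The recursion for the operators with at most three boxes

Special cases of the recursion `IsT.step`, and the change of signs.
-/

namespace EllHall

open MvPolynomial

variable {K : Type} [Field K] {q t : K} {T : ℕ → ℕ → Module.End K (MvPolynomial ℕ K)}

theorem inv_smul_of {M : K} (hM : M ≠ 0) {x y : Module.End K (MvPolynomial ℕ K)} (h : M • x = y) :
    x = M⁻¹ • y := by
  rw [← h, smul_smul, inv_mul_cancel₀ hM, one_smul]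

/-- `T_(m+1,1) = M⁻¹ [T_(m,1), T_(1,0)]` -/
theorem op_m1 (hM : (1 - q) * (1 - t) ≠ 0) (hT : IsT q t T) (m : ℕ) :
    T (m + 1) 1 = ((1 - q) * (1 - t))⁻¹ • (T m 1 * T 1 0 - T 1 0 * T m 1) := by
  have h := hT.step (m + 1) 1 m 1 1 (by omega) le_rfl le_rfl (by omega) le_rfl (by ring)
  rw [show (m + 1) * 1 - m = 1 by omega, show 1 * 1 - 1 = 0 by omega, show (m + 1) * 1 = m + 1 by ring,
    show 1 * 1 = 1 by rfl] at h
  exact inv_smul_of hM h

/-- `T_(1,n+1) = M⁻¹ [T_(0,1), T_(1,n)]` -/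
theorem op_1n (hM : (1 - q) * (1 - t) ≠ 0) (hT : IsT q t T) (n : ℕ) :
    T 1 (n + 1) = ((1 - q) * (1 - t))⁻¹ • (T 0 1 * T 1 n - T 1 n * T 0 1) := by
  have h := hT.step 1 (n + 1) 0 1 1 le_rfl (by omega) le_rfl (by omega) (by omega) (by ring)
  rw [show 1 * 1 - 0 = 1 by omega, show (n + 1) * 1 - 1 = n by omega, show (n + 1) * 1 = n + 1 by ring,
    show 1 * 1 = 1 by rfl] at h
  exact inv_smul_of hM h

/-- `T_(2m+1,2) = M⁻¹ [T_(m,1), T_(m+1,1)]` -/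
theorem op_odd2 (hM : (1 - q) * (1 - t) ≠ 0) (hT : IsT q t T) (m : ℕ) :
    T (2 * m + 1) 2 = ((1 - q) * (1 - t))⁻¹ • (T m 1 * T (m + 1) 1 - T (m + 1) 1 * T m 1) := by
  have h := hT.step (2 * m + 1) 2 m 1 1 (by omega) (by omega) le_rfl (by omega) (by omega) (by ring)
  rw [show (2 * m + 1) * 1 - m = m + 1 by omega, show 2 * 1 - 1 = 1 by omega, show (2 * m + 1) * 1 = 2 * m + 1 by ring,
    show 2 * 1 = 2 by rfl] at h
  exact inv_smul_of hM h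

/-- `T_(2,2m+1) = M⁻¹ [T_(1,m+1), T_(1,m)]` -/
theorem op_2odd (hM : (1 - q) * (1 - t) ≠ 0) (hT : IsT q t T) (m : ℕ) :
    T 2 (2 * m + 1) = ((1 - q) * (1 - t))⁻¹ • (T 1 (m + 1) * T 1 m - T 1 m * T 1 (m + 1)) := by
  have h := hT.step 2 (2 * m + 1) 1 (m + 1) 1 (by omega) (by omega) le_rfl (by omega) (by omega) (by ring)
  rw [show (2 * m + 1) * 1 - (m + 1) = m by omega, show 2 * 1 - 1 = 1 by omega, show (2 * m + 1) * 1 = 2 * m + 1 by ring,
    show 2 * 1 = 2 by rfl] at h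
  exact inv_smul_of hM h

/-- `T_(2m+2,2) = M⁻¹ [T_(m,1), T_(m+2,1)]` -/
theorem op_even2 (hM : (1 - q) * (1 - t) ≠ 0) (hT : IsT q t T) (m : ℕ) :
    T (2 * m + 2) 2 = ((1 - q) * (1 - t))⁻¹ • (T m 1 * T (m + 2) 1 - T (m + 2) 1 * T m 1) := by
  have h := hT.step (m + 1) 1 m 1 2 (by omega) (by omega) (by omega) (by omega) (by omega) (by ring)
  rw [show (m + 1) * 2 - m = m + 2 by omega, show 1 * 2 - 1 = 1 by omega, show (m + 1) * 2 = 2 * m + 2 by ring,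
    show 1 * 2 = 2 by rfl] at h
  exact inv_smul_of hM h

/-- `T_(2,2n+2) = M⁻¹ [T_(0,1), T_(2,2n+1)]` -/
theorem op_2even (hM : (1 - q) * (1 - t) ≠ 0) (hT : IsT q t T) (n : ℕ) :
    T 2 (2 * n + 2) = ((1 - q) * (1 - t))⁻¹ • (T 0 1 * T 2 (2 * n + 1) - T 2 (2 * n + 1) * T 0 1) := by
  have h := hT.step 1 (n + 1) 0 1 2 (by omega) (by omega) (by omega) (by omega) (by omega) (by ring)
  rw [show 1 * 2 - 0 = 2 by omega, show (n + 1) * 2 - 1 = 2 * n + 1 by omega, show (n + 1) * 2 = 2 * n + 2 by ring,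
    show 1 * 2 = 2 by rfl] at h
  exact inv_smul_of hM h

/-- `T_(3m+1,3) = M⁻¹ [T_(m,1), T_(2m+1,2)]` -/
theorem op_3a (hM : (1 - q) * (1 - t) ≠ 0) (hT : IsT q t T) (m : ℕ) :
    T (3 * m + 1) 3 = ((1 - q) * (1 - t))⁻¹ • (T m 1 * T (2 * m + 1) 2 - T (2 * m + 1) 2 * T m 1) := by
  have h := hT.step (3 * m + 1) 3 m 1 1 (by omega) (by omega) le_rfl (by omega) (by omega) (by ring)
  rw [show (3 * m + 1) * 1 - m = 2 * m + 1 by omega, show 3 * 1 - 1 = 2 by omega, show (3 * m + 1) * 1 = 3 * m + 1 by ring,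
    show 3 * 1 = 3 by rfl] at h
  exact inv_smul_of hM h

/-- `T_(3m+2,3) = M⁻¹ [T_(2m+1,2), T_(m+1,1)]` -/
theorem op_3b (hM : (1 - q) * (1 - t) ≠ 0) (hT : IsT q t T) (m : ℕ) :
    T (3 * m + 2) 3 = ((1 - q) * (1 - t))⁻¹ • (T (2 * m + 1) 2 * T (m + 1) 1 - T (m + 1) 1 * T (2 * m + 1) 2) := by
  have h := hT.step (3 * m + 2) 3 (2 * m + 1) 2 1 (by omega) (by omega) le_rfl (by omega) (by omega) (by ring)
  rw [show (3 * m + 2) * 1 - (2 * m + 1) = m + 1 by omega, show 3 * 1 - 2 = 1 by omega,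
    show (3 * m + 2) * 1 = 3 * m + 2 by ring, show 3 * 1 = 3 by rfl] at h
  exact inv_smul_of hM h

/-- `T_(3m+3,3) = M⁻¹ [T_(m,1), T_(2m+3,2)]` -/
theorem op_3c (hM : (1 - q) * (1 - t) ≠ 0) (hT : IsT q t T) (m : ℕ) :
    T (3 * m + 3) 3 = ((1 - q) * (1 - t))⁻¹ • (T m 1 * T (2 * (m + 1) + 1) 2 - T (2 * (m + 1) + 1) 2 * T m 1) := by
  have h := hT.step (m + 1) 1 m 1 3 (by omega) (by omega) (by omega) (by omega) (by omega) (by ring)
  rw [show (m + 1) * 3 - m = 2 * (m + 1) + 1 by omega, show 1 * 3 - 1 = 2 by omega, show (m + 1) * 3 = 3 * m + 3 by ring,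
    show 1 * 3 = 3 by rfl] at h
  exact inv_smul_of hM h

/-- `T_(3,3m+1) = M⁻¹ [T_(2,2m+1), T_(1,m)]` -/
theorem op_a3 (hM : (1 - q) * (1 - t) ≠ 0) (hT : IsT q t T) (m : ℕ) :
    T 3 (3 * m + 1) = ((1 - q) * (1 - t))⁻¹ • (T 2 (2 * m + 1) * T 1 m - T 1 m * T 2 (2 * m + 1)) := by
  have h := hT.step 3 (3 * m + 1) 2 (2 * m + 1) 1 (by omega) (by omega) le_rfl (by omega) (by omega) (by ring)
  rw [show (3 * m + 1) * 1 - (2 * m + 1) = m by omega, show 3 * 1 - 2 = 1 by omega,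
    show (3 * m + 1) * 1 = 3 * m + 1 by ring, show 3 * 1 = 3 by rfl] at h
  exact inv_smul_of hM h

/-- `T_(3,3m+2) = M⁻¹ [T_(1,m+1), T_(2,2m+1)]` -/
theorem op_b3 (hM : (1 - q) * (1 - t) ≠ 0) (hT : IsT q t T) (m : ℕ) :
    T 3 (3 * m + 2) = ((1 - q) * (1 - t))⁻¹ • (T 1 (m + 1) * T 2 (2 * m + 1) - T 2 (2 * m + 1) * T 1 (m + 1)) := by
  have h := hT.step 3 (3 * m + 2) 1 (m + 1) 1 (by omega) (by omega) le_rfl (by omega) (by omega) (by ring)
  rw [show (3 * m + 2) * 1 - (m + 1) = 2 * m + 1 by omega, show 3 * 1 - 1 = 2 by omega,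
    show (3 * m + 2) * 1 = 3 * m + 2 by ring, show 3 * 1 = 3 by rfl] at h
  exact inv_smul_of hM h

/-- `T_(3,3m+3) = M⁻¹ [T_(0,1), T_(3,3m+2)]` -/
theorem op_c3 (hM : (1 - q) * (1 - t) ≠ 0) (hT : IsT q t T) (m : ℕ) :
    T 3 (3 * m + 3) = ((1 - q) * (1 - t))⁻¹ • (T 0 1 * T 3 (3 * m + 2) - T 3 (3 * m + 2) * T 0 1) := by
  have h := hT.step 1 (m + 1) 0 1 3 (by omega) (by omega) (by omega) (by omega) (by omega) (by ring)
  rw [show 1 * 3 - 0 = 3 by omega, show (m + 1) * 3 - 1 = 3 * m + 2 by omega, show (m + 1) * 3 = 3 * m + 3 by ring,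
    show 1 * 3 = 3 by rfl] at h
  exact inv_smul_of hM h

/-- the corrected signs -/
theorem isT_of_isHall {Q : ℕ → ℕ → Module.End K (MvPolynomial ℕ K)} (hQ : IsHall q t Q) :
    IsT q t fun m n => (-1 : K) ^ (n + 1) • Q m n where
  t10 := by rw [hQ.q10]; simp
  t01 := by rw [hQ.q01]; simp
  step := by
    intro a b k l d ha hb hd hk hl h
    have hl1 : 1 ≤ l := by
      rcases Nat.eq_zero_or_pos l with h0 | h0
      · rw [h0] at h; omega
      · exact h0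
    have hld : l ≤ b * d := hl.trans (Nat.le_mul_of_pos_right b hd)
    obtain ⟨v, hv⟩ : ∃ v, b * d - l = v := ⟨_, rfl⟩
    have hbd : b * d = v + l := by omega
    have h1 := hQ.step a b k l d ha hb hd hk hl h
    rw [smul_comm, h1, hv, hbd]
    simp only [smul_mul_smul_comm]
    rw [← pow_add, show v + l + 1 = v + l + 1 from rfl, show l + 1 + (v + 1) = (v + l + 1) + 1 by ring,
      ← pow_add, show v + 1 + (l + 1) = (v + l + 1) + 1 by ring, pow_succ]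
    module

end EllHall
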