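import Pool.Agent.Lib.MP_630b78_co.EH.LeftD
import Pool.Agent.Lib.MP_630b78_co.EH.Ops

/-!
# The left tower

Put `v i = (eps u (HH q t i))⁻¹ • HH q t i` (values of `eps u`: `eps_HH`).  Claim: for all `m ≥ 0`, `T m 1` adds a box `c` with weight `al * c^m`.
Induction on `m`: `m = 0`: `T 0 1` is the multiplication by `X 0` (`hT.t01`, `mul_HH0..3`); note `al = d (1 - u c)` with the coefficient `d` of `mul_HH`
and `eps (H_(μ+c)) = (1 - u c) eps (H_μ)`.  Step: `op_m1` (`T (m+1) 1 = M⁻¹ (T m 1 * T 1 0 - T 1 0 * T m 1)`), `hT.t10`, `D0_HH`; the eigenvalues are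
`1 - M bb i`, and `bb` increases by the content of the box (`1`; `q, t`; `q^2, t`; `q, t^2`).
-/

namespace EllHall

open MvPolynomial

variable {K : Type} [Field K] [CharZero K]

private theorem step2 {q t : K} (hM : (1 - q) * (1 - t) ≠ 0)
    {T : ℕ → ℕ → Module.End K (MvPolynomial ℕ K)} (hT : IsT q t T) (m : ℕ)
    {x y z : MvPolynomial ℕ K} {a b lx ly lz : K} (hx : T 1 0 x = lx • x) (hy : T 1 0 y = ly • y)
    (hz : T 1 0 z = lz • z) (h : T m 1 x = a • y + b • z) {c d : K}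
    (h1 : lx - ly = (1 - q) * (1 - t) * c) (h2 : lx - lz = (1 - q) * (1 - t) * d) {a' b' : K}
    (ha : a' = a * c) (hb : b' = b * d) : T (m + 1) 1 x = a' • y + b' • z := by
  rw [ha, hb]
  rw [op_m1 hM hT m, LinearMap.smul_apply, LinearMap.sub_apply, Module.End.mul_apply,
    Module.End.mul_apply, hx, h, map_smul, map_add, map_smul, map_smul, h, hy, hz]
  have e : lx • (a • y + b • z) - (a • ly • y + b • lz • z) =
      ((lx - ly) * a) • y + ((lx - lz) * b) • z := by module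
  rw [e, h1, h2, smul_add, smul_smul, smul_smul]
  congr 2
  · rw [mul_assoc, inv_mul_cancel_left₀ hM, mul_comm]
  · rw [mul_assoc, inv_mul_cancel_left₀ hM, mul_comm]

private theorem step1 {q t : K} (hM : (1 - q) * (1 - t) ≠ 0)
    {T : ℕ → ℕ → Module.End K (MvPolynomial ℕ K)} (hT : IsT q t T) (m : ℕ)
    {x y : MvPolynomial ℕ K} {a lx ly : K} (hx : T 1 0 x = lx • x) (hy : T 1 0 y = ly • y)
    (h : T m 1 x = a • y) (h1 : lx - ly = (1 - q) * (1 - t)) : T (m + 1) 1 x = a • y := by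
  rw [op_m1 hM hT m, LinearMap.smul_apply, LinearMap.sub_apply, Module.End.mul_apply,
    Module.End.mul_apply, hx, h, map_smul, map_smul, h, hy]
  have e : lx • (a • y) - a • ly • y = ((lx - ly) * a) • y := by module
  rw [e, h1, smul_smul, inv_mul_cancel_left₀ hM]

/-- the base of the induction -/
private theorem base2 {T : ℕ → ℕ → Module.End K (MvPolynomial ℕ K)} (h01 : T 0 1 = LinearMap.mulLeft K (X 0))
    {x y z : MvPolynomial ℕ K} {ex ey ez d1 d2 a b : K} (hy : ey ≠ 0) (hz : ez ≠ 0)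
    (h : X 0 * x = d1 • y + d2 • z) (ha : ex⁻¹ * d1 * ey = a) (hb : ex⁻¹ * d2 * ez = b) :
    T 0 1 (ex⁻¹ • x) = a • (ey⁻¹ • y) + b • (ez⁻¹ • z) := by
  rw [h01, LinearMap.mulLeft_apply, mul_smul_comm, h, smul_add, smul_smul, smul_smul, smul_smul,
    smul_smul, ← ha, ← hb]
  congr 2
  · rw [mul_assoc _ ey, mul_inv_cancel₀ hy, mul_one]
  · rw [mul_assoc _ ez, mul_inv_cancel₀ hz, mul_one]

private theorem left_all {q t u : K} (hM : (1 - q) * (1 - t) ≠ 0) (h1 : q ≠ t) (h2 : q ^ 2 ≠ t) (h3 : q ≠ t ^ 2)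
    (hu : 1 - u ≠ 0) (huq : 1 - u * q ≠ 0) (hut : 1 - u * t ≠ 0) (huq2 : 1 - u * q ^ 2 ≠ 0) (hut2 : 1 - u * t ^ 2 ≠ 0)
    {T : ℕ → ℕ → Module.End K (MvPolynomial ℕ K)} (hT : IsT q t T)
    (v : Fin 7 → MvPolynomial ℕ K) (hv : ∀ i, v i = (eps u (HH q t i))⁻¹ • HH q t i) (m : ℕ) :
    T m 1 (v 0) = al q t u 0 • v 1 ∧
    T m 1 (v 1) = (al q t u 1 * q ^ m) • v 2 + (al q t u 2 * t ^ m) • v 3 ∧
    T m 1 (v 2) = (al q t u 3 * (q ^ 2) ^ m) • v 4 + (al q t u 4 * t ^ m) • v 5 ∧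
    T m 1 (v 3) = (al q t u 5 * q ^ m) • v 5 + (al q t u 6 * (t ^ 2) ^ m) • v 6 := by
  have e0 : eps u (HH q t 0) = 1 := eps_HH q t u 0
  have e1 : eps u (HH q t 1) = 1 - u := eps_HH q t u 1
  have e2 : eps u (HH q t 2) = (1 - u) * (1 - u * q) := eps_HH q t u 2
  have e3 : eps u (HH q t 3) = (1 - u) * (1 - u * t) := eps_HH q t u 3
  have e4 : eps u (HH q t 4) = (1 - u) * (1 - u * q) * (1 - u * q ^ 2) := eps_HH q t u 4
  have e5 : eps u (HH q t 5) = (1 - u) * (1 - u * q) * (1 - u * t) := eps_HH q t u 5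
  have e6 : eps u (HH q t 6) = (1 - u) * (1 - u * t) * (1 - u * t ^ 2) := eps_HH q t u 6
  have n2 : (1 - u) * (1 - u * q) ≠ 0 := mul_ne_zero hu huq
  have n3 : (1 - u) * (1 - u * t) ≠ 0 := mul_ne_zero hu hut
  have n4 : (1 - u) * (1 - u * q) * (1 - u * q ^ 2) ≠ 0 := mul_ne_zero n2 huq2
  have n5 : (1 - u) * (1 - u * q) * (1 - u * t) ≠ 0 := mul_ne_zero n2 hut
  have n6 : (1 - u) * (1 - u * t) * (1 - u * t ^ 2) ≠ 0 := mul_ne_zero n3 hut2
  have a0 : al q t u 0 = 1 - u := rfl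
  have a1 : al q t u 1 = (1 - t) * (1 - u * q) / (q - t) := rfl
  have a2 : al q t u 2 = (1 - q) * (1 - u * t) / (t - q) := rfl
  have a3 : al q t u 3 = (1 - t) * (1 - u * q ^ 2) / (q ^ 2 - t) := rfl
  have a4 : al q t u 4 = (1 - q ^ 2) * (1 - u * t) / (t - q ^ 2) := rfl
  have a5 : al q t u 5 = (1 - t ^ 2) * (1 - u * q) / (q - t ^ 2) := rfl
  have a6 : al q t u 6 = (1 - q) * (1 - u * t ^ 2) / (t ^ 2 - q) := rfl
  have hD : ∀ i, T 1 0 (v i) = (1 - (1 - q) * (1 - t) * bb q t i) • v i := by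
    intro i
    rw [hv i, hT.t10, map_smul, D0_HH, smul_comm]
  have b0 : bb q t 0 = 0 := rfl
  have b1 : bb q t 1 = 1 := rfl
  have b2 : bb q t 2 = 1 + q := rfl
  have b3 : bb q t 3 = 1 + t := rfl
  have b4 : bb q t 4 = 1 + q + q ^ 2 := rfl
  have b5 : bb q t 5 = 1 + q + t := rfl
  have b6 : bb q t 6 = 1 + t + t ^ 2 := rfl
  induction m with
  | zero =>
    refine ⟨?_, ?_, ?_, ?_⟩
    · rw [hv 0, hv 1, e0, e1, a0, inv_one, one_smul, hT.t01, LinearMap.mulLeft_apply, mul_HH0,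
        smul_smul, mul_inv_cancel₀ hu, one_smul]
    · rw [hv 1, hv 2, hv 3, e1, e2, e3, pow_zero, pow_zero, mul_one, mul_one]
      refine base2 hT.t01 n2 n3 (mul_HH1 q t h1) ?_ ?_
      · rw [a1]; field_simp
      · rw [a2]; field_simp
    · rw [hv 2, hv 4, hv 5, e2, e4, e5, pow_zero, pow_zero, mul_one, mul_one]
      refine base2 hT.t01 n4 n5 (mul_HH2 q t h2) ?_ ?_
      · rw [a3]; field_simp
      · rw [a4]; field_simp
    · rw [hv 3, hv 5, hv 6, e3, e5, e6, pow_zero, pow_zero, mul_one, mul_one]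
      refine base2 hT.t01 n5 n6 (mul_HH3 q t h3) ?_ ?_
      · rw [a5]; field_simp
      · rw [a6]; field_simp
  | succ m ih =>
    obtain ⟨i0, i1, i2, i3⟩ := ih
    refine ⟨?_, ?_, ?_, ?_⟩
    · refine step1 hM hT m (hD 0) (hD 1) i0 ?_
      rw [b0, b1]; ring
    · refine step2 hM hT m (c := q) (d := t) (hD 1) (hD 2) (hD 3) i1 ?_ ?_ ?_ ?_
      · rw [b1, b2]; ring
      · rw [b1, b3]; ring
      · rw [pow_succ, mul_assoc]
      · rw [pow_succ, mul_assoc]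
    · refine step2 hM hT m (c := q ^ 2) (d := t) (hD 2) (hD 4) (hD 5) i2 ?_ ?_ ?_ ?_
      · rw [b2, b4]; ring
      · rw [b2, b5]; ring
      · rw [pow_succ (q ^ 2) m, mul_assoc]
      · rw [pow_succ, mul_assoc]
    · refine step2 hM hT m (c := q) (d := t ^ 2) (hD 3) (hD 5) (hD 6) i3 ?_ ?_ ?_ ?_
      · rw [b3, b5]; ring
      · rw [b3, b6]; ring
      · rw [pow_succ, mul_assoc]
      · rw [pow_succ (t ^ 2) m, mul_assoc]

theorem left_tower {q t u : K} (hM : (1 - q) * (1 - t) ≠ 0) (h1 : q ≠ t) (h2 : q ^ 2 ≠ t) (h3 : q ≠ t ^ 2)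
    (hu : 1 - u ≠ 0) (huq : 1 - u * q ≠ 0) (hut : 1 - u * t ≠ 0) (huq2 : 1 - u * q ^ 2 ≠ 0) (hut2 : 1 - u * t ^ 2 ≠ 0)
    {T : ℕ → ℕ → Module.End K (MvPolynomial ℕ K)} (hT : IsT q t T) :
    ∃ v : Fin 7 → MvPolynomial ℕ K, v 0 = 1 ∧ (∀ i, eps u (v i) = 1) ∧ Tower q t u v (fun k => T k 1) := by
  have n2 : (1 - u) * (1 - u * q) ≠ 0 := mul_ne_zero hu huq
  have n3 : (1 - u) * (1 - u * t) ≠ 0 := mul_ne_zero hu hut
  have hne : ∀ i, eps u (HH q t i) ≠ 0 := by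
    intro i
    rw [eps_HH]
    fin_cases i
    · exact one_ne_zero
    · exact hu
    · exact n2
    · exact n3
    · exact mul_ne_zero n2 huq2
    · exact mul_ne_zero n2 hut
    · exact mul_ne_zero n3 hut2
  have hall := left_all hM h1 h2 h3 hu huq hut huq2 hut2 hT
    (fun i => (eps u (HH q t i))⁻¹ • HH q t i) (fun _ => rfl)
  refine ⟨fun i => (eps u (HH q t i))⁻¹ • HH q t i, ?_, ?_, ?_⟩
  · have e0 : eps u (HH q t 0) = 1 := eps_HH q t u 0
    show (eps u (HH q t 0))⁻¹ • HH q t 0 = 1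
    rw [e0, inv_one, one_smul]
    rfl
  · intro i
    show eps u ((eps u (HH q t i))⁻¹ • HH q t i) = 1
    rw [map_smul, smul_eq_mul, inv_mul_cancel₀ (hne i)]
  · exact ⟨fun k _ => (hall k).1, fun k _ => (hall k).2.1, fun k _ => (hall k).2.2.1,
      fun k _ => (hall k).2.2.2⟩

end EllHall
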