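import Pool.Agent.Lib.MP_630b78_co.EH.Defs

/-!
# Partitions and the first column

`bar μ` is `μ` with all parts decreased by one (zeros removed).
`bar_small`: if `n ≤ 3` then `bar μ` is `0` or `{j}`, `1 ≤ j < n` (write out: the parts of `μ` which are `≥ 2`; at most one as `n ≤ 3`).
`bar_zero`: if `bar μ.parts = 0` all parts are `1`.  `bar_single`: if `bar μ.parts = {j}` (`j ≥ 1`) then exactly one part is `≥ 2`, namely `j + 1`.
`sort_ones`, `sort_hook`: sorting.  `parts_hook`: the partition with these parts (to see that it exists).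
-/

namespace EllHall

open MvPolynomial

private theorem bar_eq (s : Multiset ℕ) : bar s = (s.filter fun i => 1 < i).map fun i => i - 1 := by
  unfold bar
  rw [Multiset.filter_map]
  congr 1
  refine Multiset.filter_congr fun i _ => ?_
  simp only [Function.comp_apply]
  omega

private theorem parts_split {n : ℕ} (μ : Nat.Partition n) :
    μ.parts = (μ.parts.filter fun i => 1 < i) + Multiset.replicate (n - (μ.parts.filter fun i => 1 < i).sum) 1 := by
  have h1 : (μ.parts.filter fun i => 1 < i) + (μ.parts.filter fun i => ¬ 1 < i) = μ.parts :=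
    Multiset.filter_add_not _ _
  have h2 : (μ.parts.filter fun i => ¬ 1 < i) =
      Multiset.replicate (Multiset.card (μ.parts.filter fun i => ¬ 1 < i)) 1 := by
    refine Multiset.eq_replicate_of_mem fun i hi => ?_
    rw [Multiset.mem_filter] at hi
    have := μ.parts_pos hi.1
    omega
  have h3 : (μ.parts.filter fun i => 1 < i).sum + Multiset.card (μ.parts.filter fun i => ¬ 1 < i) = n := by
    have h4 := congrArg Multiset.sum h1
    rw [Multiset.sum_add, μ.parts_sum] at h4
    rw [h2, Multiset.sum_replicate, smul_eq_mul, mul_one] at h4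
    exact h4
  conv_lhs => rw [← h1, h2]
  congr 2
  omega

private theorem two_card (s : Multiset ℕ) : 2 * Multiset.card (s.filter fun i => 1 < i) ≤ (s.filter fun i => 1 < i).sum := by
  have := Multiset.card_nsmul_le_sum (s := s.filter fun i => 1 < i) (a := 2) (fun i hi => by
    rw [Multiset.mem_filter] at hi
    exact hi.2)
  rw [smul_eq_mul] at this
  omega

private theorem sum_le {n : ℕ} (μ : Nat.Partition n) : (μ.parts.filter fun i => 1 < i).sum ≤ n := by
  have h1 : (μ.parts.filter fun i => 1 < i) + (μ.parts.filter fun i => ¬ 1 < i) = μ.parts :=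
    Multiset.filter_add_not _ _
  have h4 := congrArg Multiset.sum h1
  rw [Multiset.sum_add, μ.parts_sum] at h4
  omega

theorem bar_small (n : ℕ) (hn : n ≤ 3) (μ : Nat.Partition n) : bar μ.parts = 0 ∨ ∃ j, 1 ≤ j ∧ j < n ∧ bar μ.parts = {j} := by
  have h1 := two_card μ.parts
  have h2 := sum_le μ
  have h3 : Multiset.card (μ.parts.filter fun i => 1 < i) = 0 ∨ Multiset.card (μ.parts.filter fun i => 1 < i) = 1 := by
    omega
  rw [bar_eq]
  rcases h3 with h3 | h3
  · left
    rw [Multiset.card_eq_zero.1 h3, Multiset.map_zero]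
  · right
    obtain ⟨a, ha⟩ := Multiset.card_eq_one.1 h3
    have h4 : a ∈ μ.parts.filter fun i => 1 < i := by rw [ha]; exact Multiset.mem_singleton_self a
    rw [Multiset.mem_filter] at h4
    rw [ha, Multiset.sum_singleton] at h2
    refine ⟨a - 1, by omega, by omega, ?_⟩
    rw [ha, Multiset.map_singleton]

theorem bar_zero_iff (n : ℕ) (μ : Nat.Partition n) : bar μ.parts = 0 ↔ μ.parts = Multiset.replicate n 1 := by
  rw [bar_eq]
  constructor
  · intro h
    have h1 : (μ.parts.filter fun i => 1 < i) = 0 := Multiset.map_eq_zero.1 h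
    have h2 := parts_split μ
    rw [h1, Multiset.sum_zero, zero_add, Nat.sub_zero] at h2
    exact h2
  · intro h
    rw [h, Multiset.map_eq_zero, Multiset.filter_eq_nil]
    intro i hi
    rw [Multiset.eq_of_mem_replicate hi]
    omega

theorem bar_single_iff (n j : ℕ) (hj : 1 ≤ j) (μ : Nat.Partition n) :
    bar μ.parts = {j} ↔ j < n ∧ μ.parts = (j + 1) ::ₘ Multiset.replicate (n - 1 - j) 1 := by
  rw [bar_eq]
  constructor
  · intro h
    obtain ⟨a, ha, haj⟩ := Multiset.map_eq_singleton.1 h
    have h4 : a ∈ μ.parts.filter fun i => 1 < i := by rw [ha]; exact Multiset.mem_singleton_self a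
    rw [Multiset.mem_filter] at h4
    have h5 := h4.2
    have h2 := sum_le μ
    rw [ha, Multiset.sum_singleton] at h2
    have haj' : a = j + 1 := by omega
    subst haj'
    refine ⟨by omega, ?_⟩
    have h6 := parts_split μ
    rw [ha, Multiset.sum_singleton, Multiset.singleton_add] at h6
    rw [h6]
    congr 2
    omega
  · rintro ⟨_, h⟩
    have h1 : (μ.parts.filter fun i => 1 < i) = {j + 1} := by
      rw [h, Multiset.filter_cons_of_pos _ (by omega)]
      have : ((Multiset.replicate (n - 1 - j) 1).filter fun i => 1 < i) = 0 := by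
        rw [Multiset.filter_eq_nil]
        intro i hi
        rw [Multiset.eq_of_mem_replicate hi]
        omega
      rw [this]
      rfl
    rw [h1, Multiset.map_singleton]
    rfl

theorem sort_ones (n : ℕ) : (Multiset.replicate n 1).sort (· ≥ ·) = List.replicate n 1 := by
  rw [List.eq_replicate_iff]
  refine ⟨by rw [Multiset.length_sort, Multiset.card_replicate], fun b hb => ?_⟩
  rw [Multiset.mem_sort] at hb
  exact Multiset.eq_of_mem_replicate hb

theorem sort_hook (j k : ℕ) : ((j + 1) ::ₘ Multiset.replicate k 1).sort (· ≥ ·) = (j + 1) :: List.replicate k 1 := by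
  rw [Multiset.sort_cons, sort_ones]
  intro b hb
  rw [Multiset.eq_of_mem_replicate hb]
  omega

/-- the coefficient of the empty partition in `bar` -/
theorem barCoeff_zero {K : Type} [Field K] (g : MvPolynomial ℕ K) (n : ℕ) :
    barCoeff g n 0 = hall g (schur K (List.replicate n 1)) := by
  have hex : ∃ ν : Nat.Partition n, ν.parts = Multiset.replicate n 1 :=
    ⟨⟨Multiset.replicate n 1, fun {i} hi => by rw [Multiset.eq_of_mem_replicate hi]; exact one_pos,
      by rw [Multiset.sum_replicate, smul_eq_mul, mul_one]⟩, rfl⟩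
  obtain ⟨ν, hν⟩ := hex
  unfold barCoeff
  rw [Finset.sum_eq_single ν]
  · rw [if_pos ((bar_zero_iff n ν).2 hν), sc, hν, sort_ones]
  · intro μ _ hμ
    refine if_neg fun h => hμ ?_
    exact Nat.Partition.ext (((bar_zero_iff n μ).1 h).trans hν.symm)
  · intro h
    exact absurd (Finset.mem_univ ν) h

/-- the coefficient of a one-row partition in `bar` -/
theorem barCoeff_single {K : Type} [Field K] (g : MvPolynomial ℕ K) (n j : ℕ) (hj : 1 ≤ j) :
    barCoeff g n {j} = if j < n then hall g (schur K ((j + 1) :: List.replicate (n - 1 - j) 1)) else 0 := by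
  unfold barCoeff
  split_ifs with hjn
  · have hex : ∃ ν : Nat.Partition n, ν.parts = (j + 1) ::ₘ Multiset.replicate (n - 1 - j) 1 := by
      refine ⟨⟨(j + 1) ::ₘ Multiset.replicate (n - 1 - j) 1, fun {i} hi => ?_, ?_⟩, rfl⟩
      · rw [Multiset.mem_cons] at hi
        rcases hi with hi | hi
        · omega
        · rw [Multiset.eq_of_mem_replicate hi]; exact one_pos
      · rw [Multiset.sum_cons, Multiset.sum_replicate, smul_eq_mul, mul_one]
        omega
    obtain ⟨ν, hν⟩ := hex
    rw [Finset.sum_eq_single ν]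
    · rw [if_pos ((bar_single_iff n j hj ν).2 ⟨hjn, hν⟩), sc, hν, sort_hook]
    · intro μ _ hμ
      refine if_neg fun h => hμ ?_
      exact Nat.Partition.ext (((bar_single_iff n j hj μ).1 h).2.trans hν.symm)
    · intro h
      exact absurd (Finset.mem_univ ν) h
  · refine Finset.sum_eq_zero fun μ _ => ?_
    exact if_neg fun h => hjn ((bar_single_iff n j hj μ).1 h).1

/-- other partitions do not occur for `n ≤ 3` -/
theorem barCoeff_small {K : Type} [Field K] (g : MvPolynomial ℕ K) (n : ℕ) (hn : n ≤ 3) (ρ : Multiset ℕ) (h0 : ρ ≠ 0)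
    (h1 : ∀ j, 1 ≤ j → ρ ≠ {j}) : barCoeff g n ρ = 0 := by
  refine Finset.sum_eq_zero fun μ _ => if_neg fun h => ?_
  rcases bar_small n hn μ with h2 | ⟨j, hj, _, h2⟩
  · exact h0 (h.symm.trans h2)
  · exact h1 j hj (h.symm.trans h2)

/-- `ℕ[q,t]` is closed under addition -/
theorem IsNN.add {K : Type} [Field K] {q t x y : K} (hx : IsNN q t x) (hy : IsNN q t y) : IsNN q t (x + y) := by
  obtain ⟨P, rfl⟩ := hx
  obtain ⟨Q, rfl⟩ := hy
  exact ⟨P + Q, (eval₂_add _ _).symm⟩

theorem IsNN.zero {K : Type} [Field K] {q t : K} : IsNN q t (0 : K) :=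
  ⟨0, (eval₂_zero _ _).symm⟩

theorem IsNN.sum {K : Type} [Field K] {q t : K} {ι : Type} (s : Finset ι) (f : ι → K) (h : ∀ i ∈ s, IsNN q t (f i)) :
    IsNN q t (∑ i ∈ s, f i) := by
  classical
  induction s using Finset.induction_on with
  | empty => rw [Finset.sum_empty]; exact IsNN.zero
  | insert a s ha ih =>
    rw [Finset.sum_insert ha]
    exact IsNN.add (h a (Finset.mem_insert_self a s)) (ih fun i hi => h i (Finset.mem_insert_of_mem hi))

end EllHall
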