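import Pool.Agent.Lib.MP_630b78_co.EH.RightE
import Pool.Agent.Lib.MP_630b78_co.EH.Ops

/-!
# The right tower

Put `w i = (aeval P_i).toLinearMap`, `P_i k = 1 - u^(k+1) + (1-q^(k+1)) (1-t^(k+1)) u^(k+1) bb (q^(k+1)) (t^(k+1)) i`; `P_0` gives `eps u`.
`(T 0 1).dualMap (w i) = (w i (X 0)) • w i` because `T 0 1` is the multiplication by `X 0`.
(1) For `i = 0, 1, 2, 3` (`∅, 1, 2, 11`): `w i (D0 g) = u⁻¹ * w i g - u⁻¹ * ∑_c al * w (i + c) g`.  Use `aeval_D0` and `aeval_ee` (`RightE`) with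
`(x1, x2, y)` = `(u q, u t, u q t)` for `1`, `(u q^2, u t, u q^2 t)` for `2`, `(u q, u t^2, u q t^2)` for `11`: `P_i k = 1 - x1^(k+1) - x2^(k+1) + y^(k+1)`,
`y/(x1 x2) = u⁻¹`, and `(x1-1)(x1-y)/(x1 (x1-x2)) = -u⁻¹ al`.  For `∅` take `x1 = u`, `x2 = y = 1` (here `A2 = 0`, `A1 = (u-1)/u = -u⁻¹ al 0`; `u ≠ 1`).
(2) `T 1 1 = M⁻¹ (T 0 1 * T 1 0 - T 1 0 * T 0 1)` (`op_1n`) and `dualMap` reverses products: `w i ∘ T 1 1 = ∑_c al * c * w (i+c)`, as
`w (i+c) (X 0) - w i (X 0) = u M c`.  Induction (`op_1n`): `w i ∘ T 1 n = -u⁻¹ (-u)^n ∑_c al * c^n * w (i+c)` for `n ≥ 1`.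
-/

namespace EllHall

open MvPolynomial

variable {K : Type} [Field K] [CharZero K]

/-- the points -/
private def PP (q t u : K) (i : Fin 7) (k : ℕ) : K :=
  1 - u ^ (k + 1) + (1 - q ^ (k + 1)) * (1 - t ^ (k + 1)) * u ^ (k + 1) * bb (q ^ (k + 1)) (t ^ (k + 1)) i

private theorem node {q t u : K} (hM : (1 - q) * (1 - t) ≠ 0)
    {T : ℕ → ℕ → Module.End K (MvPolynomial ℕ K)} (hT : IsT q t T) (f f1 f2 : Module.Dual K (MvPolynomial ℕ K))
    (ev c1 c2 κ β1 β2 : K) (hf : ∀ g, f (X 0 * g) = ev * f g)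
    (hf1 : ∀ g, f1 (X 0 * g) = (ev + u * ((1 - q) * (1 - t)) * c1) * f1 g)
    (hf2 : ∀ g, f2 (X 0 * g) = (ev + u * ((1 - q) * (1 - t)) * c2) * f2 g)
    (h0 : ∀ g, f (D0 q t g) = κ * f g + β1 * f1 g + β2 * f2 g) (n : ℕ) :
    ∀ g, f (T 1 (n + 1) g) = (-u) ^ (n + 1) * (β1 * c1 ^ (n + 1) * f1 g + β2 * c2 ^ (n + 1) * f2 g) := by
  have hq1 : 1 - q ≠ 0 := left_ne_zero_of_mul hM
  have ht1 : 1 - t ≠ 0 := right_ne_zero_of_mul hM
  induction n with
  | zero =>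
    intro g
    rw [op_1n hM hT 0, LinearMap.smul_apply, LinearMap.sub_apply, Module.End.mul_apply, Module.End.mul_apply, map_smul, map_sub,
      hT.t10, hT.t01, LinearMap.mulLeft_apply, LinearMap.mulLeft_apply, hf, h0, h0, hf, hf1, hf2, smul_eq_mul]
    field_simp
    ring
  | succ n ih =>
    intro g
    rw [op_1n hM hT (n + 1), LinearMap.smul_apply, LinearMap.sub_apply, Module.End.mul_apply, Module.End.mul_apply, map_smul,
      map_sub, hT.t01, LinearMap.mulLeft_apply, LinearMap.mulLeft_apply, hf, ih, ih, hf1, hf2, smul_eq_mul]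
    field_simp
    ring

private theorem node_D0 (q t : K) (P : ℕ → K) (x1 x2 y : K) (h1 : x1 ≠ 0) (h2 : x2 ≠ 0) (h12 : x1 ≠ x2)
    (hP : ∀ k, P k = 1 - x1 ^ (k + 1) - x2 ^ (k + 1) + y ^ (k + 1)) (g : MvPolynomial ℕ K) :
    aeval P (D0 q t g) = y / (x1 * x2) * aeval P g +
      (x1 - 1) * (x1 - y) / (x1 * (x1 - x2)) * aeval (fun k => P k + (1 - q ^ (k + 1)) * (1 - t ^ (k + 1)) * x1 ^ (k + 1)) g +
      (x2 - 1) * (x2 - y) / (x2 * (x2 - x1)) * aeval (fun k => P k + (1 - q ^ (k + 1)) * (1 - t ^ (k + 1)) * x2 ^ (k + 1)) g := by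
  have hP' : P = fun k => 1 - x1 ^ (k + 1) - x2 ^ (k + 1) + y ^ (k + 1) := funext hP
  apply aeval_D0
  intro n
  rw [hP']
  exact aeval_ee x1 x2 y h1 h2 h12 n

private theorem ev_mul (q t u : K) (i : Fin 7) (g : MvPolynomial ℕ K) :
    aeval (PP q t u i) (X 0 * g) = (1 - u + u * ((1 - q) * (1 - t)) * bb q t i) * aeval (PP q t u i) g := by
  rw [map_mul, aeval_X]
  congr 1
  unfold PP
  rw [zero_add, pow_one, pow_one, pow_one]
  ring

theorem right_tower {q t u : K} (hM : (1 - q) * (1 - t) ≠ 0) (h1 : q ≠ t) (h2 : q ^ 2 ≠ t) (h3 : q ≠ t ^ 2)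
    (hq : q ≠ 0) (ht : t ≠ 0) (hu0 : u ≠ 0) (hu : 1 - u ≠ 0)
    {T : ℕ → ℕ → Module.End K (MvPolynomial ℕ K)} (hT : IsT q t T) :
    ∃ w : Fin 7 → Module.Dual K (MvPolynomial ℕ K), w 0 = (eps u).toLinearMap ∧ (∀ i, w i 1 = 1) ∧
      (∀ i, (T 0 1).dualMap (w i) = (1 - u + u * ((1 - q) * (1 - t)) * bb q t i) • w i) ∧
      Tower q t u w (fun n => ((-u) * ((-u) ^ n)⁻¹) • (T 1 n).dualMap) := by
  have hu' : -u ≠ 0 := neg_ne_zero.2 hu0
  have e1 : q - t ≠ 0 := sub_ne_zero.2 h1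
  have e1' : t - q ≠ 0 := sub_ne_zero.2 h1.symm
  have e2 : q ^ 2 - t ≠ 0 := sub_ne_zero.2 h2
  have e2' : t - q ^ 2 ≠ 0 := sub_ne_zero.2 h2.symm
  have e3 : q - t ^ 2 ≠ 0 := sub_ne_zero.2 h3
  have e3' : t ^ 2 - q ≠ 0 := sub_ne_zero.2 h3.symm
  obtain ⟨w, hw⟩ : ∃ w : Fin 7 → Module.Dual K (MvPolynomial ℕ K), ∀ i, w i = (aeval (PP q t u i)).toLinearMap :=
    ⟨_, fun i => rfl⟩
  have hX : ∀ i g, w i (X 0 * g) = (1 - u + u * ((1 - q) * (1 - t)) * bb q t i) * w i g := by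
    intro i g
    rw [hw]
    exact ev_mul q t u i g
  have hD0 : ∀ g, w 0 (D0 q t g) = u⁻¹ * w 0 g + (-u)⁻¹ * al q t u 0 * w 1 g + 0 * w 1 g := by
    intro g
    rw [hw, hw]
    have hn := node_D0 q t (PP q t u 0) u 1 1 hu0 one_ne_zero (fun h => hu (by rw [h, sub_self])) (by
      intro k
      change 1 - u ^ (k + 1) + (1 - q ^ (k + 1)) * (1 - t ^ (k + 1)) * u ^ (k + 1) * 0 = _
      ring) g
    have ha : (fun k => PP q t u 0 k + (1 - q ^ (k + 1)) * (1 - t ^ (k + 1)) * u ^ (k + 1)) = PP q t u 1 := by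
      funext k
      change 1 - u ^ (k + 1) + (1 - q ^ (k + 1)) * (1 - t ^ (k + 1)) * u ^ (k + 1) * 0 + _ =
        1 - u ^ (k + 1) + (1 - q ^ (k + 1)) * (1 - t ^ (k + 1)) * u ^ (k + 1) * 1
      ring
    rw [ha] at hn
    change aeval (PP q t u 0) (D0 q t g) = u⁻¹ * aeval (PP q t u 0) g + (-u)⁻¹ * (1 - u) * aeval (PP q t u 1) g +
      0 * aeval (PP q t u 1) g
    rw [hn]
    have hu1 : u - 1 ≠ 0 := fun h => hu (by linear_combination -h)
    field_simp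
    ring
  have hD1 : ∀ g, w 1 (D0 q t g) = u⁻¹ * w 1 g + (-u)⁻¹ * al q t u 1 * w 2 g + (-u)⁻¹ * al q t u 2 * w 3 g := by
    intro g
    rw [hw, hw, hw]
    have hn := node_D0 q t (PP q t u 1) (u * q) (u * t) (u * q * t) (mul_ne_zero hu0 hq) (mul_ne_zero hu0 ht)
      (fun h => h1 (mul_left_cancel₀ hu0 h)) (by
      intro k
      change 1 - u ^ (k + 1) + (1 - q ^ (k + 1)) * (1 - t ^ (k + 1)) * u ^ (k + 1) * 1 = _
      ring) g
    have ha : (fun k => PP q t u 1 k + (1 - q ^ (k + 1)) * (1 - t ^ (k + 1)) * (u * q) ^ (k + 1)) = PP q t u 2 := by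
      funext k
      change 1 - u ^ (k + 1) + (1 - q ^ (k + 1)) * (1 - t ^ (k + 1)) * u ^ (k + 1) * 1 + _ =
        1 - u ^ (k + 1) + (1 - q ^ (k + 1)) * (1 - t ^ (k + 1)) * u ^ (k + 1) * (1 + q ^ (k + 1))
      ring
    have hb : (fun k => PP q t u 1 k + (1 - q ^ (k + 1)) * (1 - t ^ (k + 1)) * (u * t) ^ (k + 1)) = PP q t u 3 := by
      funext k
      change 1 - u ^ (k + 1) + (1 - q ^ (k + 1)) * (1 - t ^ (k + 1)) * u ^ (k + 1) * 1 + _ =
        1 - u ^ (k + 1) + (1 - q ^ (k + 1)) * (1 - t ^ (k + 1)) * u ^ (k + 1) * (1 + t ^ (k + 1))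
      ring
    rw [ha, hb] at hn
    change aeval (PP q t u 1) (D0 q t g) = u⁻¹ * aeval (PP q t u 1) g +
      (-u)⁻¹ * ((1 - t) * (1 - u * q) / (q - t)) * aeval (PP q t u 2) g +
      (-u)⁻¹ * ((1 - q) * (1 - u * t) / (t - q)) * aeval (PP q t u 3) g
    rw [hn]
    have k1 : u * q * t / (u * q * (u * t)) = u⁻¹ := by field_simp
    have k2 : (u * q - 1) * (u * q - u * q * t) / (u * q * (u * q - u * t)) = (-u)⁻¹ * ((1 - t) * (1 - u * q) / (q - t)) := by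
      rw [show u * q - u * t = u * (q - t) by ring]
      field_simp
      ring
    have k3 : (u * t - 1) * (u * t - u * q * t) / (u * t * (u * t - u * q)) = (-u)⁻¹ * ((1 - q) * (1 - u * t) / (t - q)) := by
      rw [show u * t - u * q = u * (t - q) by ring]
      field_simp
      ring
    rw [k1, k2, k3]
  have hD2 : ∀ g, w 2 (D0 q t g) = u⁻¹ * w 2 g + (-u)⁻¹ * al q t u 3 * w 4 g + (-u)⁻¹ * al q t u 4 * w 5 g := by
    intro g
    rw [hw, hw, hw]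
    have hn := node_D0 q t (PP q t u 2) (u * q ^ 2) (u * t) (u * q ^ 2 * t) (mul_ne_zero hu0 (pow_ne_zero 2 hq))
      (mul_ne_zero hu0 ht) (fun h => h2 (mul_left_cancel₀ hu0 h)) (by
      intro k
      change 1 - u ^ (k + 1) + (1 - q ^ (k + 1)) * (1 - t ^ (k + 1)) * u ^ (k + 1) * (1 + q ^ (k + 1)) = _
      ring) g
    have ha : (fun k => PP q t u 2 k + (1 - q ^ (k + 1)) * (1 - t ^ (k + 1)) * (u * q ^ 2) ^ (k + 1)) = PP q t u 4 := by
      funext k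
      change 1 - u ^ (k + 1) + (1 - q ^ (k + 1)) * (1 - t ^ (k + 1)) * u ^ (k + 1) * (1 + q ^ (k + 1)) + _ =
        1 - u ^ (k + 1) + (1 - q ^ (k + 1)) * (1 - t ^ (k + 1)) * u ^ (k + 1) * (1 + q ^ (k + 1) + (q ^ (k + 1)) ^ 2)
      ring
    have hb : (fun k => PP q t u 2 k + (1 - q ^ (k + 1)) * (1 - t ^ (k + 1)) * (u * t) ^ (k + 1)) = PP q t u 5 := by
      funext k
      change 1 - u ^ (k + 1) + (1 - q ^ (k + 1)) * (1 - t ^ (k + 1)) * u ^ (k + 1) * (1 + q ^ (k + 1)) + _ =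
        1 - u ^ (k + 1) + (1 - q ^ (k + 1)) * (1 - t ^ (k + 1)) * u ^ (k + 1) * (1 + q ^ (k + 1) + t ^ (k + 1))
      ring
    rw [ha, hb] at hn
    change aeval (PP q t u 2) (D0 q t g) = u⁻¹ * aeval (PP q t u 2) g +
      (-u)⁻¹ * ((1 - t) * (1 - u * q ^ 2) / (q ^ 2 - t)) * aeval (PP q t u 4) g +
      (-u)⁻¹ * ((1 - q ^ 2) * (1 - u * t) / (t - q ^ 2)) * aeval (PP q t u 5) g
    rw [hn]
    have k1 : u * q ^ 2 * t / (u * q ^ 2 * (u * t)) = u⁻¹ := by field_simp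
    have k2 : (u * q ^ 2 - 1) * (u * q ^ 2 - u * q ^ 2 * t) / (u * q ^ 2 * (u * q ^ 2 - u * t)) =
        (-u)⁻¹ * ((1 - t) * (1 - u * q ^ 2) / (q ^ 2 - t)) := by
      rw [show u * q ^ 2 - u * t = u * (q ^ 2 - t) by ring]
      field_simp
      ring
    have k3 : (u * t - 1) * (u * t - u * q ^ 2 * t) / (u * t * (u * t - u * q ^ 2)) =
        (-u)⁻¹ * ((1 - q ^ 2) * (1 - u * t) / (t - q ^ 2)) := by
      rw [show u * t - u * q ^ 2 = u * (t - q ^ 2) by ring]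
      field_simp
      ring
    rw [k1, k2, k3]
  have hD3 : ∀ g, w 3 (D0 q t g) = u⁻¹ * w 3 g + (-u)⁻¹ * al q t u 5 * w 5 g + (-u)⁻¹ * al q t u 6 * w 6 g := by
    intro g
    rw [hw, hw, hw]
    have hn := node_D0 q t (PP q t u 3) (u * q) (u * t ^ 2) (u * q * t ^ 2) (mul_ne_zero hu0 hq)
      (mul_ne_zero hu0 (pow_ne_zero 2 ht)) (fun h => h3 (mul_left_cancel₀ hu0 h)) (by
      intro k
      change 1 - u ^ (k + 1) + (1 - q ^ (k + 1)) * (1 - t ^ (k + 1)) * u ^ (k + 1) * (1 + t ^ (k + 1)) = _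
      ring) g
    have ha : (fun k => PP q t u 3 k + (1 - q ^ (k + 1)) * (1 - t ^ (k + 1)) * (u * q) ^ (k + 1)) = PP q t u 5 := by
      funext k
      change 1 - u ^ (k + 1) + (1 - q ^ (k + 1)) * (1 - t ^ (k + 1)) * u ^ (k + 1) * (1 + t ^ (k + 1)) + _ =
        1 - u ^ (k + 1) + (1 - q ^ (k + 1)) * (1 - t ^ (k + 1)) * u ^ (k + 1) * (1 + q ^ (k + 1) + t ^ (k + 1))
      ring
    have hb : (fun k => PP q t u 3 k + (1 - q ^ (k + 1)) * (1 - t ^ (k + 1)) * (u * t ^ 2) ^ (k + 1)) = PP q t u 6 := by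
      funext k
      change 1 - u ^ (k + 1) + (1 - q ^ (k + 1)) * (1 - t ^ (k + 1)) * u ^ (k + 1) * (1 + t ^ (k + 1)) + _ =
        1 - u ^ (k + 1) + (1 - q ^ (k + 1)) * (1 - t ^ (k + 1)) * u ^ (k + 1) * (1 + t ^ (k + 1) + (t ^ (k + 1)) ^ 2)
      ring
    rw [ha, hb] at hn
    change aeval (PP q t u 3) (D0 q t g) = u⁻¹ * aeval (PP q t u 3) g +
      (-u)⁻¹ * ((1 - t ^ 2) * (1 - u * q) / (q - t ^ 2)) * aeval (PP q t u 5) g +
      (-u)⁻¹ * ((1 - q) * (1 - u * t ^ 2) / (t ^ 2 - q)) * aeval (PP q t u 6) g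
    rw [hn]
    have k1 : u * q * t ^ 2 / (u * q * (u * t ^ 2)) = u⁻¹ := by field_simp
    have k2 : (u * q - 1) * (u * q - u * q * t ^ 2) / (u * q * (u * q - u * t ^ 2)) =
        (-u)⁻¹ * ((1 - t ^ 2) * (1 - u * q) / (q - t ^ 2)) := by
      rw [show u * q - u * t ^ 2 = u * (q - t ^ 2) by ring]
      field_simp
      ring
    have k3 : (u * t ^ 2 - 1) * (u * t ^ 2 - u * q * t ^ 2) / (u * t ^ 2 * (u * t ^ 2 - u * q)) =
        (-u)⁻¹ * ((1 - q) * (1 - u * t ^ 2) / (t ^ 2 - q)) := by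
      rw [show u * t ^ 2 - u * q = u * (t ^ 2 - q) by ring]
      field_simp
      ring
    rw [k1, k2, k3]
  have key : ∀ n f g, ((((-u) * ((-u) ^ n)⁻¹) • (T 1 n).dualMap) f : Module.Dual K (MvPolynomial ℕ K)) g =
      (-u) * ((-u) ^ n)⁻¹ * f (T 1 n g) := fun n f g => rfl
  refine ⟨w, ?_, ?_, ?_, ?_⟩
  · rw [hw]
    congr 1
    unfold eps
    congr 1
    funext k
    change 1 - u ^ (k + 1) + (1 - q ^ (k + 1)) * (1 - t ^ (k + 1)) * u ^ (k + 1) * 0 = _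
    ring
  · intro i
    rw [hw, AlgHom.toLinearMap_apply, map_one]
  · intro i
    refine LinearMap.ext fun g => ?_
    rw [LinearMap.dualMap_apply, hT.t01, LinearMap.mulLeft_apply, hX]
    rfl
  · constructor
    · intro n hn
      obtain ⟨n, rfl⟩ : ∃ m, n = m + 1 := ⟨n - 1, by omega⟩
      refine LinearMap.ext fun g => ?_
      have hp : (-u) ^ (n + 1) ≠ 0 := pow_ne_zero _ hu'
      rw [key, node hM hT (w 0) (w 1) (w 1) (1 - u) 1 1 _ _ _ (fun g => by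
          rw [hX]
          change (1 - u + u * ((1 - q) * (1 - t)) * 0) * _ = _
          ring) (fun g => hX 1 g) (fun g => hX 1 g) hD0 n g, LinearMap.smul_apply, smul_eq_mul]
      field_simp
      ring
    · intro n hn
      obtain ⟨n, rfl⟩ : ∃ m, n = m + 1 := ⟨n - 1, by omega⟩
      refine LinearMap.ext fun g => ?_
      have hp : (-u) ^ (n + 1) ≠ 0 := pow_ne_zero _ hu'
      rw [key, node hM hT (w 1) (w 2) (w 3) (1 - u + u * ((1 - q) * (1 - t)) * 1) q t _ _ _ (fun g => hX 1 g) (fun g => by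
          rw [hX]
          change (1 - u + u * ((1 - q) * (1 - t)) * (1 + q)) * _ = _
          ring) (fun g => by
          rw [hX]
          change (1 - u + u * ((1 - q) * (1 - t)) * (1 + t)) * _ = _
          ring) hD1 n g, LinearMap.add_apply, LinearMap.smul_apply, LinearMap.smul_apply, smul_eq_mul, smul_eq_mul]
      field_simp
      ring
    · intro n hn
      obtain ⟨n, rfl⟩ : ∃ m, n = m + 1 := ⟨n - 1, by omega⟩
      refine LinearMap.ext fun g => ?_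
      have hp : (-u) ^ (n + 1) ≠ 0 := pow_ne_zero _ hu'
      rw [key, node hM hT (w 2) (w 4) (w 5) (1 - u + u * ((1 - q) * (1 - t)) * (1 + q)) (q ^ 2) t _ _ _ (fun g => hX 2 g)
        (fun g => by
          rw [hX]
          change (1 - u + u * ((1 - q) * (1 - t)) * (1 + q + q ^ 2)) * _ = _
          ring) (fun g => by
          rw [hX]
          change (1 - u + u * ((1 - q) * (1 - t)) * (1 + q + t)) * _ = _
          ring) hD2 n g, LinearMap.add_apply, LinearMap.smul_apply, LinearMap.smul_apply, smul_eq_mul, smul_eq_mul]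
      field_simp
      ring
    · intro n hn
      obtain ⟨n, rfl⟩ : ∃ m, n = m + 1 := ⟨n - 1, by omega⟩
      refine LinearMap.ext fun g => ?_
      have hp : (-u) ^ (n + 1) ≠ 0 := pow_ne_zero _ hu'
      rw [key, node hM hT (w 3) (w 5) (w 6) (1 - u + u * ((1 - q) * (1 - t)) * (1 + t)) q (t ^ 2) _ _ _ (fun g => hX 3 g)
        (fun g => by
          rw [hX]
          change (1 - u + u * ((1 - q) * (1 - t)) * (1 + q + t)) * _ = _
          ring) (fun g => by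
          rw [hX]
          change (1 - u + u * ((1 - q) * (1 - t)) * (1 + t + t ^ 2)) * _ = _
          ring) hD3 n g, LinearMap.add_apply, LinearMap.smul_apply, LinearMap.smul_apply, smul_eq_mul, smul_eq_mul]
      field_simp
      ring

end EllHall
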