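import Pool.Agent.Lib.MP_630b78_co.EH.Compare
import Pool.Agent.Lib.MP_630b78_co.EH.LTower
import Pool.Agent.Lib.MP_630b78_co.EH.RTower
import Pool.Agent.Lib.MP_630b78_co.EH.Hook
import Pool.Agent.Lib.MP_630b78_co.EH.JT
import Pool.Agent.Lib.MP_630b78_co.EH.Homog
import Pool.Agent.Lib.MP_630b78_co.EH.Part
import Pool.Agent.Lib.MP_630b78_co.EH.Exist
import Pool.Agent.Lib.MP_630b78_co.EH.Field

/-!
# Equality of the hook coefficients
-/

namespace EllHall

open MvPolynomial

section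

variable {K : Type} [Field K] [CharZero K] {q t u : K} {T : ℕ → ℕ → Module.End K (MvPolynomial ℕ K)}

theorem two_of (hM : (1 - q) * (1 - t) ≠ 0) (h1 : q ≠ t) (h2 : q ^ 2 ≠ t) (h3 : q ≠ t ^ 2) (hq : q ≠ 0) (ht : t ≠ 0)
    (hu0 : u ≠ 0) (hu : 1 - u ≠ 0) (huq : 1 - u * q ≠ 0) (hut : 1 - u * t ≠ 0) (huq2 : 1 - u * q ^ 2 ≠ 0)
    (hut2 : 1 - u * t ^ 2 ≠ 0) (hT : IsT q t T) :
    ∃ v w, Two q t u T (al q t u) v w (fun i => 1 - u + u * ((1 - q) * (1 - t)) * bb q t i) ∧
      w 0 = (eps u).toLinearMap := by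
  obtain ⟨v, hv0, hv1, hv⟩ := left_tower hM h1 h2 h3 hu huq hut huq2 hut2 hT
  obtain ⟨w, hw0, hw1, hwe, hw⟩ := right_tower hM h1 h2 h3 hq ht hu0 hu hT
  have hu' : -u ≠ 0 := neg_ne_zero.2 hu0
  have key : ∀ n, ∀ i g, w i (T 1 n g) =
      (-u) ^ n * (-u)⁻¹ * ((((-u) * ((-u) ^ n)⁻¹) • (T 1 n).dualMap) (w i)) g := by
    intro n i g
    have hp : (-u) ^ n ≠ 0 := pow_ne_zero _ hu'
    rw [LinearMap.smul_apply, LinearMap.smul_apply, smul_eq_mul, LinearMap.dualMap_apply, ← mul_assoc,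
      show (-u) ^ n * (-u)⁻¹ * (-u * ((-u) ^ n)⁻¹) = ((-u) ^ n * ((-u) ^ n)⁻¹) * ((-u)⁻¹ * -u) by ring,
      mul_inv_cancel₀ hp, inv_mul_cancel₀ hu', one_mul, one_mul]
  refine ⟨v, w, ?_, hw0⟩
  constructor
  · exact hv0.symm
  · intro i
    rw [hw0]
    exact hv1 i
  · intro i
    rw [hv0]
    exact hw1 i
  · exact fun n hn => hv.r0 n hn
  · exact fun n hn => hv.r1 n hn
  · exact fun n hn => hv.r2 n hn
  · exact fun n hn => hv.r3 n hn
  · intro n hn g
    rw [key, hw.r0 n hn]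
    rfl
  · intro n hn g
    rw [key, hw.r1 n hn]
    rfl
  · intro n hn g
    rw [key, hw.r2 n hn]
    rfl
  · intro n hn g
    rw [key, hw.r3 n hn]
    rfl
  · intro i g
    rw [← LinearMap.dualMap_apply, hwe]
    rfl
  · change 1 - u + u * ((1 - q) * (1 - t)) * 0 = _
    ring
  · rfl
  · rfl
  · rfl
  · rfl
  · rfl
  · exact al_rel h1 h2 h3

theorem parts_cases (d : ℕ) (hd : d ≤ 3) (μ : Nat.Partition d) : μ.parts = Multiset.replicate d 1 ∨
    ∃ j, 1 ≤ j ∧ j < d ∧ μ.parts = (j + 1) ::ₘ Multiset.replicate (d - 1 - j) 1 := by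
  rcases bar_small d hd μ with h | ⟨j, h1, _, h⟩
  · exact Or.inl ((bar_zero_iff d μ).1 h)
  · obtain ⟨h2, h3⟩ := (bar_single_iff d j h1 μ).1 h
    exact Or.inr ⟨j, h1, h2, h3⟩

variable {A : Fin 7 → K} {v : Fin 7 → MvPolynomial ℕ K} {w : Fin 7 → Module.Dual K (MvPolynomial ℕ K)} {e : Fin 7 → K}

theorem compare_op (hM : (1 - q) * (1 - t) ≠ 0) (hT : IsT q t T) (h : Two q t u T A v w e) (hu : u ≠ 0) (a b d : ℕ)
    (ha : 1 ≤ a) (hd : 1 ≤ d) (hab : a ≤ b) (hb : 2 ≤ b) (hc : Nat.Coprime a b) (had : a * d ≤ 3) (μ : Nat.Partition d) :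
    (-u) ^ (a * d) * w 0 (opProd T (fun _ => 1) a b μ.parts 1) =
      (-u) ^ (b * d) * w 0 (opProd T (fun _ => 1) b a μ.parts 1) := by
  have hd3 : d ≤ 3 := le_trans (Nat.le_mul_of_pos_left d ha) had
  have ha3 : a ≤ 3 := le_trans (Nat.le_mul_of_pos_right a hd) had
  have hb1 : 1 ≤ b := by omega
  unfold opProd
  rcases parts_cases d hd3 μ with hp | ⟨j, hj1, hj2, hp⟩
  · rw [hp, sort_ones]
    interval_cases d
    · simp only [List.replicate, List.map_cons, List.map_nil, List.prod_cons, List.prod_nil, mul_one, one_smul]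
      interval_cases a
      · exact cmp_E1 h hu hb1
      · have hodd : ∃ m, b = 2 * m + 1 ∧ 1 ≤ m := by
          have h2 : ¬ 2 ∣ b := fun h2 => by
            have := Nat.Coprime.eq_one_of_dvd hc h2
            omega
          exact ⟨b / 2, by omega, by omega⟩
        obtain ⟨m, rfl, hm⟩ := hodd
        exact cmp_F2 hM hT h hu hm
      · have h3 : ¬ 3 ∣ b := fun h2 => by
            have := Nat.Coprime.eq_one_of_dvd hc h2
            omega
        rcases (by omega : b % 3 = 1 ∨ b % 3 = 2) with h4 | h4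
        · obtain ⟨m, rfl, hm⟩ : ∃ m, b = 3 * m + 1 ∧ 1 ≤ m := ⟨b / 3, by omega, by omega⟩
          exact cmp_F3a hM hT h hu hm
        · obtain ⟨m, rfl, hm⟩ : ∃ m, b = 3 * m + 2 ∧ 1 ≤ m := ⟨b / 3, by omega, by omega⟩
          exact cmp_F3b hM hT h hu hm
    · have ha1 : a = 1 := by omega
      subst ha1
      simp only [List.replicate, List.map_cons, List.map_nil, List.prod_cons, List.prod_nil, mul_one, one_smul, one_mul,
        Module.End.mul_apply]
      exact cmp_E11 h hu hb1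
    · have ha1 : a = 1 := by omega
      subst ha1
      simp only [List.replicate, List.map_cons, List.map_nil, List.prod_cons, List.prod_nil, mul_one, one_smul, one_mul,
        Module.End.mul_apply]
      exact cmp_E111 h hu hb1
  · rw [hp, sort_hook]
    have ha1 : a = 1 := by
      have : 2 ≤ d := by omega
      nlinarith
    subst ha1
    obtain ⟨m, rfl, hm⟩ : ∃ m, b = m + 1 ∧ 1 ≤ m := ⟨b - 1, by omega, by omega⟩
    interval_cases d
    · omega
    · have hj : j = 1 := by omega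
      subst hj
      simp only [show 2 - 1 - 1 = 0 from rfl, List.replicate, List.map_cons, List.map_nil, List.prod_cons, List.prod_nil, mul_one, one_smul, one_mul,
        Module.End.mul_apply]
      rw [show (m + 1) * (1 + 1) = 2 * m + 2 by ring, show 1 + 1 = 2 by rfl]
      exact cmp_E2 hM hT h hu hm
    · rcases (by omega : j = 1 ∨ j = 2) with hj | hj
      · subst hj
        simp only [show 3 - 1 - 1 = 1 from rfl, List.replicate, List.map_cons, List.map_nil, List.prod_cons, List.prod_nil, mul_one,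
          one_smul, one_mul, Module.End.mul_apply]
        rw [show (m + 1) * (1 + 1) = 2 * m + 2 by ring, show (m + 1) * 3 = 3 * m + 3 by ring, show 1 + 1 = 2 by rfl]
        exact cmp_E21 hM hT h hu hm
      · subst hj
        simp only [show 3 - 1 - 2 = 0 from rfl, List.replicate, List.map_cons, List.map_nil, List.prod_cons, List.prod_nil, mul_one,
          one_smul, one_mul, Module.End.mul_apply]
        rw [show (m + 1) * (2 + 1) = 3 * m + 3 by ring, show 2 + 1 = 3 by rfl]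
        exact cmp_E3 hM hT h hu hm

theorem compare_ff (hM : (1 - q) * (1 - t) ≠ 0) (hT : IsT q t T) (h : Two q t u T A v w e) (hu : u ≠ 0) (a b d : ℕ)
    (ha : 1 ≤ a) (hd : 1 ≤ d) (hab : a ≤ b) (hb : 2 ≤ b) (hc : Nat.Coprime a b) (had : a * d ≤ 3) (c : Nat.Partition d → K) :
    (-u) ^ (a * d) * w 0 (ff T (fun _ => 1) c a b) = (-u) ^ (b * d) * w 0 (ff T (fun _ => 1) c b a) := by
  unfold ff
  rw [map_sum, map_sum, Finset.mul_sum, Finset.mul_sum]
  refine Finset.sum_congr rfl fun μ _ => ?_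
  rw [map_smul, map_smul, smul_eq_mul, smul_eq_mul]
  linear_combination (c μ) * compare_op hM hT h hu a b d ha hd hab hb hc had μ

theorem coeff_sum (n : ℕ) (C : ℕ → K) (i : ℕ) :
    (∑ k ∈ Finset.range n, Polynomial.X ^ k * Polynomial.C (C k) : Polynomial K).coeff i = if i < n then C i else 0 := by
  rw [Polynomial.finset_sum_coeff]
  simp only [Polynomial.coeff_mul_C, Polynomial.coeff_X_pow]
  split_ifs with h
  · rw [Finset.sum_eq_single i]
    · rw [if_pos rfl, one_mul]
    · intro k _ hk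
      rw [if_neg (Ne.symm hk), zero_mul]
    · intro h'
      exact absurd (Finset.mem_range.2 h) h'
  · refine Finset.sum_eq_zero fun k hk => ?_
    rw [Finset.mem_range] at hk
    rw [if_neg (by omega), zero_mul]

/-- the passage from the values at infinitely many `u` to the coefficients -/
theorem coeffs_of_values (m n : ℕ) (C c : ℕ → K) (S : Set K) (hS : S.Infinite)
    (h : ∀ x ∈ S, x ^ m * ∑ k ∈ Finset.range n, x ^ k * C k = x ^ n * ∑ k ∈ Finset.range m, x ^ k * c k) :
    ∀ j, j < n → C (n - 1 - j) = if j < m then c (m - 1 - j) else 0 := by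
  have hP : (Polynomial.X ^ m * ∑ k ∈ Finset.range n, Polynomial.X ^ k * Polynomial.C (C k) : Polynomial K) =
      Polynomial.X ^ n * ∑ k ∈ Finset.range m, Polynomial.X ^ k * Polynomial.C (c k) := by
    apply Polynomial.eq_of_infinite_eval_eq
    refine hS.mono fun x hx => ?_
    have h1 := h x hx
    simp only [Set.mem_setOf_eq, Polynomial.eval_mul, Polynomial.eval_pow, Polynomial.eval_X, Polynomial.eval_finset_sum,
      Polynomial.eval_C]
    exact h1
  intro j hj
  have h1 : (Polynomial.X ^ m * ∑ k ∈ Finset.range n, Polynomial.X ^ k * Polynomial.C (C k) : Polynomial K).coeff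
      ((n - 1 - j) + m) = (Polynomial.X ^ n * ∑ k ∈ Finset.range m, Polynomial.X ^ k * Polynomial.C (c k)).coeff
      ((n - 1 - j) + m) := by rw [hP]
  rw [Polynomial.coeff_X_pow_mul, coeff_sum, if_pos (by omega)] at h1
  rw [h1, Polynomial.coeff_X_pow_mul']
  split_ifs with h2 h3 h3
  · rw [coeff_sum, if_pos (by omega)]
    congr 1
    omega
  · omega
  · omega
  · rfl

/-- the equality of the hook coefficients, for the operators with the corrected signs -/
theorem hooks_eq (hM : (1 - q) * (1 - t) ≠ 0) (h1 : q ≠ t) (h2 : q ^ 2 ≠ t) (h3 : q ≠ t ^ 2) (hq : q ≠ 0) (ht : t ≠ 0)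
    (hT : IsT q t T) (a b d : ℕ) (ha : 1 ≤ a) (hd : 1 ≤ d) (hab : a ≤ b) (hb : 2 ≤ b) (hc : Nat.Coprime a b)
    (had : a * d ≤ 3) (c : Nat.Partition d → K)
    (hf : IsWeightedHomogeneous (fun k : ℕ => k + 1) (ff T (fun _ => 1) c a b) (b * d))
    (hg : IsWeightedHomogeneous (fun k : ℕ => k + 1) (ff T (fun _ => 1) c b a) (a * d)) (j : ℕ) (hj : j < b * d) :
    hall (ff T (fun _ => 1) c a b) (hook K j (b * d - 1 - j)) =
      if j < a * d then hall (ff T (fun _ => 1) c b a) (hook K j (a * d - 1 - j)) else 0 := by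
  have hbd : 1 ≤ b * d := Nat.one_le_iff_ne_zero.2 (Nat.mul_ne_zero (by omega) (by omega))
  have hadp : 1 ≤ a * d := Nat.one_le_iff_ne_zero.2 (Nat.mul_ne_zero (by omega) (by omega))
  have hS : ({x : K | x ≠ 0 ∧ 1 + x ≠ 0 ∧ 1 + x * q ≠ 0 ∧ 1 + x * t ≠ 0 ∧ 1 + x * q ^ 2 ≠ 0 ∧ 1 + x * t ^ 2 ≠ 0}).Infinite := by
    have hfin : ({0, -1, -q⁻¹, -t⁻¹, -(q ^ 2)⁻¹, -(t ^ 2)⁻¹} : Set K).Finite := Set.toFinite _
    refine (hfin.infinite_compl).mono fun x hx => ?_
    simp only [Set.mem_compl_iff, Set.mem_insert_iff, Set.mem_singleton_iff, not_or] at hx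
    obtain ⟨x0, x1, x2, x3, x4, x5⟩ := hx
    refine ⟨x0, fun h => x1 ?_, fun h => x2 ?_, fun h => x3 ?_, fun h => x4 ?_, fun h => x5 ?_⟩
    · linear_combination h
    · field_simp
      linear_combination h
    · field_simp
      linear_combination h
    · field_simp
      linear_combination h
    · field_simp
      linear_combination h
  have key := coeffs_of_values (a * d) (b * d) (fun k => hall (ff T (fun _ => 1) c a b) (hook K (b * d - 1 - k) k))
    (fun k => hall (ff T (fun _ => 1) c b a) (hook K (a * d - 1 - k) k)) _ hS (by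
      rintro x ⟨x0, x1, x2, x3, x4, x5⟩
      have e0 : 1 - -x ≠ 0 := by rwa [sub_neg_eq_add]
      obtain ⟨v, w, hvw, hw0⟩ := two_of (u := -x) hM h1 h2 h3 hq ht (neg_ne_zero.2 x0) e0
        (by rwa [neg_mul, sub_neg_eq_add]) (by rwa [neg_mul, sub_neg_eq_add]) (by rwa [neg_mul, sub_neg_eq_add])
        (by rwa [neg_mul, sub_neg_eq_add]) hT
      have h4 := compare_ff hM hT hvw (neg_ne_zero.2 x0) a b d ha hd hab hb hc had c
      rw [hw0] at h4
      simp only [AlgHom.toLinearMap_apply, neg_neg] at h4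
      rw [eps_eq (-x) (b * d) hbd _ hf, eps_eq (-x) (a * d) hadp _ hg] at h4
      simp only [neg_neg] at h4
      refine mul_left_cancel₀ e0 ?_
      linear_combination h4)
  have h5 := key j hj
  rw [show b * d - 1 - (b * d - 1 - j) = j by omega] at h5
  rw [h5]
  split_ifs with h6
  · rw [show a * d - 1 - (a * d - 1 - j) = j by omega]
  · rfl

end

end EllHall
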