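import Pool.Agent.Lib.MP_630b78_co.EH.Defs

/-!
# The operator D_0 and the multiplication by p_1 on the Macdonald polynomials with at most three boxes

`D0_HH`: compute `shift q t` of `1, p_1, p_1^2, p_2, p_1^3, p_1 p_2, p_3` as explicit polynomials `∑ c_n w^n` (`n ≤ 3`), so that
`D0 g = ∑ c_n (-1)^n e_n` with `e_1 = p_1`, `e_2 = (p_1^2 - p_2)/2`, `e_3 = (p_1^3 - 3 p_1 p_2 + 2 p_3)/6`; e.g. `D0 (p_1) = (1 - M) p_1`,
`D0 (p_1^2) = (1 - 2M) p_1^2 + M^2 e_2`, `M_k = (1-q^k)(1-t^k)`, `M = M_1`.  (First a lemma: `D0` of `g` is `∑ c_n (-1)^n e_n` whenever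
`shift g = ∑_(n<N) C c_n * X^n`.)  Everything else is linear algebra and `ring` in the coefficients.
`mul_HH`: s-expansions `p_1 s_2 = s_3 + s_21` etc. are polynomial identities in `X 0, X 1, X 2`; compare coefficients.
-/

namespace EllHall

open MvPolynomial

variable {K : Type} [Field K] [CharZero K]

omit [CharZero K] in
private theorem ee_zero : ee K 0 = 1 := by
  rw [ee]

omit [CharZero K] in
private theorem ee_one : ee K 1 = X 0 := by
  rw [ee]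
  simp [ee_zero]

private theorem c6 : C (6⁻¹ : K) * (6 : MvPolynomial ℕ K) = 1 := by
  rw [← map_ofNat (C : K →+* MvPolynomial ℕ K) 6, ← map_mul, ← map_one C]
  congr 1
  norm_num

private theorem c2 : C (2⁻¹ : K) = C (6⁻¹ : K) * (3 : MvPolynomial ℕ K) := by
  rw [← map_ofNat (C : K →+* MvPolynomial ℕ K) 3, ← map_mul]
  congr 1
  norm_num

private theorem c3 : C (3⁻¹ : K) = C (6⁻¹ : K) * (2 : MvPolynomial ℕ K) := by
  rw [← map_ofNat (C : K →+* MvPolynomial ℕ K) 2, ← map_mul]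
  congr 1
  norm_num

private theorem ee_two : ee K 2 = C (6⁻¹ : K) * (3 * (X 0 ^ 2 - X 1)) := by
  rw [ee, Fin.sum_univ_two]
  simp only [Fin.val_zero, Fin.val_one, Nat.sub_zero, Nat.sub_self, ee_one, ee_zero]
  have h : C (((1 + 1 : ℕ) : K)⁻¹) = C (6⁻¹ : K) * (3 : MvPolynomial ℕ K) := by
    rw [← c2]
    norm_num
  rw [h]
  ring

private theorem ee_three : ee K 3 = C (6⁻¹ : K) * (X 0 ^ 3 - 3 * X 0 * X 1 + 2 * X 2) := by
  rw [ee, Fin.sum_univ_three]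
  have e1 : (2 : ℕ) - 1 = 1 := rfl
  simp only [Fin.val_zero, Fin.val_one, Fin.val_two, Nat.sub_zero, Nat.sub_self, e1, ee_one, ee_zero,
    ee_two]
  have h : C (((2 + 1 : ℕ) : K)⁻¹) = C (6⁻¹ : K) * (2 : MvPolynomial ℕ K) := by
    rw [← c3]
    norm_num
  rw [h]
  linear_combination (C (6⁻¹ : K) * (X 0 ^ 3 - X 0 * X 1)) * (c6 (K := K))

private theorem D0_of (q t : K) (g c0 c1 c2 c3 : MvPolynomial ℕ K)
    (h : shift q t g = Polynomial.C c0 + Polynomial.C c1 * Polynomial.X +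
      Polynomial.C c2 * Polynomial.X ^ 2 + Polynomial.C c3 * Polynomial.X ^ 3) :
    D0 q t g = c0 - c1 * X 0 + c2 * (C (6⁻¹ : K) * (3 * (X 0 ^ 2 - X 1))) -
      c3 * (C (6⁻¹ : K) * (X 0 ^ 3 - 3 * X 0 * X 1 + 2 * X 2)) := by
  show (shift q t g).sum (fun n c => c * ((-1) ^ n * ee K n)) = _
  have hd : (shift q t g).natDegree < 4 := by
    rw [h]
    have : (Polynomial.C c0 + Polynomial.C c1 * Polynomial.X +
      Polynomial.C c2 * Polynomial.X ^ 2 + Polynomial.C c3 * Polynomial.X ^ 3).natDegree ≤ 3 := by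
      compute_degree
    omega
  rw [Polynomial.sum_over_range' _ (fun n => by simp) 4 hd, h]
  simp only [Finset.sum_range_succ, Finset.sum_range_zero, ← ee_two, ← ee_three]
  simp [Polynomial.coeff_X, Polynomial.coeff_C, ee_one, ee_zero]
  ring

/-- the polynomial `a + b p_1 + c p_1^2 + d p_2 + e p_1^3 + f p_1 p_2 + g p_3` -/
private noncomputable def tem (a b c d e f g : K) : MvPolynomial ℕ K :=
  C a + C b * X 0 + C c * X 0 ^ 2 + C d * X 1 + C e * X 0 ^ 3 + C f * (X 0 * X 1) + C g * X 2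

private theorem D0_tem (q t a b c d e f g M1 M2 M3 : K) (h1 : M1 = (1 - q) * (1 - t))
    (h2 : M2 = (1 - q ^ 2) * (1 - t ^ 2)) (h3 : M3 = (1 - q ^ 3) * (1 - t ^ 3)) :
    D0 q t (tem a b c d e f g) = tem a (b - b * M1)
      (c - 2 * c * M1 + 2⁻¹ * (c * M1 ^ 2 + d * M2)) (d - 2⁻¹ * (c * M1 ^ 2 + d * M2))
      (e - 3 * e * M1 + 2⁻¹ * (3 * e * M1 ^ 2 + f * M2) - 6⁻¹ * (e * M1 ^ 3 + f * M1 * M2 + g * M3))
      (f - f * M1 - 2⁻¹ * (3 * e * M1 ^ 2 + f * M2) + 2⁻¹ * (e * M1 ^ 3 + f * M1 * M2 + g * M3))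
      (g - 3⁻¹ * (e * M1 ^ 3 + f * M1 * M2 + g * M3)) := by
  have h : shift q t (tem a b c d e f g) = Polynomial.C (tem a b c d e f g) +
      Polynomial.C (C b * C M1 + 2 * C c * C M1 * X 0 + 3 * C e * C M1 * X 0 ^ 2 + C f * C M1 * X 1) *
        Polynomial.X +
      Polynomial.C (C c * C M1 ^ 2 + C d * C M2 + (3 * C e * C M1 ^ 2 + C f * C M2) * X 0) *
        Polynomial.X ^ 2 +
      Polynomial.C (C e * C M1 ^ 3 + C f * C M1 * C M2 + C g * C M3) * Polynomial.X ^ 3 := by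
    have hX : ∀ k, shift q t (X k : MvPolynomial ℕ K) = Polynomial.C (X k) +
        Polynomial.C (C ((1 - q ^ (k + 1)) * (1 - t ^ (k + 1)))) * Polynomial.X ^ (k + 1) := by
      intro k
      unfold shift
      rw [aeval_X]
    have hC : ∀ x : K, shift q t (C x : MvPolynomial ℕ K) = Polynomial.C (C x) := by
      intro x
      unfold shift
      rw [aeval_C]
      rfl
    have e0 : shift q t (X 0 : MvPolynomial ℕ K) = Polynomial.C (X 0) + Polynomial.C (C M1) * Polynomial.X := by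
      rw [hX 0, h1]
      simp only [zero_add, pow_one]
    have e1 : shift q t (X 1 : MvPolynomial ℕ K) =
        Polynomial.C (X 1) + Polynomial.C (C M2) * Polynomial.X ^ 2 := by
      rw [hX 1, h2]
    have e2 : shift q t (X 2 : MvPolynomial ℕ K) =
        Polynomial.C (X 2) + Polynomial.C (C M3) * Polynomial.X ^ 3 := by
      rw [hX 2, h3]
    unfold tem
    simp only [map_add, map_mul, map_pow, hC, e0, e1, e2, map_ofNat]
    ring
  rw [D0_of q t _ _ _ _ _ h]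
  unfold tem
  have e2 : C (2⁻¹ : K) = C (6⁻¹ : K) * (3 : MvPolynomial ℕ K) := c2
  have e3 : C (3⁻¹ : K) = C (6⁻¹ : K) * (2 : MvPolynomial ℕ K) := c3
  simp only [map_add, map_mul, map_sub, map_pow, map_ofNat, e2, e3]
  ring

private theorem H_tem (x y : K) : C (6⁻¹ : K) * (X 0 ^ 3 + 3 * X 0 * X 1 + 2 * X 2) +
    C x * (C (3⁻¹ : K) * (X 0 ^ 3 - X 2)) +
    C y * (C (6⁻¹ : K) * (X 0 ^ 3 - 3 * X 0 * X 1 + 2 * X 2)) =
    tem 0 0 0 0 (6⁻¹ * (1 + 2 * x + y)) (6⁻¹ * (3 * (1 - y))) (6⁻¹ * (2 * (1 - x + y))) := by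
  unfold tem
  simp only [map_add, map_mul, map_sub, map_one, map_ofNat, map_zero, c3]
  ring

omit [CharZero K] in
private theorem H_tem2 (x : K) : C (2⁻¹ : K) * (X 0 ^ 2 + X 1) + C x * (C (2⁻¹ : K) * (X 0 ^ 2 - X 1)) =
    tem 0 0 (2⁻¹ * (1 + x)) (2⁻¹ * (1 - x)) 0 0 0 := by
  unfold tem
  simp only [map_add, map_mul, map_sub, map_one, map_zero]
  ring

omit [CharZero K] in
private theorem smul_tem (r a b c d e f g : K) : r • tem a b c d e f g =
    tem (r * a) (r * b) (r * c) (r * d) (r * e) (r * f) (r * g) := by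
  unfold tem
  rw [smul_eq_C_mul]
  simp only [map_mul]
  ring

omit [CharZero K] in
private theorem tem_congr {a b c d e f g a' b' c' d' e' f' g' : K} (h1 : a = a') (h2 : b = b')
    (h3 : c = c') (h4 : d = d') (h5 : e = e') (h6 : f = f') (h7 : g = g') :
    tem a b c d e f g = tem a' b' c' d' e' f' g' := by
  rw [h1, h2, h3, h4, h5, h6, h7]

theorem D0_HH (q t : K) (i : Fin 7) : D0 q t (HH q t i) = (1 - (1 - q) * (1 - t) * bb q t i) • HH q t i := by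
  have h0 : HH q t 0 = tem 1 0 0 0 0 0 0 := by
    show (1 : MvPolynomial ℕ K) = _
    unfold tem
    simp only [map_one, map_zero]
    ring
  have h1 : HH q t 1 = tem 0 1 0 0 0 0 0 := by
    show (X 0 : MvPolynomial ℕ K) = _
    unfold tem
    simp only [map_one, map_zero]
    ring
  have h2 : HH q t 2 = _ := H_tem2 q
  have h3 : HH q t 3 = _ := H_tem2 t
  have h4 : HH q t 4 = _ := H_tem (q + q ^ 2) (q ^ 3)
  have h5 : HH q t 5 = _ := H_tem (q + t) (q * t)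
  have h6 : HH q t 6 = _ := H_tem (t + t ^ 2) (t ^ 3)
  fin_cases i
  · show D0 q t (HH q t 0) = (1 - (1 - q) * (1 - t) * 0) • HH q t 0
    rw [h0, D0_tem q t _ _ _ _ _ _ _ _ _ _ rfl rfl rfl, smul_tem]
    apply tem_congr <;> ring
  · show D0 q t (HH q t 1) = (1 - (1 - q) * (1 - t) * 1) • HH q t 1
    rw [h1, D0_tem q t _ _ _ _ _ _ _ _ _ _ rfl rfl rfl, smul_tem]
    apply tem_congr <;> ring
  · show D0 q t (HH q t 2) = (1 - (1 - q) * (1 - t) * (1 + q)) • HH q t 2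
    rw [h2, D0_tem q t _ _ _ _ _ _ _ _ _ _ rfl rfl rfl, smul_tem]
    apply tem_congr <;> ring
  · show D0 q t (HH q t 3) = (1 - (1 - q) * (1 - t) * (1 + t)) • HH q t 3
    rw [h3, D0_tem q t _ _ _ _ _ _ _ _ _ _ rfl rfl rfl, smul_tem]
    apply tem_congr <;> ring
  · show D0 q t (HH q t 4) = (1 - (1 - q) * (1 - t) * (1 + q + q ^ 2)) • HH q t 4
    rw [h4, D0_tem q t _ _ _ _ _ _ _ _ _ _ rfl rfl rfl, smul_tem]
    apply tem_congr <;> ring
  · show D0 q t (HH q t 5) = (1 - (1 - q) * (1 - t) * (1 + q + t)) • HH q t 5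
    rw [h5, D0_tem q t _ _ _ _ _ _ _ _ _ _ rfl rfl rfl, smul_tem]
    apply tem_congr <;> ring
  · show D0 q t (HH q t 6) = (1 - (1 - q) * (1 - t) * (1 + t + t ^ 2)) • HH q t 6
    rw [h6, D0_tem q t _ _ _ _ _ _ _ _ _ _ rfl rfl rfl, smul_tem]
    apply tem_congr <;> ring

theorem mul_HH0 (q t : K) : X 0 * HH q t 0 = HH q t 1 := by
  show X 0 * (1 : MvPolynomial ℕ K) = X 0
  rw [mul_one]

theorem mul_HH1 (q t : K) (h : q ≠ t) :
    X 0 * HH q t 1 = ((1 - t) / (q - t)) • HH q t 2 + ((1 - q) / (t - q)) • HH q t 3 := by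
  have hs1 : q - t ≠ 0 := sub_ne_zero.2 h
  have hs2 : t - q ≠ 0 := sub_ne_zero.2 h.symm
  have h1 : (1 - t) / (q - t) + (1 - q) / (t - q) = 1 := by
    have : t - q = -(q - t) := by ring
    rw [this]
    field_simp
    ring
  have h2 : (1 - t) / (q - t) * q + (1 - q) / (t - q) * t = 1 := by
    have : t - q = -(q - t) := by ring
    rw [this]
    field_simp
    ring
  obtain ⟨A, hA⟩ : ∃ A, A = (1 - t) / (q - t) := ⟨_, rfl⟩
  obtain ⟨B, hB⟩ : ∃ B, B = (1 - q) / (t - q) := ⟨_, rfl⟩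
  rw [← hA, ← hB] at h1 h2 ⊢
  have g1 : (C A + C B : MvPolynomial ℕ K) = 1 := by rw [← map_add, h1, map_one]
  have g2 : (C A * C q + C B * C t : MvPolynomial ℕ K) = 1 := by
    rw [← map_mul, ← map_mul, ← map_add, h2, map_one]
  rw [smul_eq_C_mul, smul_eq_C_mul]
  show X 0 * X 0 = C A * (C (2⁻¹ : K) * (X 0 ^ 2 + X 1) + C q * (C (2⁻¹ : K) * (X 0 ^ 2 - X 1))) +
    C B * (C (2⁻¹ : K) * (X 0 ^ 2 + X 1) + C t * (C (2⁻¹ : K) * (X 0 ^ 2 - X 1)))
  rw [c2]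
  linear_combination (-(C (6⁻¹ : K) * 3 * (X 0 ^ 2 + X 1))) * g1 -
    (C (6⁻¹ : K) * 3 * (X 0 ^ 2 - X 1)) * g2 - X 0 ^ 2 * (c6 (K := K))

private theorem mul_three (x A B x1 y1 x2 y2 : K) (h1 : A + B = 1)
    (h2 : A * x1 + B * x2 = 1 + x) (h3 : A * y1 + B * y2 = x) :
    X 0 * (C (2⁻¹ : K) * (X 0 ^ 2 + X 1) + C x * (C (2⁻¹ : K) * (X 0 ^ 2 - X 1))) =
    A • (C (6⁻¹ : K) * (X 0 ^ 3 + 3 * X 0 * X 1 + 2 * X 2) + C x1 * (C (3⁻¹ : K) * (X 0 ^ 3 - X 2)) +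
      C y1 * (C (6⁻¹ : K) * (X 0 ^ 3 - 3 * X 0 * X 1 + 2 * X 2))) +
    B • (C (6⁻¹ : K) * (X 0 ^ 3 + 3 * X 0 * X 1 + 2 * X 2) + C x2 * (C (3⁻¹ : K) * (X 0 ^ 3 - X 2)) +
      C y2 * (C (6⁻¹ : K) * (X 0 ^ 3 - 3 * X 0 * X 1 + 2 * X 2))) := by
  have g1 : (C A + C B : MvPolynomial ℕ K) = 1 := by rw [← map_add, h1, map_one]
  have g2 : (C A * C x1 + C B * C x2 : MvPolynomial ℕ K) = 1 + C x := by
    rw [← map_mul, ← map_mul, ← map_add, h2, map_add, map_one]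
  have g3 : (C A * C y1 + C B * C y2 : MvPolynomial ℕ K) = C x := by
    rw [← map_mul, ← map_mul, ← map_add, h3]
  rw [smul_eq_C_mul, smul_eq_C_mul, c2, c3]
  linear_combination (-(C (6⁻¹ : K) * (X 0 ^ 3 + 3 * X 0 * X 1 + 2 * X 2))) * g1 -
    (C (6⁻¹ : K) * 2 * (X 0 ^ 3 - X 2)) * g2 -
    (C (6⁻¹ : K) * (X 0 ^ 3 - 3 * X 0 * X 1 + 2 * X 2)) * g3

theorem mul_HH2 (q t : K) (h : q ^ 2 ≠ t) :
    X 0 * HH q t 2 = ((1 - t) / (q ^ 2 - t)) • HH q t 4 + ((1 - q ^ 2) / (t - q ^ 2)) • HH q t 5 := by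
  have hs1 : q ^ 2 - t ≠ 0 := sub_ne_zero.2 h
  have hs : t - q ^ 2 = -(q ^ 2 - t) := by ring
  refine mul_three q _ _ (q + q ^ 2) (q ^ 3) (q + t) (q * t) ?_ ?_ ?_
  all_goals
    rw [hs]
    field_simp
    ring

theorem mul_HH3 (q t : K) (h : q ≠ t ^ 2) :
    X 0 * HH q t 3 = ((1 - t ^ 2) / (q - t ^ 2)) • HH q t 5 + ((1 - q) / (t ^ 2 - q)) • HH q t 6 := by
  have hs1 : q - t ^ 2 ≠ 0 := sub_ne_zero.2 h
  have hs : t ^ 2 - q = -(q - t ^ 2) := by ring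
  refine mul_three t _ _ (q + t) (q * t) (t + t ^ 2) (t ^ 3) ?_ ?_ ?_
  all_goals
    rw [hs]
    field_simp
    ring

omit [CharZero K] in
private theorem eps_X (u : K) (k : ℕ) : eps u (X k : MvPolynomial ℕ K) = 1 - u ^ (k + 1) := by
  unfold eps
  rw [aeval_X]

omit [CharZero K] in
private theorem eps_C (u x : K) : eps u (C x : MvPolynomial ℕ K) = x := by
  unfold eps
  rw [aeval_C]
  rfl

theorem eps_HH (q t u : K) (i : Fin 7) : eps u (HH q t i) =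
    (![1, 1 - u, (1 - u) * (1 - u * q), (1 - u) * (1 - u * t), (1 - u) * (1 - u * q) * (1 - u * q ^ 2),
      (1 - u) * (1 - u * q) * (1 - u * t), (1 - u) * (1 - u * t) * (1 - u * t ^ 2)] : Fin 7 → K) i := by
  have ht : ∀ a b c d e f g : K, eps u (tem a b c d e f g) = a + b * (1 - u) + c * (1 - u) ^ 2 +
      d * (1 - u ^ 2) + e * (1 - u) ^ 3 + f * ((1 - u) * (1 - u ^ 2)) + g * (1 - u ^ 3) := by
    intro a b c d e f g
    unfold tem
    simp only [map_add, map_mul, map_pow, eps_X, eps_C, zero_add, pow_one]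
  have h2 : HH q t 2 = _ := H_tem2 q
  have h3 : HH q t 3 = _ := H_tem2 t
  have h4 : HH q t 4 = _ := H_tem (q + q ^ 2) (q ^ 3)
  have h5 : HH q t 5 = _ := H_tem (q + t) (q * t)
  have h6 : HH q t 6 = _ := H_tem (t + t ^ 2) (t ^ 3)
  fin_cases i
  · show eps u (1 : MvPolynomial ℕ K) = 1
    exact map_one _
  · show eps u (X 0 : MvPolynomial ℕ K) = 1 - u
    rw [eps_X, zero_add, pow_one]
  · show eps u (HH q t 2) = (1 - u) * (1 - u * q)
    rw [h2, ht]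
    ring
  · show eps u (HH q t 3) = (1 - u) * (1 - u * t)
    rw [h3, ht]
    ring
  · show eps u (HH q t 4) = (1 - u) * (1 - u * q) * (1 - u * q ^ 2)
    rw [h4, ht]
    ring
  · show eps u (HH q t 5) = (1 - u) * (1 - u * q) * (1 - u * t)
    rw [h5, ht]
    ring
  · show eps u (HH q t 6) = (1 - u) * (1 - u * t) * (1 - u * t ^ 2)
    rw [h6, ht]
    ring

end EllHall
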