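import Pool.Agent.Lib.MP_630b78_co.EH.Final

/-!
# Both sign conventions
-/

namespace EllHall

open MvPolynomial

section

variable {K : Type} [Field K] [CharZero K] {q t : K} {Q : ℕ → ℕ → Module.End K (MvPolynomial ℕ K)}

/-- the product with signs `σ` in terms of the corrected operators, literal signs -/
theorem list_sign (a b : ℕ) (L : List ℕ) :
    (L.map fun m => (1 : K) • Q (a * m) (b * m)).prod =
      ((-1 : K) ^ (b * L.sum) * (-1) ^ L.length) • (L.map fun m => (1 : K) • ((-1 : K) ^ (b * m + 1) • Q (a * m) (b * m))).prod := by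
  induction L with
  | nil => simp
  | cons m L ih =>
    rw [List.map_cons, List.prod_cons, ih, List.map_cons, List.prod_cons, List.sum_cons, List.length_cons, one_smul, one_smul,
      mul_smul_comm, smul_mul_assoc, smul_smul]
    congr 1
    have h : (-1 : K) ^ (b * m + 1) * (-1) ^ (b * m + 1) = 1 := by
      rw [← mul_pow]
      norm_num
    rw [show b * (m + L.sum) = b * m + b * L.sum by ring, pow_add, pow_succ (-1 : K) L.length]
    rw [pow_succ] at h ⊢
    linear_combination (-(-1 : K) ^ (b * L.sum) * (-1) ^ L.length) * h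

theorem ff_literal {d : ℕ} (c : Nat.Partition d → K) (a b : ℕ) :
    ff Q (fun _ => (1 : K)) c a b = ((-1 : K) ^ (b * d)) • ff (fun m n => (-1 : K) ^ (n + 1) • Q m n) (fun _ => (1 : K))
      (fun μ => (-1 : K) ^ (Multiset.card μ.parts) * c μ) a b := by
  unfold ff
  rw [Finset.smul_sum]
  refine Finset.sum_congr rfl fun μ _ => ?_
  unfold opProd
  rw [list_sign]
  have h1 : (μ.parts.sort (· ≥ ·)).sum = d := by
    rw [← Multiset.sum_coe, Multiset.sort_eq, μ.parts_sum]
  rw [h1, Multiset.length_sort, LinearMap.smul_apply, smul_smul, smul_smul]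
  congr 1
  ring

theorem ff_corrected {d : ℕ} (c : Nat.Partition d → K) (a b : ℕ) :
    ff Q (fun n => (-1 : K) ^ (n + 1)) c a b = ff (fun m n => (-1 : K) ^ (n + 1) • Q m n) (fun _ => (1 : K)) c a b := by
  unfold ff opProd
  simp only [one_smul]

theorem homog_T (hM : (1 - q) * (1 - t) ≠ 0) (hQ : IsHall q t Q) {d : ℕ} (c : Nat.Partition d → K) (a b : ℕ) (ha : 1 ≤ a)
    (hb : 1 ≤ b) : IsWeightedHomogeneous (fun k : ℕ => k + 1)
      (ff (fun m n => (-1 : K) ^ (n + 1) • Q m n) (fun _ => (1 : K)) c a b) (b * d) := by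
  rw [← ff_corrected]
  exact ff_homog hM hQ _ c a b ha hb

theorem barCoeff_smul (s : K) (g : MvPolynomial ℕ K) (n : ℕ) (ρ : Multiset ℕ) :
    barCoeff (s • g) n ρ = s * barCoeff g n ρ := by
  unfold barCoeff sc
  rw [Finset.mul_sum]
  refine Finset.sum_congr rfl fun μ _ => ?_
  rw [hall_smul_left, mul_ite, mul_zero]

/-- the coefficient of a one-row (or empty) partition is a hook coefficient -/
theorem barCoeff_hook (g : MvPolynomial ℕ K) (n : ℕ) (hn : 1 ≤ n) (j : ℕ) :
    barCoeff g n (if j = 0 then 0 else {j}) = if j < n then hall g (hook K j (n - 1 - j)) else 0 := by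
  split_ifs with h1 h2 h2
  · subst h1
    rw [barCoeff_zero]
    obtain ⟨m, rfl⟩ : ∃ m, n = m + 1 := ⟨n - 1, by omega⟩
    rw [schur_ones]
    rfl
  · omega
  · rw [barCoeff_single g n j (by omega), if_pos h2, schur_hook]
  · rw [barCoeff_single g n j (by omega), if_neg h2]

/-- the equality of the coefficients of the one-row partitions, corrected signs -/
theorem row_eq (hM : (1 - q) * (1 - t) ≠ 0) (h1 : q ≠ t) (h2 : q ^ 2 ≠ t) (h3 : q ≠ t ^ 2) (hq : q ≠ 0) (ht : t ≠ 0)
    (hQ : IsHall q t Q) (a b d : ℕ) (ha : 1 ≤ a) (hd : 1 ≤ d) (hab : a ≤ b) (hc : Nat.Coprime a b)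
    (had : a * d ≤ 3) (c : Nat.Partition d → K) (j : ℕ) :
    barCoeff (ff (fun m n => (-1 : K) ^ (n + 1) • Q m n) (fun _ => (1 : K)) c a b) (b * d) (if j = 0 then 0 else {j}) =
      barCoeff (ff (fun m n => (-1 : K) ^ (n + 1) • Q m n) (fun _ => (1 : K)) c b a) (a * d) (if j = 0 then 0 else {j}) := by
  by_cases hb : 2 ≤ b
  · have hT := isT_of_isHall hQ
    have hbd : 1 ≤ b * d := Nat.one_le_iff_ne_zero.2 (Nat.mul_ne_zero (by omega) (by omega))
    have hadp : 1 ≤ a * d := Nat.one_le_iff_ne_zero.2 (Nat.mul_ne_zero (by omega) (by omega))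
    have hle : a * d ≤ b * d := Nat.mul_le_mul_right d hab
    rw [barCoeff_hook _ _ hbd, barCoeff_hook _ _ hadp]
    by_cases hj : j < b * d
    · rw [if_pos hj]
      exact hooks_eq hM h1 h2 h3 hq ht hT a b d ha hd hab hb hc had c (homog_T hM hQ c a b ha (by omega))
        (homog_T hM hQ c b a (by omega) ha) j hj
    · rw [if_neg hj, if_neg (by omega)]
  · have hb1 : b = 1 := by omega
    have ha1 : a = 1 := by omega
    subst hb1
    subst ha1
    rfl

theorem row_eq_literal (hM : (1 - q) * (1 - t) ≠ 0) (h1 : q ≠ t) (h2 : q ^ 2 ≠ t) (h3 : q ≠ t ^ 2) (hq : q ≠ 0) (ht : t ≠ 0)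
    (hQ : IsHall q t Q) (a b d : ℕ) (ha : 1 ≤ a) (hd : 1 ≤ d) (hab : a ≤ b) (hc : Nat.Coprime a b)
    (had : a * d ≤ 3) (c : Nat.Partition d → K) (j : ℕ) :
    barCoeff (ff Q (fun _ => (1 : K)) c a b) (b * d) (if j = 0 then 0 else {j}) =
      (-1) ^ (b * d) * (-1) ^ (a * d) * barCoeff (ff Q (fun _ => (1 : K)) c b a) (a * d) (if j = 0 then 0 else {j}) := by
  rw [ff_literal c a b, ff_literal c b a, barCoeff_smul, barCoeff_smul,
    row_eq hM h1 h2 h3 hq ht hQ a b d ha hd hab hc had _ j]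
  have h : (-1 : K) ^ (a * d) * (-1) ^ (a * d) = 1 := by
    rw [← mul_pow]
    norm_num
  linear_combination (-(-1 : K) ^ (b * d) * barCoeff (ff (fun m n => (-1 : K) ^ (n + 1) • Q m n) (fun _ => (1 : K))
      (fun μ => (-1 : K) ^ (Multiset.card μ.parts) * c μ) b a) (a * d) (if j = 0 then 0 else {j})) * h

theorem barCoeff_nn {σ : ℕ → K} {d : ℕ} {c : Nat.Partition d → K} (hP : PosSeed q t Q σ c) (a b : ℕ) (ha : 1 ≤ a) (hb : 1 ≤ b)
    (hc : Nat.Coprime a b) (ρ : Multiset ℕ) : IsNN q t (barCoeff (ff Q σ c a b) (b * d) ρ) := by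
  unfold barCoeff
  refine IsNN.sum _ _ fun μ _ => ?_
  split_ifs
  · exact hP a b ha hb hc μ
  · exact IsNN.zero

end

/-- The comparison for seeds with `a d ≤ 3`, for both sign conventions. -/
theorem comparison {Q : ℕ → ℕ → Module.End QT (MvPolynomial ℕ QT)} (hQ : IsHall qq tt Q) (σ : ℕ → QT)
    (hσ : σ = (fun _ => 1) ∨ σ = fun n => (-1) ^ (n + 1)) (a b d : ℕ) (ha : 1 ≤ a) (hd : 1 ≤ d) (hab : a ≤ b)
    (hc : Nat.Coprime a b) (had : a * d ≤ 3) (c : Nat.Partition d → QT) (hP : PosSeed qq tt Q σ c) (ρ : Multiset ℕ) :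
    IsNN qq tt (barCoeff (ff Q σ c a b) (b * d) ρ - barCoeff (ff Q σ c b a) (a * d) ρ) := by
  have hab' := barCoeff_nn hP a b ha (by omega) hc ρ
  have hba' := barCoeff_nn hP b a (by omega) ha hc.symm ρ
  by_cases hr : ∃ j, ρ = if j = 0 then 0 else {j}
  · obtain ⟨j, hj⟩ := hr
    have hs : ∃ s : QT, (s = 1 ∨ s = -1) ∧
        barCoeff (ff Q σ c a b) (b * d) ρ = s * barCoeff (ff Q σ c b a) (a * d) ρ := by
      rcases hσ with rfl | rfl
      · refine ⟨(-1) ^ (b * d) * (-1) ^ (a * d), ?_, ?_⟩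
        · rw [← pow_add]
          exact neg_one_pow_eq_or QT _
        · rw [hj]
          exact row_eq_literal hM_QT q_ne_t q2_ne_t q_ne_t2 q_ne_zero t_ne_zero hQ a b d ha hd hab hc had c j
      · refine ⟨1, Or.inl rfl, ?_⟩
        rw [hj, one_mul, ff_corrected, ff_corrected]
        exact row_eq hM_QT q_ne_t q2_ne_t q_ne_t2 q_ne_zero t_ne_zero hQ a b d ha hd hab hc had c j
    obtain ⟨s, hs, he⟩ := hs
    rcases hs with rfl | rfl
    · rw [he, one_mul, sub_self]
      exact IsNN.zero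
    · rw [he] at hab' ⊢
      rw [neg_one_mul] at hab'
      rw [nn_antisymm hba' hab', mul_zero, sub_zero]
      exact IsNN.zero
  · rw [barCoeff_small _ _ had ρ (fun h => hr ⟨0, by rw [h, if_pos rfl]⟩)
      (fun j hj h => hr ⟨j, by rw [h, if_neg (by omega)]⟩), sub_zero]
    exact hab'

end EllHall
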