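import Pool.Agent.Lib.MP_630b78_co.EH.Defs

/-!
# Newton's identities and derivatives of e_n, h_n

`ee_succ`, `hh_succ`: unfold the definitions (`Fin` sum to `range` sum).
`pderiv_hh` (p_k-derivative, `k+1` for `p_(k+1)`): strong induction on `n`: apply `(k+1) ∂_k` to `n h_n = ∑_(i=1..n) p_i h_(n-i)`:
`n (k+1) ∂_k h_n = (k+1) h_(n-k-1) + ∑_i p_i h_(n-i-k-1) = (k+1) h_(n-k-1) + (n-k-1) h_(n-k-1)`.  The same for `e`, with signs.
`alt_sum`: `A_n = ∑ (-1)^i e_i h_(n-i)`; `n A_n = ∑_i (-1)^i (i e_i) h_(n-i) + ∑_i (-1)^i e_i ((n-i) h_(n-i)) = -∑_k p_k A_(n-k) + ∑_k p_k A_(n-k) = 0`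
(or: all derivatives of `A_n` vanish by induction and its constant coefficient is zero).
-/

namespace EllHall

open MvPolynomial

variable {K : Type} [Field K] [CharZero K]

private theorem newton_rec (s f : ℕ → MvPolynomial ℕ K) (hf : ∀ n : ℕ, f (n + 1) =
    C (((n + 1 : ℕ) : K)⁻¹) * ∑ i : Fin (n + 1), s (i : ℕ) * X (i : ℕ) * f (n - i)) (n : ℕ) :
    ((n + 1 : ℕ) : K) • f (n + 1) = ∑ i ∈ Finset.range (n + 1), s i * X i * f (n - i) := by
  have hc : ((n + 1 : ℕ) : K) ≠ 0 := Nat.cast_ne_zero.mpr (Nat.succ_ne_zero n)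
  rw [hf n, MvPolynomial.smul_eq_C_mul, ← mul_assoc, ← C_mul, mul_inv_cancel₀ hc, C_1, one_mul,
    Finset.sum_range]

private theorem newton_deriv (s f : ℕ → MvPolynomial ℕ K) (hs : ∀ i k, pderiv k (s i) = 0) (h0 : f 0 = 1)
    (hf : ∀ n : ℕ, ((n + 1 : ℕ) : K) • f (n + 1) = ∑ i ∈ Finset.range (n + 1), s i * X i * f (n - i))
    (k n : ℕ) : ((k + 1 : ℕ) : K) • pderiv k (f n) = if k + 1 ≤ n then s k * f (n - (k + 1)) else 0 := by
  induction n using Nat.strong_induction_on with
  | _ n ih =>
    rcases n with _ | n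
    · rw [h0, if_neg (by omega), pderiv_one, smul_zero]
    · have hc : ((n + 1 : ℕ) : K) ≠ 0 := Nat.cast_ne_zero.mpr (Nat.succ_ne_zero n)
      apply smul_right_injective (MvPolynomial ℕ K) hc
      show ((n + 1 : ℕ) : K) • (((k + 1 : ℕ) : K) • pderiv k (f (n + 1))) = ((n + 1 : ℕ) : K) • _
      rw [smul_comm, ← Derivation.map_smul, hf n, map_sum, Finset.smul_sum]
      have hterm : ∀ i ∈ Finset.range (n + 1), ((k + 1 : ℕ) : K) • pderiv k (s i * X i * f (n - i)) =
          (if i = k then ((k + 1 : ℕ) : K) • (s k * f (n - k)) else 0) +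
            s i * X i * (if k + 1 ≤ n - i then s k * f (n - i - (k + 1)) else 0) := by
        intro i hi
        rw [← ih (n - i) (by omega), Derivation.leibniz, Derivation.leibniz, hs, pderiv_X, Pi.single_apply,
          smul_add, smul_zero, add_zero]
        simp only [smul_eq_mul]
        rw [add_comm, mul_smul_comm]
        congr 1
        by_cases hik : i = k
        · subst hik
          rw [if_pos rfl, if_pos rfl]
          congr 1
          ring
        · rw [if_neg hik, if_neg hik, mul_zero, mul_zero, smul_zero]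
      rw [Finset.sum_congr rfl hterm, Finset.sum_add_distrib, Finset.sum_ite_eq' (Finset.range (n + 1)) k]
      by_cases hk : k ≤ n
      · rw [if_pos (Finset.mem_range.mpr (by omega)), if_pos (by omega)]
        obtain ⟨m, rfl⟩ := Nat.exists_eq_add_of_le hk
        have e1 : k + m - k = m := by omega
        have e2 : k + m + 1 - (k + 1) = m := by omega
        rw [e1, e2]
        have hsub : ∑ i ∈ Finset.range (k + m + 1),
            s i * X i * (if k + 1 ≤ k + m - i then s k * f (k + m - i - (k + 1)) else 0)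
            = s k * (((m : ℕ) : K) • f m) := by
          rw [← Finset.sum_subset (Finset.range_subset_range.mpr (show m ≤ k + m + 1 by omega))]
          · rcases m with _ | m
            · simp
            · rw [hf m, Finset.mul_sum]
              refine Finset.sum_congr rfl fun i hi => ?_
              have hi' := Finset.mem_range.mp hi
              rw [if_pos (by omega)]
              have e3 : k + (m + 1) - i - (k + 1) = m - i := by omega
              rw [e3]
              ring
          · intro i hi hi2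
            have h1 := Finset.mem_range.mp hi
            have h2 : ¬ i < m := fun h => hi2 (Finset.mem_range.mpr h)
            rw [if_neg (by omega), mul_zero]
        rw [hsub, mul_smul_comm, ← add_smul]
        congr 1
        push_cast
        ring
      · rw [if_neg (by rw [Finset.mem_range]; omega), if_neg (by omega), zero_add, smul_zero]
        refine Finset.sum_eq_zero fun i _ => ?_
        rw [if_neg (by omega), mul_zero]

private theorem newton_cc (s f : ℕ → MvPolynomial ℕ K) (h0 : f 0 = 1)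
    (hf : ∀ n : ℕ, ((n + 1 : ℕ) : K) • f (n + 1) = ∑ i ∈ Finset.range (n + 1), s i * X i * f (n - i))
    (n : ℕ) : constantCoeff (f n) = if n = 0 then 1 else 0 := by
  rcases n with _ | n
  · rw [h0, if_pos rfl, map_one]
  · rw [if_neg (Nat.succ_ne_zero n)]
    have hc : ((n + 1 : ℕ) : K) ≠ 0 := Nat.cast_ne_zero.mpr (Nat.succ_ne_zero n)
    have h := congrArg constantCoeff (hf n)
    rw [map_sum, MvPolynomial.smul_eq_C_mul, map_mul, constantCoeff_C] at h
    rw [Finset.sum_eq_zero (fun i _ => by rw [map_mul, map_mul, constantCoeff_X, mul_zero, zero_mul])] at h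
    exact (mul_eq_zero.mp h).resolve_left hc

private theorem pderiv_sign (i k : ℕ) : pderiv k ((-1 : MvPolynomial ℕ K) ^ i) = 0 := by
  have e : ((-1 : MvPolynomial ℕ K) ^ i) = C ((-1 : K) ^ i) := by
    rw [map_pow, map_neg, map_one]
  rw [e, pderiv_C]

theorem ee_succ (n : ℕ) : ((n + 1 : ℕ) : K) • ee K (n + 1) =
    ∑ i ∈ Finset.range (n + 1), (-1) ^ i * X i * ee K (n - i) := by
  exact newton_rec (fun i => (-1) ^ i) (ee K) (fun n => by rw [ee]) n

theorem hh_succ (n : ℕ) : ((n + 1 : ℕ) : K) • hh K (n + 1) = ∑ i ∈ Finset.range (n + 1), X i * hh K (n - i) := by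
  have h := newton_rec (fun _ => 1) (hh K) (fun n => by
    rw [hh]
    congr 1
    exact Finset.sum_congr rfl fun i _ => by rw [one_mul]) n
  rw [h]
  exact Finset.sum_congr rfl fun i _ => by rw [one_mul]

theorem pderiv_ee (k n : ℕ) : ((k + 1 : ℕ) : K) • pderiv k (ee K n) =
    if k + 1 ≤ n then (-1) ^ k * ee K (n - (k + 1)) else 0 := by
  exact newton_deriv (fun i => (-1) ^ i) (ee K) pderiv_sign (by rw [ee]) ee_succ k n

theorem pderiv_hh (k n : ℕ) : ((k + 1 : ℕ) : K) • pderiv k (hh K n) =
    if k + 1 ≤ n then hh K (n - (k + 1)) else 0 := by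
  have h := newton_deriv (fun _ => 1) (hh K) (fun _ _ => pderiv_one) (by rw [hh]) (fun n => by
    rw [hh_succ n]
    exact Finset.sum_congr rfl fun i _ => by rw [one_mul]) k n
  rw [h]
  split_ifs
  · rw [one_mul]
  · rfl

theorem constantCoeff_ee (n : ℕ) : constantCoeff (ee K n) = if n = 0 then 1 else 0 := by
  exact newton_cc (fun i => (-1) ^ i) (ee K) (by rw [ee]) ee_succ n

theorem constantCoeff_hh (n : ℕ) : constantCoeff (hh K n) = if n = 0 then 1 else 0 := by
  exact newton_cc (fun _ => 1) (hh K) (by rw [hh]) (fun n => by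
    rw [hh_succ n]
    exact Finset.sum_congr rfl fun i _ => by rw [one_mul]) n

theorem alt_sum (n : ℕ) (hn : 1 ≤ n) :
    ∑ i ∈ Finset.range (n + 1), (-1) ^ i * (ee K i * hh K (n - i)) = 0 := by
  obtain ⟨n, rfl⟩ : ∃ m, n = m + 1 := ⟨n - 1, by omega⟩
  -- generating series `E(-z) = ∑ (-1)^n e_n z^n` and `H(z) = ∑ h_n z^n`
  let E : PowerSeries (MvPolynomial ℕ K) := PowerSeries.mk fun n => (-1) ^ n * ee K n
  let H : PowerSeries (MvPolynomial ℕ K) := PowerSeries.mk fun n => hh K n
  let P : PowerSeries (MvPolynomial ℕ K) := PowerSeries.mk fun n => X n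
  have hsm : ∀ (m : ℕ) (p : MvPolynomial ℕ K), ((m : ℕ) : K) • p = p * (m : MvPolynomial ℕ K) := by
    intro m p
    rw [MvPolynomial.smul_eq_C_mul, mul_comm, map_natCast]
  have dH : PowerSeries.derivative (MvPolynomial ℕ K) H = P * H := by
    ext1 m
    rw [PowerSeries.coeff_derivative, PowerSeries.coeff_mul, Finset.Nat.sum_antidiagonal_eq_sum_range_succ_mk]
    simp only [H, P, PowerSeries.coeff_mk]
    rw [← hh_succ m, hsm]
    push_cast
    ring
  have dE : PowerSeries.derivative (MvPolynomial ℕ K) E = -(P * E) := by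
    ext1 m
    rw [PowerSeries.coeff_derivative, map_neg, PowerSeries.coeff_mul,
      Finset.Nat.sum_antidiagonal_eq_sum_range_succ_mk]
    simp only [E, P, PowerSeries.coeff_mk]
    have h := ee_succ (K := K) m
    rw [hsm] at h
    push_cast at h
    have e1 : (-1) ^ (m + 1) * ee K (m + 1) * ((m : MvPolynomial ℕ K) + 1)
        = (-1) ^ (m + 1) * (ee K (m + 1) * ((m : MvPolynomial ℕ K) + 1)) := by ring
    rw [e1, h, Finset.mul_sum, ← Finset.sum_neg_distrib]
    refine Finset.sum_congr rfl fun i hi => ?_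
    have hi' : i ≤ m := by
      have := Finset.mem_range.mp hi
      omega
    obtain ⟨j, rfl⟩ := Nat.exists_eq_add_of_le hi'
    have e2 : i + j - i = j := by omega
    have e3 : ((-1 : MvPolynomial ℕ K) ^ i) * (-1) ^ i = 1 := by
      rw [← mul_pow]
      norm_num
    rw [e2]
    calc (-1 : MvPolynomial ℕ K) ^ (i + j + 1) * ((-1) ^ i * X i * ee K j)
        = (((-1 : MvPolynomial ℕ K) ^ i) * (-1) ^ i) * (-(X i * ((-1) ^ j * ee K j))) := by ring
      _ = -(X i * ((-1) ^ j * ee K j)) := by rw [e3, one_mul]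
  have hd : PowerSeries.derivative (MvPolynomial ℕ K) (E * H) = 0 := by
    rw [Derivation.leibniz, dE, dH]
    simp only [smul_eq_mul]
    ring
  have hcoef := congrArg (PowerSeries.coeff n) hd
  rw [PowerSeries.coeff_derivative, map_zero, mul_eq_zero] at hcoef
  have hne : ((n : MvPolynomial ℕ K) + 1) ≠ 0 := by
    exact_mod_cast (Nat.cast_ne_zero (R := MvPolynomial ℕ K)).mpr (Nat.succ_ne_zero n)
  have hz := hcoef.resolve_right hne
  rw [PowerSeries.coeff_mul, Finset.Nat.sum_antidiagonal_eq_sum_range_succ_mk] at hz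
  simp only [E, H, PowerSeries.coeff_mk] at hz
  rw [← hz]
  refine Finset.sum_congr rfl fun i _ => ?_
  ring

end EllHall
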