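import Pool.Agent.Lib.MP_630b78_co.EH.Newton

/-!
# The operator D_0 and evaluations

`aeval_D0`: `aeval P (D0 g) = ∑_n aeval P (coeff_n (shift g)) * ((-1)^n aeval P (e_n))`; insert `h`; `coeff_0 (shift g) = g`
(the composition of `shift` with `w ↦ 0` is the identity) and `∑_n aeval P (coeff_n (shift g)) x^n` is the algebra homomorphism `g ↦ eval x (map (aeval P) (shift g))`,
which sends `p_k` to `P_k + (1-q^k)(1-t^k) x^k`.
`aeval_ee`: put `g_n = (-1)^n aeval P (e_n)`; Newton (`ee_succ`): `(n+1) g_(n+1) = -∑_(i ≤ n) P_i g_(n-i)`, `g_0 = 1`, so the sequence is determined by `P`.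
Show that the right side satisfies the same recursion, e.g. with power series: `G = (1-z)(1-yz) / ((1-x1 z)(1-x2 z))` satisfies `G' = -(∑ P_i z^i) G`
(logarithmic derivatives; `1/(1-xz) = PowerSeries.mk (x^n)`) and by partial fractions `G = y/(x1 x2) + A1/(1-x1 z) + A2/(1-x2 z)`
(multiply by `(1-x1 z)(1-x2 z)`: a polynomial identity of degree two).
-/

namespace EllHall

open MvPolynomial

variable {K : Type} [Field K] [CharZero K]

private theorem ev_shift (q t : K) (P : ℕ → K) (x : K) (g : MvPolynomial ℕ K) :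
    Polynomial.eval₂ ((aeval P : MvPolynomial ℕ K →ₐ[K] K) : MvPolynomial ℕ K →+* K) x (shift q t g) =
      aeval (fun k => P k + (1 - q ^ (k + 1)) * (1 - t ^ (k + 1)) * x ^ (k + 1)) g := by
  induction g using MvPolynomial.induction_on with
  | C a =>
    have h1 : shift q t (C a : MvPolynomial ℕ K) = Polynomial.C (C a) := by
      rw [← algebraMap_eq, AlgHom.commutes]
      rfl
    rw [h1, Polynomial.eval₂_C, aeval_C]
    exact aeval_C P a
  | add p r hp hr => rw [map_add, map_add, Polynomial.eval₂_add, hp, hr]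
  | mul_X p i hp =>
    rw [map_mul, map_mul, Polynomial.eval₂_mul, hp, aeval_X]
    congr 1
    rw [shift, aeval_X, Polynomial.eval₂_add, Polynomial.eval₂_mul, Polynomial.eval₂_C,
      Polynomial.eval₂_C, Polynomial.eval₂_pow, Polynomial.eval₂_X]
    congr 1
    · exact aeval_X P i
    · congr 1
      exact aeval_C P _

theorem aeval_D0 (q t : K) (P : ℕ → K) (κ A1 A2 x1 x2 : K)
    (h : ∀ n : ℕ, (-1) ^ n * aeval P (ee K n) = (if n = 0 then κ else 0) + A1 * x1 ^ n + A2 * x2 ^ n)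
    (g : MvPolynomial ℕ K) :
    aeval P (D0 q t g) = κ * aeval P g +
      A1 * aeval (fun k => P k + (1 - q ^ (k + 1)) * (1 - t ^ (k + 1)) * x1 ^ (k + 1)) g +
      A2 * aeval (fun k => P k + (1 - q ^ (k + 1)) * (1 - t ^ (k + 1)) * x2 ^ (k + 1)) g := by
  have e0 := ev_shift q t P 0 g
  have e1 := ev_shift q t P x1 g
  have e2 := ev_shift q t P x2 g
  have e3 : (fun k => P k + (1 - q ^ (k + 1)) * (1 - t ^ (k + 1)) * (0 : K) ^ (k + 1)) = P := by
    funext k
    rw [zero_pow (Nat.succ_ne_zero k), mul_zero, add_zero]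
  rw [e3] at e0
  rw [← e1, ← e2, ← e0]
  have hD : D0 q t g = (shift q t g).sum fun n c => c * ((-1) ^ n * ee K n) := rfl
  rw [hD, Polynomial.eval₂_eq_sum, Polynomial.eval₂_eq_sum, Polynomial.eval₂_eq_sum,
    Polynomial.sum_def, Polynomial.sum_def, Polynomial.sum_def, Polynomial.sum_def, map_sum,
    Finset.mul_sum, Finset.mul_sum, Finset.mul_sum, ← Finset.sum_add_distrib,
    ← Finset.sum_add_distrib]
  refine Finset.sum_congr rfl fun n _ => ?_
  have hn := h n
  have hk : (if n = 0 then κ else 0) = κ * (0 : K) ^ n := by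
    rcases Nat.eq_zero_or_pos n with h0 | h0
    · subst h0
      simp
    · rw [if_neg (by omega), zero_pow (by omega), mul_zero]
  rw [hk] at hn
  rw [map_mul, map_mul, map_pow, map_neg, map_one, hn]
  simp only [RingHom.coe_coe]
  ring

private theorem geo (a b : K) (n : ℕ) :
    (a - b) * ∑ i ∈ Finset.range (n + 1), a ^ (i + 1) * b ^ (n - i) = a * (a ^ (n + 1) - b ^ (n + 1)) := by
  have h := (Commute.all a b).mul_geom_sum₂ (n + 1)
  rw [← h, ← mul_assoc, mul_comm a (a - b), mul_assoc, Finset.mul_sum (a := a)]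
  congr 1
  refine Finset.sum_congr rfl fun i _ => ?_
  rw [Nat.add_sub_cancel]
  ring

private theorem geo_self (a : K) (n : ℕ) :
    ∑ i ∈ Finset.range (n + 1), a ^ (i + 1) * a ^ (n - i) = ((n : K) + 1) * a ^ (n + 1) := by
  rw [Finset.sum_congr rfl (g := fun _ => a ^ (n + 1)), Finset.sum_const, Finset.card_range,
    nsmul_eq_mul]
  · push_cast
    ring
  · intro i hi
    rw [← pow_add]
    congr 1
    have := Finset.mem_range.mp hi
    omega

/-- the right side of `aeval_ee` -/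
private noncomputable def rr (x1 x2 y : K) (n : ℕ) : K :=
  (if n = 0 then y / (x1 * x2) else 0) + (x1 - 1) * (x1 - y) / (x1 * (x1 - x2)) * x1 ^ n +
        (x2 - 1) * (x2 - y) / (x2 * (x2 - x1)) * x2 ^ n

private theorem rr_zero (x1 x2 y : K) (h1 : x1 ≠ 0) (h2 : x2 ≠ 0) (h12 : x1 ≠ x2) :
    rr x1 x2 y 0 = 1 := by
  have h3 : x1 - x2 ≠ 0 := sub_ne_zero.mpr h12
  have h4 : x2 - x1 ≠ 0 := sub_ne_zero.mpr h12.symm
  have h5 : x2 - x1 = -(x1 - x2) := by ring
  rw [rr, if_pos rfl, pow_zero, pow_zero, h5]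
  field_simp
  ring

private theorem rr_rec (x1 x2 y : K) (h1 : x1 ≠ 0) (h2 : x2 ≠ 0) (h12 : x1 ≠ x2) (n : ℕ) :
    ∑ i ∈ Finset.range (n + 1), (1 - x1 ^ (i + 1) - x2 ^ (i + 1) + y ^ (i + 1)) * rr x1 x2 y (n - i) =
      -(((n : K) + 1) * rr x1 x2 y (n + 1)) := by
  have h3 : x1 - x2 ≠ 0 := sub_ne_zero.mpr h12
  have h5 : x2 - x1 = -(x1 - x2) := by ring
  have g11 := geo (1 : K) x1 n
  have g12 := geo (1 : K) x2 n
  have gy1 := geo y x1 n
  have gy2 := geo y x2 n
  have g21 := geo x2 x1 n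
  have gx12 := geo x1 x2 n
  have s1 := geo_self x1 n
  have s2 := geo_self x2 n
  have hsplit : ∑ i ∈ Finset.range (n + 1),
      (1 - x1 ^ (i + 1) - x2 ^ (i + 1) + y ^ (i + 1)) * rr x1 x2 y (n - i) =
      (1 - x1 ^ (n + 1) - x2 ^ (n + 1) + y ^ (n + 1)) * (y / (x1 * x2)) +
      (x1 - 1) * (x1 - y) / (x1 * (x1 - x2)) *
        ((∑ i ∈ Finset.range (n + 1), (1 : K) ^ (i + 1) * x1 ^ (n - i)) -
          (∑ i ∈ Finset.range (n + 1), x1 ^ (i + 1) * x1 ^ (n - i)) -
          (∑ i ∈ Finset.range (n + 1), x2 ^ (i + 1) * x1 ^ (n - i)) +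
          ∑ i ∈ Finset.range (n + 1), y ^ (i + 1) * x1 ^ (n - i)) +
      (x2 - 1) * (x2 - y) / (x2 * (x2 - x1)) *
        ((∑ i ∈ Finset.range (n + 1), (1 : K) ^ (i + 1) * x2 ^ (n - i)) -
          (∑ i ∈ Finset.range (n + 1), x1 ^ (i + 1) * x2 ^ (n - i)) -
          (∑ i ∈ Finset.range (n + 1), x2 ^ (i + 1) * x2 ^ (n - i)) +
          ∑ i ∈ Finset.range (n + 1), y ^ (i + 1) * x2 ^ (n - i)) := by
    have hd : ∑ i ∈ Finset.range (n + 1),
        (1 - x1 ^ (i + 1) - x2 ^ (i + 1) + y ^ (i + 1)) * (if n - i = 0 then y / (x1 * x2) else 0) =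
        (1 - x1 ^ (n + 1) - x2 ^ (n + 1) + y ^ (n + 1)) * (y / (x1 * x2)) := by
      rw [Finset.sum_range_succ, Finset.sum_eq_zero, zero_add, Nat.sub_self, if_pos rfl]
      intro i hi
      have := Finset.mem_range.mp hi
      rw [if_neg (by omega), mul_zero]
    rw [← hd]
    simp only [← Finset.sum_sub_distrib, ← Finset.sum_add_distrib, Finset.mul_sum]
    refine Finset.sum_congr rfl fun i _ => ?_
    rw [rr]
    ring
  rw [hsplit, s1, s2, rr, if_neg (Nat.succ_ne_zero n)]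
  generalize (∑ i ∈ Finset.range (n + 1), (1 : K) ^ (i + 1) * x1 ^ (n - i)) = S11 at *
  generalize (∑ i ∈ Finset.range (n + 1), (1 : K) ^ (i + 1) * x2 ^ (n - i)) = S12 at *
  generalize (∑ i ∈ Finset.range (n + 1), y ^ (i + 1) * x1 ^ (n - i)) = Sy1 at *
  generalize (∑ i ∈ Finset.range (n + 1), y ^ (i + 1) * x2 ^ (n - i)) = Sy2 at *
  generalize (∑ i ∈ Finset.range (n + 1), x2 ^ (i + 1) * x1 ^ (n - i)) = S21 at *
  generalize (∑ i ∈ Finset.range (n + 1), x1 ^ (i + 1) * x2 ^ (n - i)) = Sx12 at *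
  rw [one_pow] at g11 g12
  generalize x1 ^ (n + 1) = X1 at *
  generalize x2 ^ (n + 1) = X2 at *
  generalize y ^ (n + 1) = Y at *
  have e11 : (x1 - 1) * (x1 - y) / (x1 * (x1 - x2)) * S11 = (x1 - y) / (x1 * (x1 - x2)) * (X1 - 1) := by
    have : (x1 - 1) * S11 = X1 - 1 := by linear_combination -g11
    rw [← this]
    ring
  have e12 : (x2 - 1) * (x2 - y) / (x2 * (x2 - x1)) * S12 = (x2 - y) / (x2 * (x2 - x1)) * (X2 - 1) := by
    have : (x2 - 1) * S12 = X2 - 1 := by linear_combination -g12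
    rw [← this]
    ring
  have ey1 : (x1 - 1) * (x1 - y) / (x1 * (x1 - x2)) * Sy1 =
      (x1 - 1) / (x1 * (x1 - x2)) * (y * (X1 - Y)) := by
    have : (x1 - y) * Sy1 = y * (X1 - Y) := by linear_combination -gy1
    rw [← this]
    ring
  have ey2 : (x2 - 1) * (x2 - y) / (x2 * (x2 - x1)) * Sy2 =
      (x2 - 1) / (x2 * (x2 - x1)) * (y * (X2 - Y)) := by
    have : (x2 - y) * Sy2 = y * (X2 - Y) := by linear_combination -gy2
    rw [← this]
    ring
  have e21 : S21 = x2 * (X2 - X1) / (x2 - x1) := by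
    rw [eq_div_iff (sub_ne_zero.mpr h12.symm), ← g21]
    ring
  have ex12 : Sx12 = x1 * (X1 - X2) / (x1 - x2) := by
    rw [eq_div_iff h3, ← gx12]
    ring
  have expand : (1 - X1 - X2 + Y) * (y / (x1 * x2)) +
      (x1 - 1) * (x1 - y) / (x1 * (x1 - x2)) * (S11 - ((n : K) + 1) * X1 - S21 + Sy1) +
      (x2 - 1) * (x2 - y) / (x2 * (x2 - x1)) * (S12 - Sx12 - ((n : K) + 1) * X2 + Sy2) =
      (1 - X1 - X2 + Y) * (y / (x1 * x2)) +
      ((x1 - y) / (x1 * (x1 - x2)) * (X1 - 1) -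
        (x1 - 1) * (x1 - y) / (x1 * (x1 - x2)) * (((n : K) + 1) * X1 + x2 * (X2 - X1) / (x2 - x1)) +
        (x1 - 1) / (x1 * (x1 - x2)) * (y * (X1 - Y))) +
      ((x2 - y) / (x2 * (x2 - x1)) * (X2 - 1) -
        (x2 - 1) * (x2 - y) / (x2 * (x2 - x1)) * (((n : K) + 1) * X2 + x1 * (X1 - X2) / (x1 - x2)) +
        (x2 - 1) / (x2 * (x2 - x1)) * (y * (X2 - Y))) := by
    rw [← e11, ← e12, ← ey1, ← ey2, ← e21, ← ex12]
    ring
  rw [expand, h5]
  field_simp
  ring

theorem aeval_ee (x1 x2 y : K) (h1 : x1 ≠ 0) (h2 : x2 ≠ 0) (h12 : x1 ≠ x2) (n : ℕ) :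
    (-1) ^ n * aeval (fun k : ℕ => 1 - x1 ^ (k + 1) - x2 ^ (k + 1) + y ^ (k + 1)) (ee K n) =
      (if n = 0 then y / (x1 * x2) else 0) + (x1 - 1) * (x1 - y) / (x1 * (x1 - x2)) * x1 ^ n +
        (x2 - 1) * (x2 - y) / (x2 * (x2 - x1)) * x2 ^ n := by
  change _ = rr x1 x2 y n
  induction n using Nat.strong_induction_on with
  | _ n ih =>
    rcases n with _ | n
    · rw [rr_zero x1 x2 y h1 h2 h12, ee, map_one, pow_zero, mul_one]
    · have hn : ((n : K) + 1) ≠ 0 := Nat.cast_add_one_ne_zero n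
      have hs := congrArg (aeval (fun k : ℕ => 1 - x1 ^ (k + 1) - x2 ^ (k + 1) + y ^ (k + 1)))
        (ee_succ (K := K) n)
      rw [map_smul, map_sum, smul_eq_mul] at hs
      push_cast at hs
      have hr := rr_rec x1 x2 y h1 h2 h12 n
      refine mul_left_cancel₀ hn ?_
      rw [mul_left_comm, hs, Finset.mul_sum]
      rw [← neg_eq_iff_eq_neg] at hr
      rw [← hr, ← Finset.sum_neg_distrib]
      refine Finset.sum_congr rfl fun i hi => ?_
      have hi' := Finset.mem_range.mp hi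
      rw [← ih (n - i) (by omega), map_mul, map_mul, map_pow, map_neg, map_one, aeval_X]
      have hp : ((-1 : K)) ^ (n + 1) * (-1) ^ i = - (-1) ^ (n - i) := by
        obtain ⟨m, rfl⟩ : ∃ m, n = m + i := ⟨n - i, by omega⟩
        rw [Nat.add_sub_cancel, ← pow_add]
        have : m + i + 1 + i = m + 1 + 2 * i := by ring
        rw [this, pow_add, pow_mul, neg_one_sq, one_pow, mul_one, pow_succ]
        ring
      rw [← mul_assoc, ← mul_assoc, hp]
      ring

end EllHall
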