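import Pool.Agent.Lib.MP_630b78_co.EH.Ops

/-!
# Words in a tower
-/

namespace EllHall

open MvPolynomial

variable {K : Type} [Field K] {q t u : K} {E : Type} [AddCommGroup E] [Module K E] {v : Fin 7 → E}
  {R : ℕ → Module.End K E}

theorem tw1 (h : Tower q t u v R) {i : ℕ} (hi : 1 ≤ i) : R i (v 0) = al q t u 0 • v 1 := h.r0 i hi

theorem tw2 (h : Tower q t u v R) {i j : ℕ} (hi : 1 ≤ i) (hj : 1 ≤ j) :
    R i (R j (v 0)) = (al q t u 0 * (al q t u 1 * q ^ i)) • v 2 + (al q t u 0 * (al q t u 2 * t ^ i)) • v 3 := by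
  rw [h.r0 j hj, map_smul, h.r1 i hi]
  module

theorem tw3 (h : Tower q t u v R) {i j k : ℕ} (hi : 1 ≤ i) (hj : 1 ≤ j) (hk : 1 ≤ k) :
    R i (R j (R k (v 0))) = (al q t u 0 * al q t u 1 * al q t u 3 * q ^ j * (q ^ 2) ^ i) • v 4 +
      (al q t u 0 * (al q t u 1 * al q t u 4 * q ^ j * t ^ i + al q t u 2 * al q t u 5 * t ^ j * q ^ i)) • v 5 +
      (al q t u 0 * al q t u 2 * al q t u 6 * t ^ j * (t ^ 2) ^ i) • v 6 := by
  rw [tw2 h hj hk, map_add, map_smul, map_smul, h.r2 i hi, h.r3 i hi]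
  module

theorem al_rel (h1 : q ≠ t) (h2 : q ^ 2 ≠ t) (h3 : q ≠ t ^ 2) :
    al q t u 1 * al q t u 4 * ((1 + t) * (q ^ 2 - t)) + al q t u 2 * al q t u 5 * ((1 + q) * (t ^ 2 - q)) = 0 := by
  have e1 : q - t ≠ 0 := sub_ne_zero.2 h1
  have e1' : t - q ≠ 0 := sub_ne_zero.2 h1.symm
  have e2' : t - q ^ 2 ≠ 0 := sub_ne_zero.2 h2.symm
  have e3 : q - t ^ 2 ≠ 0 := sub_ne_zero.2 h3
  simp only [al]
  change (1 - t) * (1 - u * q) / (q - t) * ((1 - q ^ 2) * (1 - u * t) / (t - q ^ 2)) * ((1 + t) * (q ^ 2 - t)) +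
    (1 - q) * (1 - u * t) / (t - q) * ((1 - t ^ 2) * (1 - u * q) / (q - t ^ 2)) * ((1 + q) * (t ^ 2 - q)) = 0
  have s1 : (1 - t) * (1 - u * q) / (q - t) * ((1 - q ^ 2) * (1 - u * t) / (t - q ^ 2)) * ((1 + t) * (q ^ 2 - t)) =
      - ((1 - t ^ 2) * (1 - u * q) * ((1 - q ^ 2) * (1 - u * t)) / (q - t)) := by
    field_simp
    ring
  have s2 : (1 - q) * (1 - u * t) / (t - q) * ((1 - t ^ 2) * (1 - u * q) / (q - t ^ 2)) * ((1 + q) * (t ^ 2 - q)) =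
      (1 - t ^ 2) * (1 - u * q) * ((1 - q ^ 2) * (1 - u * t)) / (q - t) := by
    have : (t - q) = -(q - t) := by ring
    rw [this]
    field_simp
    ring
  rw [s1, s2]
  ring

end EllHall
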